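import Pool.Agent.K9h46.Univ

/-!
Restatement of the correlations: functions extended by zero, companions `g n * b (Ω n) (n_{>w})`.
-/

set_option autoImplicit false

namespace Pool.Agent.K9h46

open Finset Filter Pool.Agent.Q270.EA Pool.Agent.Q270.EB

/-- 1-bounded multiplicative functions -/
def MU (g : ℕ → ℂ) : Prop :=
  (∀ n, ‖g n‖ ≤ 1) ∧ ∀ m n : ℕ, 1 ≤ m → 1 ≤ n → Nat.Coprime m n → g (m * n) = g m * g n

/-- extension by zero -/
noncomputable def ex (g : ℕ → ℂ) (m : ℤ) : ℂ := if 0 < m then g m.toNat else 0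

/-- the part of `n` composed of the primes larger than `w` -/
def ro (w n : ℕ) : ℕ := ∏ p ∈ n.primeFactors.filter (fun p => w < p), p ^ n.factorization p

/-- `Ω n` -/
def om (n : ℕ) : ℕ := ArithmeticFunction.cardFactors n

/-- the correlation up to `N` -/
noncomputable def cr {k : ℕ} (a : Fin (k + 1) → ℤ) (f : ℕ → ℂ) (h : Fin k → ℕ → ℂ) (N : ℕ) : ℂ :=
  (1 / (N : ℂ)) * ∑ n ∈ Icc 1 N, ex f (n + a 0) * ∏ j, ex (h j) (n + a j.succ)

/-- set the value at `0` to zero -/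
noncomputable def z0 (g : ℕ → ℂ) (n : ℕ) : ℂ := if n = 0 then 0 else g n

lemma ex_eq (g : ℕ → ℂ) (m : ℤ) : ex g m = z0 g m.toNat := by
  unfold ex z0
  by_cases h : 0 < m
  · rw [if_pos h, if_neg (by omega)]
  · rw [if_neg h, if_pos (by omega)]

lemma z0_norm {g : ℕ → ℂ} (hg : ∀ n, ‖g n‖ ≤ 1) (n : ℕ) : ‖z0 g n‖ ≤ 1 := by
  unfold z0
  split_ifs
  · simp
  · exact hg n

lemma MU.one {g : ℕ → ℂ} (hg : MU g) : g 1 = 0 ∨ g 1 = 1 := by
  have h := hg.2 1 1 le_rfl le_rfl (by norm_num)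
  rw [mul_one] at h
  have h2 : g 1 * (g 1 - 1) = 0 := by linear_combination -h
  rcases mul_eq_zero.1 h2 with h3 | h3
  · exact Or.inl h3
  · exact Or.inr (by linear_combination h3)

lemma MU.bm {g : ℕ → ℂ} (hg : MU g) (h1 : g 1 = 1) : BM (z0 g) := by
  refine ⟨z0_norm hg.1, by unfold z0; simp [h1], fun m n hmn => ?_⟩
  unfold z0
  rcases Nat.eq_zero_or_pos m with rfl | hm
  · simp
  · rcases Nat.eq_zero_or_pos n with rfl | hn
    · simp
    · rw [if_neg (by positivity), if_neg (by omega), if_neg (by omega)]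
      exact hg.2 m n hm hn hmn

lemma MU.zero {g : ℕ → ℂ} (hg : MU g) (h1 : g 1 = 0) (m : ℤ) (b : ℕ → ℂ) :
    ex (fun n => g n * b n) m = 0 := by
  unfold ex
  split_ifs with h
  · have h2 := hg.2 1 m.toNat le_rfl (by omega) (by simp)
    rw [one_mul, h1, zero_mul] at h2
    dsimp only
    rw [h2, zero_mul]
  · rfl

lemma _root_.Pool.Agent.Q270.EA.BM.z0 {g : ℕ → ℂ} (hg : BM g) : BM (z0 g) :=
  MU.bm ⟨hg.1, fun m n _ _ h => hg.2.2 m n h⟩ hg.2.1

lemma ro_mul {w p m : ℕ} (hp : p.Prime) (hpw : p ≤ w) (hm : 1 ≤ m) : ro w (p * m) = ro w m := by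
  unfold ro
  have hm0 : m ≠ 0 := by omega
  have h1 : (p * m).primeFactors.filter (fun q => w < q) = m.primeFactors.filter (fun q => w < q) := by
    ext q
    simp only [mem_filter, Nat.mem_primeFactors]
    constructor
    · rintro ⟨⟨hq, hd, -⟩, hwq⟩
      refine ⟨⟨hq, ?_, hm0⟩, hwq⟩
      rcases (Nat.Prime.dvd_mul hq).1 hd with h | h
      · have := (Nat.prime_dvd_prime_iff_eq hq hp).1 h
        omega
      · exact h
    · rintro ⟨⟨hq, hd, -⟩, hwq⟩
      exact ⟨⟨hq, hd.mul_left p, mul_ne_zero hp.ne_zero hm0⟩, hwq⟩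
  rw [h1]
  refine prod_congr rfl fun q hq => ?_
  have hq' := mem_filter.1 hq
  have hqp : q ≠ p := by rintro rfl; omega
  rw [Nat.factorization_mul hp.ne_zero hm0, Finsupp.add_apply, hp.factorization,
    Finsupp.single_eq_of_ne hqp, zero_add]

lemma qm_of (w : ℕ) (b : ℕ → ℕ → ℂ) (hb : ∀ u v, ‖b u v‖ ≤ 1) :
    QM w (fun n => b (om n) (ro w n)) := by
  refine ⟨fun n => hb _ _, fun n => b (om n - 1) (ro w n), fun _ => 1, fun n => hb _ _,
    fun _ => by simp, fun p m hp hpw hm hpm => ?_⟩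
  dsimp only
  have h1 : om (p * m) = om m + 1 := by
    unfold om
    rw [ArithmeticFunction.cardFactors_mul hp.ne_zero (by omega),
      ArithmeticFunction.cardFactors_apply_prime hp]
    omega
  rw [h1, ro_mul hp hpw hm, one_mul, Nat.add_sub_cancel]

lemma harm_le (X : ℕ) (hX : 3 ≤ X) : ∑ N ∈ Icc 1 X, 1 / (N : ℝ) ≤ 2 * Real.log X := by
  have h1 := harmonic_le_one_add_log X
  have h2 : ((harmonic X : ℚ) : ℝ) = ∑ N ∈ Icc 1 X, 1 / (N : ℝ) := by
    rw [harmonic_eq_sum_Icc]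
    push_cast
    refine sum_congr rfl fun N _ => by rw [one_div]
  rw [h2] at h1
  have h3 : 1 ≤ Real.log X := by
    rw [← Real.log_exp 1]
    refine Real.log_le_log (Real.exp_pos _) ?_
    have h4 := Real.exp_one_lt_d9
    have h5 : (3 : ℝ) ≤ X := by exact_mod_cast hX
    linarith
  linarith

/-- transfer -/
theorem transfer (k : ℕ) (a : Fin (k + 1) → ℤ) (f : ℕ → ℂ) (ε : ℝ) (hε : 0 < ε) (w X : ℕ)
    (hX : 3 ≤ X)
    (h : ∀ g G : Fin k → ℕ → ℂ, (∀ j, BM (g j)) → (∀ j, QM w (G j)) →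
      AS X (cor a (z0 f) (fun j n => g j n * G j n)) ≤ ε / 2)
    (g : Fin k → ℕ → ℂ) (hg : ∀ j, MU (g j)) (b : Fin k → ℕ → ℕ → ℂ)
    (hb : ∀ j u v, ‖b j u v‖ ≤ 1) :
    ∑ N ∈ Icc 1 X, (1 / (N : ℝ)) * ‖cr a f (fun j n => g j n * b j (om n) (ro w n)) N‖ ≤
      ε * Real.log X := by
  have hlog : 0 < Real.log X := Real.log_pos (by exact_mod_cast (by omega : 1 < X))
  by_cases h1 : ∀ j, g j 1 = 1
  · have h2 := h (fun j => z0 (g j)) (fun j n => b j (om n) (ro w n)) (fun j => (hg j).bm (h1 j))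
      (fun j => qm_of w (b j) (hb j))
    have hpos : 0 < ∑ N ∈ Icc 1 X, 1 / (N : ℝ) :=
      sum_pos (fun N hN => by
        have : (0 : ℝ) < N := by exact_mod_cast (mem_Icc.1 hN).1
        positivity) ⟨1, mem_Icc.2 ⟨le_rfl, by omega⟩⟩
    unfold AS at h2
    rw [div_le_iff₀ hpos] at h2
    have h3 := harm_le X hX
    have h4 : ∑ N ∈ Icc 1 X, (1 / (N : ℝ)) *
        ‖cr a f (fun j n => g j n * b j (om n) (ro w n)) N‖ = ∑ N ∈ Icc 1 X, (1 / (N : ℝ)) *
        ‖(1 / (N : ℂ)) * ∑ n ∈ Icc 1 N, cor a (z0 f)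
          (fun j n => z0 (g j) n * b j (om n) (ro w n)) n‖ := by
      refine sum_congr rfl fun N _ => ?_
      unfold cr cor
      congr 3
      refine sum_congr rfl fun n _ => ?_
      rw [ex_eq]
      congr 1
      refine prod_congr rfl fun j _ => ?_
      rw [ex_eq]
      by_cases h0 : ((n : ℤ) + a j.succ).toNat = 0
      · simp only [z0, h0, if_true, zero_mul]
      · simp only [z0, h0, if_false]
    rw [h4]
    refine h2.trans ?_
    nlinarith
  · push Not at h1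
    obtain ⟨j, hj⟩ := h1
    have hj0 : g j 1 = 0 := ((hg j).one).resolve_right hj
    have h4 : ∀ N, cr a f (fun j n => g j n * b j (om n) (ro w n)) N = 0 := by
      intro N
      unfold cr
      rw [sum_eq_zero, mul_zero]
      intro n _
      rw [prod_eq_zero (mem_univ j) ((hg j).zero hj0 _ (fun n => b j (om n) (ro w n))), mul_zero]
    simp only [h4, norm_zero, mul_zero, sum_const_zero]
    positivity

end Pool.Agent.K9h46
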