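import Pool.Agent.K9h46.Abt
import Pool.Agent.K9h46.Com

/-!
One arbitrary multiplicative function against tame ones: integer shifts.
-/

set_option autoImplicit false

namespace Pool.Agent.K9h46

open Finset Filter
open Pool.Agent.W208.TL (PP Mul1 nit KF Tame)

/-- integer shifts -/
theorem abt_int (k : ℕ) (hk : 1 ≤ k) (a : Fin (k + 1) → ℤ) (ha : Function.Injective a)
    (g : Fin k → ℕ → ℂ) (hg : ∀ j, MU (g j))
    (q : Fin k → ℕ) (hq : ∀ j, 1 ≤ q j) (χ : ∀ j, DirichletCharacter ℂ (q j)) (t : Fin k → ℝ)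
    (htame : ∀ j, Tame (uu (z0 (g j)) (χ j) (t j)))
    (FF : (ℕ → ℂ) → Prop) (hFF : ∀ f, FF f → (∀ n, ‖f n‖ ≤ 1) ∧
      KF (fun n => z0 f n * nit (∑ j, t j) n))
    (hnp : (∃ j, Tendsto (fun y => ∑ p ∈ PP 0 y, (1 - (uu (z0 (g j)) (χ j) (t j) p).re) / p)
      atTop atTop) ∨ (∀ Q r : ℕ, 1 ≤ Q → ∀ ε : ℝ, 0 < ε → ∃ X₀ : ℕ, ∀ X : ℕ, X₀ ≤ X → ∀ f, FF f →
        ‖∑ n ∈ (Ioc 0 X).filter (fun n => n ≡ r [MOD Q]), z0 f n * nit (∑ j, t j) n‖ ≤ ε * X))
    (ε : ℝ) (hε : 0 < ε) :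
    ∃ X₀ : ℕ, ∀ X : ℕ, X₀ ≤ X → ∀ f, FF f → ‖cr a f g X‖ ≤ ε := by
  classical
  by_cases h1 : ∀ j, g j 1 = 1
  · obtain ⟨c, hc⟩ : ∃ c : ℕ, c = ∑ i, (a i).natAbs := ⟨_, rfl⟩
    have hac : ∀ i, 0 ≤ a i + c := by
      intro i
      have h2 : (a i).natAbs ≤ c := by
        rw [hc]
        exact single_le_sum (f := fun i => (a i).natAbs) (fun _ _ => Nat.zero_le _) (mem_univ i)
      omega
    have hinj : ∀ i i', (a i + c).toNat = (a i' + c).toNat → i = i' := by
      intro i i' h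
      have h2 := hac i
      have h3 := hac i'
      exact ha (by omega)
    obtain ⟨X1, hX1⟩ := abt_core k hk (a 0 + c).toNat (fun j => (a j.succ + c).toNat)
      (fun i j hij => Fin.succ_injective _ (hinj _ _ hij))
      (fun j h => (Fin.succ_ne_zero j) (hinj _ _ h)) (fun j => z0 (g j))
      (fun j => (hg j).bm (h1 j)) q hq χ t htame (fun f' => ∃ f, FF f ∧ f' = z0 f)
      (by
        rintro f' ⟨f, hf, rfl⟩
        exact ⟨z0_norm (hFF f hf).1, (hFF f hf).2⟩)
      (by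
        rcases hnp with h | h
        · exact Or.inl h
        · refine Or.inr fun Q r hQ ε' hε' => ?_
          obtain ⟨X₀, hX₀⟩ := h Q r hQ ε' hε'
          refine ⟨X₀, fun X hX f' hf' => ?_⟩
          obtain ⟨f, hf, rfl⟩ := hf'
          exact hX₀ X hX f hf) (ε / 2) (by positivity)
    obtain ⟨X2, hX2⟩ := exists_nat_ge (4 * c / ε)
    refine ⟨max X1 (max X2 1), fun X hX f hf => ?_⟩
    have hXX1 : X1 ≤ X := (le_max_left _ _).trans hX
    have hXX2 : X2 ≤ X := ((le_max_left _ _).trans (le_max_right _ _)).trans hX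
    have hX0 : 1 ≤ X := ((le_max_right _ _).trans (le_max_right _ _)).trans hX
    have hXr : (0 : ℝ) < X := by exact_mod_cast hX0
    have h2 := hX1 X hXX1 (z0 f) ⟨f, hf, rfl⟩
    obtain ⟨u, hu⟩ : ∃ u : ℕ → ℂ, u = fun n : ℕ => ex f (n + a 0) * ∏ j, ex (g j) (n + a j.succ) :=
      ⟨_, rfl⟩
    have hu1 : ∀ n, ‖u n‖ ≤ 1 := by
      intro n
      rw [hu, norm_mul, norm_prod]
      simp only [ex_eq]
      exact mul_le_one₀ (z0_norm (hFF f hf).1 _) (prod_nonneg fun _ _ => norm_nonneg _)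
        (prod_le_one (fun _ _ => norm_nonneg _) fun j _ => z0_norm (hg j).1 _)
    have huc : ∀ n : ℕ, z0 f (n + (a 0 + c).toNat) * ∏ j, z0 (g j) (n + (a j.succ + c).toNat) =
        u (n + c) := by
      intro n
      rw [hu]
      simp only [ex_eq]
      have h3 : ∀ i, (((n + c : ℕ) : ℤ) + a i).toNat = n + (a i + c).toNat := by
        intro i
        have := hac i
        push_cast
        omega
      rw [h3 0]
      congr 1
      refine prod_congr rfl fun j _ => ?_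
      rw [h3]
    simp only [huc] at h2
    have h3 := Pool.Agent.W690.TL.shift_sum u hu1 X c
    have h4 : 2 * (c : ℝ) ≤ ε / 2 * X := by
      have h5 : 4 * c / ε ≤ (X : ℝ) := hX2.trans (by exact_mod_cast hXX2)
      rw [div_le_iff₀ hε] at h5
      linarith
    have h5 : ‖∑ n ∈ Ioc 0 X, u n‖ ≤ ε * X := by
      have h6 : ∑ n ∈ Ioc 0 X, u n = ∑ n ∈ Ioc 0 X, u (n + c) -
          (∑ n ∈ Ioc 0 X, u (n + c) - ∑ n ∈ Ioc 0 X, u n) := by ring
      rw [h6]
      refine (norm_sub_le _ _).trans ?_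
      linarith
    have h6 : Icc 1 X = Ioc 0 X := by ext n; simp only [mem_Icc, mem_Ioc]; omega
    unfold cr
    have h7 : ∑ n ∈ Icc 1 X, ex f (n + a 0) * ∏ j, ex (g j) (n + a j.succ) =
        ∑ n ∈ Ioc 0 X, u n := by
      rw [h6, hu]
    rw [h7, norm_mul, norm_div, norm_one, Complex.norm_natCast, one_div, inv_mul_le_iff₀ hXr]
    linarith
  · push Not at h1
    obtain ⟨j, hj⟩ := h1
    have hj0 : g j 1 = 0 := ((hg j).one).resolve_right hj
    refine ⟨0, fun X _ f _ => ?_⟩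
    unfold cr
    rw [sum_eq_zero, mul_zero, norm_zero]
    · exact hε.le
    · intro n _
      have h2 := (hg j).zero hj0 (n + a j.succ) (fun _ => 1)
      simp only [mul_one] at h2
      rw [prod_eq_zero (mem_univ j) h2, mul_zero]

/-- a multiplicative function times a function of `Ω` -/
lemma kf_om {f : ℕ → ℂ} (hf : MU f) (b : ℕ → ℂ) (hb : ∀ m, ‖b m‖ ≤ 1) (T : ℝ) :
    KF (fun n => z0 (fun m => f m * b (om m)) n * nit T n) := by
  have hn : ∀ (c : ℂ), ‖c‖ ≤ 1 → ∀ n, ‖c * nit T n‖ ≤ 1 := by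
    intro c hc n
    rw [norm_mul, Pool.Agent.W690.TL.norm_nit, mul_one]
    exact hc
  refine ⟨fun n => hn _ (z0_norm (fun m => ?_) n) n, fun p => f p * nit T p,
    fun n => z0 (fun m => f m * b (om m + 1)) n * nit T n, fun p => hn _ (hf.1 p) p,
    fun n => hn _ (z0_norm (fun m => ?_) n) n, fun p n hp hpn => ?_⟩
  · rw [norm_mul]
    exact mul_le_one₀ (hf.1 _) (norm_nonneg _) (hb _)
  · rw [norm_mul]
    exact mul_le_one₀ (hf.1 _) (norm_nonneg _) (hb _)
  · have hn0 : n ≠ 0 := by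
      rintro rfl
      exact hpn (dvd_zero _)
    have hc : Nat.Coprime p n := (Nat.Prime.coprime_iff_not_dvd hp).2 hpn
    unfold z0
    dsimp only
    rw [if_neg (mul_ne_zero hp.ne_zero hn0), if_neg hn0, hf.2 p n hp.pos (by omega) hc,
      Pool.Agent.W690.TL.nit_mul T hc]
    have h1 : om (p * n) = om n + 1 := by
      unfold om
      rw [ArithmeticFunction.cardFactors_mul hp.ne_zero hn0,
        ArithmeticFunction.cardFactors_apply_prime hp]
      omega
    rw [h1]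
    ring

end Pool.Agent.K9h46
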