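import Pool.Agent.K9h46.Nr1
import Pool.Agent.Y868.VR.H4

/-!
Non-pretentious multiplicative functions have mean zero in every residue class.
-/

set_option autoImplicit false

namespace Pool.Agent.K9h46

open Finset Filter
open Pool.Agent.W208.TL (PP sm mu Mul1 nit QQ)

/-- sums that are `o(N)` -/
def Sml (S : ℕ → ℂ) : Prop := ∀ ε : ℝ, 0 < ε → ∃ N₀ : ℕ, ∀ N : ℕ, N₀ ≤ N → ‖S N‖ ≤ ε * N

lemma Sml.zero : Sml (fun _ => 0) := fun ε hε => ⟨0, fun N _ => by
  rw [norm_zero]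
  positivity⟩

lemma Sml.add {S T : ℕ → ℂ} (hS : Sml S) (hT : Sml T) : Sml (fun N => S N + T N) := by
  intro ε hε
  obtain ⟨N1, h1⟩ := hS (ε / 2) (by positivity)
  obtain ⟨N2, h2⟩ := hT (ε / 2) (by positivity)
  refine ⟨max N1 N2, fun N hN => (norm_add_le _ _).trans ?_⟩
  have h3 := h1 N ((le_max_left _ _).trans hN)
  have h4 := h2 N ((le_max_right _ _).trans hN)
  linarith

lemma Sml.sum {ι : Type*} (s : Finset ι) (S : ι → ℕ → ℂ) (h : ∀ i ∈ s, Sml (S i)) :
    Sml (fun N => ∑ i ∈ s, S i N) := by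
  classical
  induction s using Finset.induction_on with
  | empty =>
    simp only [sum_empty]
    exact Sml.zero
  | insert i s hi ih =>
    simp only [sum_insert hi]
    exact (h i (mem_insert_self _ _)).add (ih fun j hj => h j (mem_insert_of_mem hj))

lemma Sml.const_mul {S : ℕ → ℂ} (hS : Sml S) (c : ℂ) : Sml (fun N => c * S N) := by
  intro ε hε
  obtain ⟨N1, h1⟩ := hS (ε / (‖c‖ + 1)) (by positivity)
  refine ⟨N1, fun N hN => ?_⟩
  have h2 := h1 N hN
  rw [norm_mul]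
  calc ‖c‖ * ‖S N‖ ≤ (‖c‖ + 1) * (ε / (‖c‖ + 1) * N) := by
        gcongr
        linarith
    _ = ε * N := by field_simp

lemma Sml.div {S : ℕ → ℂ} (hS : Sml S) {s : ℕ} (hs : 1 ≤ s) : Sml (fun N => S (N / s)) := by
  intro ε hε
  obtain ⟨N1, h1⟩ := hS ε hε
  refine ⟨N1 * s, fun N hN => ?_⟩
  have h2 := h1 (N / s) ((Nat.le_div_iff_mul_le hs).2 hN)
  refine h2.trans ?_
  have h3 : ((N / s : ℕ) : ℝ) ≤ N := by exact_mod_cast Nat.div_le_self N s
  exact mul_le_mul_of_nonneg_left h3 hε.le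

lemma Sml.congr {S T : ℕ → ℂ} (hS : Sml S) (h : ∀ N, T N = S N) : Sml T := by
  intro ε hε
  obtain ⟨N1, h1⟩ := hS ε hε
  exact ⟨N1, fun N hN => by rw [h]; exact h1 N hN⟩

lemma Sml.of_tendsto {S : ℕ → ℂ} (h : Tendsto (fun N : ℕ => S N / (N : ℂ)) atTop (nhds 0)) :
    Sml S := by
  intro ε hε
  have h1 := (Metric.tendsto_atTop.1 h) ε hε
  obtain ⟨N1, h1⟩ := h1
  refine ⟨max N1 1, fun N hN => ?_⟩
  have h2 := h1 N ((le_max_left _ _).trans hN)
  have hN0 : (0 : ℝ) < N := by exact_mod_cast (le_max_right N1 1).trans hN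
  rw [dist_zero_right, norm_div, Complex.norm_natCast, div_lt_iff₀ hN0] at h2
  exact h2.le

/-- not pretentious, with fixed twists -/
def NPT (f : ℕ → ℂ) : Prop := ∀ q : ℕ, 1 ≤ q → ∀ (χ : DirichletCharacter ℂ q) (t : ℝ),
  Tendsto (fun y => ∑ p ∈ PP 0 y, (1 - (uu f χ t p).re) / p) atTop atTop

lemma conj_twist {q : ℕ} (χ : DirichletCharacter ℂ q) (t T : ℝ) {p : ℕ} (hp : 0 < p) :
    starRingEnd ℂ (χ⁻¹ (p : ZMod q) * nit (t - T) p) =
      nit T p * χ (p : ZMod q) * (p : ℂ) ^ (-((t : ℂ) * Complex.I)) := by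
  have h1 : starRingEnd ℂ (χ⁻¹ (p : ZMod q)) = χ (p : ZMod q) := by
    have h2 := MulChar.star_apply' χ⁻¹ (p : ZMod q)
    rw [inv_inv] at h2
    exact h2
  have hpc : (p : ℂ) ≠ 0 := by exact_mod_cast hp.ne'
  have h3 : starRingEnd ℂ (nit (t - T) p) = nit T p * (p : ℂ) ^ (-((t : ℂ) * Complex.I)) := by
    rw [Complex.cpow_def_of_ne_zero hpc, ← Complex.natCast_log]
    unfold nit
    rw [← Complex.exp_conj, ← Complex.exp_add]
    congr 1
    simp only [map_mul, Complex.conj_I, Complex.conj_ofReal]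
    push_cast
    ring
  rw [map_mul, h1, h3]
  ring

lemma np_mean {f : ℕ → ℂ} (hf : Mul1 f) (hnp : NPT f) {q : ℕ} (hq : 1 ≤ q)
    (χ : DirichletCharacter ℂ q) (T : ℝ) :
    Sml (fun N => ∑ n ∈ Ioc 0 N, f n * nit T n * χ (n : ZMod q)) := by
  classical
  obtain ⟨b, hb⟩ : ∃ b : ArithmeticFunction ℂ, ∀ n : ℕ, n ≠ 0 →
      b n = f n * nit T n * χ (n : ZMod q) := by
    refine ⟨⟨fun n => if n = 0 then 0 else f n * nit T n * χ (n : ZMod q), by simp⟩, fun n hn => ?_⟩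
    simp [hn]
  have hMB : Pool.Agent.Y868.VR.MB b := by
    refine ⟨ArithmeticFunction.IsMultiplicative.iff_ne_zero.2 ⟨?_, fun {m n} hm hn hmn => ?_⟩,
      fun n => ?_⟩
    · rw [hb 1 one_ne_zero, hf.2.1, Pool.Agent.W690.TL.nit_one]
      simp
    · rw [hb _ (mul_ne_zero hm hn), hb m hm, hb n hn, hf.2.2 m n hmn,
        Pool.Agent.W690.TL.nit_mul T hmn, Nat.cast_mul, map_mul]
      ring
    · rcases eq_or_ne n 0 with rfl | hn
      · simp
      · rw [hb n hn, norm_mul, norm_mul, Pool.Agent.W690.TL.norm_nit, mul_one]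
        exact mul_le_one₀ (hf.1 n) (norm_nonneg _) (DirichletCharacter.norm_le_one _ _)
  have hNP : Pool.Agent.Y868.VR.NP b := by
    intro t hs
    have h1 := hnp q hq χ⁻¹ (t - T)
    obtain ⟨s, hsdef⟩ : ∃ s : ℕ → ℝ, s = fun p => if p.Prime then
        (1 - (uu f χ⁻¹ (t - T) p).re) / p else 0 := ⟨_, rfl⟩
    have hgg : ∀ p : Nat.Primes, Pool.Agent.Y868.VR.gg b p 0 t =
        (1 - (uu f χ⁻¹ (t - T) p).re) / ((p : ℕ) : ℝ) := by
      intro p
      unfold Pool.Agent.Y868.VR.gg uu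
      rw [hb _ p.2.ne_zero, conj_twist χ t T p.2.pos, add_zero, Real.rpow_neg_one]
      have e : f ↑p * nit T ↑p * χ ((p : ℕ) : ZMod q) * ((p : ℕ) : ℂ) ^ (-((t : ℂ) * Complex.I)) =
        f ↑p * (nit T ↑p * χ ((p : ℕ) : ZMod q) * ((p : ℕ) : ℂ) ^ (-((t : ℂ) * Complex.I))) := by
        ring
      rw [e, div_eq_mul_inv, mul_comm]
    have hs2 : Summable s := by
      have h2 : Summable (fun p : Nat.Primes => s p) := by
        refine hs.congr fun p => ?_
        rw [hgg p, hsdef]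
        simp only
        rw [if_pos p.2]
      have h3 := (summable_subtype_iff_indicator (s := {p : ℕ | p.Prime}) (f := s)).1 h2
      refine h3.congr fun p => ?_
      rw [hsdef]
      by_cases hp : p.Prime
      · rw [Set.indicator_of_mem (by exact hp)]
      · rw [Set.indicator_of_notMem (by exact hp)]
        simp [hp]
    have hs0 : ∀ p, 0 ≤ s p := by
      intro p
      rw [hsdef]
      simp only
      split_ifs with hp
      · refine div_nonneg ?_ (Nat.cast_nonneg _)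
        have := (Complex.re_le_norm _).trans ((uu_mul1 hf χ⁻¹ (t - T)).1 p)
        linarith
      · exact le_rfl
    obtain ⟨y, hy⟩ := (tendsto_atTop.1 h1 (∑' p, s p + 1)).exists
    have h4 : ∑ p ∈ PP 0 y, (1 - (uu f χ⁻¹ (t - T) p).re) / p ≤ ∑' p, s p := by
      refine le_trans (le_of_eq ?_) (hs2.sum_le_tsum (PP 0 y) fun p _ => hs0 p)
      refine sum_congr rfl fun p hp => ?_
      rw [hsdef]
      simp only
      rw [if_pos (mPP.1 hp).2]
    linarith
  have h1 := Sml.of_tendsto (Pool.Agent.Y868.VR.mz hMB hNP)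
  refine h1.congr fun N => ?_
  refine sum_congr rfl fun n hn => ?_
  rw [hb n (by have := (mem_Ioc.1 hn).1; omega)]

/-- reduced residue classes -/
lemma cop_class {g : ℕ → ℂ} (hχ : ∀ q : ℕ, 1 ≤ q → ∀ χ : DirichletCharacter ℂ q,
    Sml (fun N => ∑ n ∈ Ioc 0 N, g n * χ (n : ZMod q))) {q b : ℕ} (hq : 1 ≤ q)
    (hb : Nat.Coprime b q) :
    Sml (fun N => ∑ n ∈ (Ioc 0 N).filter (fun n => n ≡ b [MOD q]), g n) := by
  classical
  have : NeZero q := ⟨by omega⟩
  have hφ : (q.totient : ℂ) ≠ 0 := by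
    have := Nat.totient_pos.2 (by omega : 0 < q)
    exact_mod_cast this.ne'
  have hbu : IsUnit (b : ZMod q) := (ZMod.isUnit_iff_coprime b q).2 hb
  have h1 := (Sml.sum (univ : Finset (DirichletCharacter ℂ q)) (fun χ N => χ (b : ZMod q)⁻¹ *
    ∑ n ∈ Ioc 0 N, g n * χ (n : ZMod q)) fun χ _ => (hχ q hq χ).const_mul _).const_mul
      (q.totient : ℂ)⁻¹
  refine h1.congr fun N => ?_
  rw [sum_filter]
  have h2 : ∀ n : ℕ, (if n ≡ b [MOD q] then g n else 0) = (q.totient : ℂ)⁻¹ *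
      ∑ χ : DirichletCharacter ℂ q, χ (b : ZMod q)⁻¹ * (g n * χ (n : ZMod q)) := by
    intro n
    have h3 := DirichletCharacter.sum_char_inv_mul_char_eq ℂ hbu (n : ZMod q)
    have h4 : ∑ χ : DirichletCharacter ℂ q, χ (b : ZMod q)⁻¹ * (g n * χ (n : ZMod q)) =
        g n * ∑ χ : DirichletCharacter ℂ q, χ (b : ZMod q)⁻¹ * χ (n : ZMod q) := by
      rw [mul_sum]
      exact sum_congr rfl fun χ _ => by ring
    rw [h4, h3]
    have e2 : ((b : ZMod q) = (n : ZMod q)) ↔ n ≡ b [MOD q] := by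
      rw [ZMod.natCast_eq_natCast_iff]
      exact ⟨fun h => h.symm, fun h => h.symm⟩
    by_cases h : n ≡ b [MOD q]
    · rw [if_pos h, if_pos (e2.2 h)]
      field_simp
    · rw [if_neg h, if_neg (fun hh => h (e2.1 hh))]
      simp
  simp only [h2]
  rw [← mul_sum, sum_comm]
  simp only [mul_sum]

/-- a sum over integers coprime to the modulus with a condition modulo `M` -/
lemma per_class {g : ℕ → ℂ} (hχ : ∀ q : ℕ, 1 ≤ q → ∀ χ : DirichletCharacter ℂ q,
    Sml (fun N => ∑ n ∈ Ioc 0 N, g n * χ (n : ZMod q))) {M : ℕ} (hM : 1 ≤ M) (P : ℕ → Prop)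
    [DecidablePred P] (hP : ∀ n, P n ↔ P (n % M)) (hc : ∀ n, P n → Nat.Coprime n M) :
    Sml (fun N => ∑ n ∈ (Ioc 0 N).filter P, g n) := by
  classical
  have h1 := Sml.sum ((range M).filter P) (fun b N => ∑ n ∈ (Ioc 0 N).filter
    (fun n => n ≡ b [MOD M]), g n) fun b hb => cop_class hχ hM (hc b (mem_filter.1 hb).2)
  refine h1.congr fun N => ?_
  rw [← sum_fiberwise_of_maps_to (s := (Ioc 0 N).filter P) (t := (range M).filter P)
    (g := fun n => n % M)]
  · refine sum_congr rfl fun b hb => ?_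
    have hb' := mem_filter.1 hb
    refine sum_congr ?_ fun _ _ => rfl
    ext n
    simp only [mem_filter]
    have hbM : b % M = b := Nat.mod_eq_of_lt (mem_range.1 hb'.1)
    constructor
    · rintro ⟨⟨h2, h3⟩, h4⟩
      exact ⟨h2, by rw [Nat.ModEq, h4, hbM]⟩
    · rintro ⟨h2, h3⟩
      have h4 : n % M = b := by rw [← hbM]; exact h3
      exact ⟨⟨h2, by rw [hP, h4]; exact hb'.2⟩, h4⟩
  · intro n hn
    have hn' := mem_filter.1 hn
    exact mem_filter.2 ⟨mem_range.2 (Nat.mod_lt _ hM), (hP n).1 hn'.2⟩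

lemma sm_eq_one_iff {w m : ℕ} (hm : m ≠ 0) : sm 0 w m = 1 ↔ Nat.Coprime m (QQ w 1) := by
  constructor
  · intro h
    rw [Nat.coprime_iff_gcd_eq_one]
    by_contra h1
    obtain ⟨p, hp, hd⟩ := Nat.exists_prime_and_dvd h1
    have h2 := (Nat.dvd_gcd_iff.1 hd).1
    have h3 := Pool.Agent.W208.TL.QQ_primes hp (Nat.dvd_gcd_iff.1 hd).2
    have h4 := fact_sm0 w m p
    rw [h, if_pos (mPP.1 h3).1.2] at h4
    have h5 := (hp.dvd_iff_one_le_factorization hm).1 h2
    simp at h4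
    omega
  · intro h
    apply Nat.eq_of_factorization_eq (sm_ne _ _ _) one_ne_zero
    intro l
    rw [fact_sm0]
    split_ifs with h1
    · by_cases hl : l.Prime
      · simp only [Nat.factorization_one, Finsupp.coe_zero, Pi.zero_apply]
        apply Nat.factorization_eq_zero_of_not_dvd
        intro h2
        have h3 : l ∣ QQ w 1 := by
          have := Pool.Agent.W208.TL.pow_dvd_QQ (V := 1) (mPP.2 ⟨⟨hl.pos, h1⟩, hl⟩)
          rwa [pow_one] at this
        have h4 := Nat.dvd_gcd h2 h3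
        rw [Nat.coprime_iff_gcd_eq_one.1 h] at h4
        exact hl.one_lt.ne' (Nat.dvd_one.1 h4)
      · rw [Nat.factorization_eq_zero_of_not_prime _ hl]
        simp
    · simp

/-- the rough part of the decomposition -/
lemma rough_class {g : ℕ → ℂ} (hχ : ∀ q : ℕ, 1 ≤ q → ∀ χ : DirichletCharacter ℂ q,
    Sml (fun N => ∑ n ∈ Ioc 0 N, g n * χ (n : ZMod q))) {Q : ℕ} (hQ : 1 ≤ Q) (w s r : ℕ)
    (hQw : Q ≤ w) :
    Sml (fun N => ∑ m ∈ (Ioc 0 N).filter (fun m => sm 0 w m = 1 ∧ s * m ≡ r [MOD Q]), g m) := by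
  classical
  have hM : 1 ≤ QQ w 1 * Q := Nat.mul_pos (Pool.Agent.W208.TL.QQ_pos w 1) hQ
  have hcq : ∀ n, Nat.Coprime n (QQ w 1) → Nat.Coprime n (QQ w 1 * Q) := by
    intro n hn
    refine Nat.Coprime.mul_right hn ?_
    rw [Nat.coprime_iff_gcd_eq_one]
    by_contra h1
    obtain ⟨p, hp, hd⟩ := Nat.exists_prime_and_dvd h1
    have h2 := Nat.dvd_gcd_iff.1 hd
    have h3 : p ≤ w := (Nat.le_of_dvd hQ h2.2).trans hQw
    have h4 : p ∣ QQ w 1 := by
      have := Pool.Agent.W208.TL.pow_dvd_QQ (V := 1) (mPP.2 ⟨⟨hp.pos, h3⟩, hp⟩)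
      rwa [pow_one] at this
    have h5 := Nat.dvd_gcd h2.1 h4
    rw [Nat.coprime_iff_gcd_eq_one.1 hn] at h5
    exact hp.one_lt.ne' (Nat.dvd_one.1 h5)
  have h1 := per_class hχ hM (fun m => Nat.Coprime m (QQ w 1) ∧ s * m ≡ r [MOD Q]) (fun n => by
    refine and_congr ?_ ?_
    · have h2 : Nat.gcd (n % (QQ w 1 * Q)) (QQ w 1) = Nat.gcd n (QQ w 1) := by
        have h3 : n % (QQ w 1 * Q) ≡ n [MOD QQ w 1] :=
          (Nat.mod_modEq n _).of_dvd (Dvd.intro _ rfl)
        exact h3.gcd_eq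
      rw [Nat.coprime_iff_gcd_eq_one, Nat.coprime_iff_gcd_eq_one, h2]
    · have h3 : n % (QQ w 1 * Q) ≡ n [MOD Q] := (Nat.mod_modEq n _).of_dvd (Dvd.intro_left _ rfl)
      have h4 := h3.mul_left s
      exact ⟨fun h => h4.trans h, fun h => h4.symm.trans h⟩) (fun n hn => hcq n hn.1)
  refine h1.congr fun N => sum_congr ?_ fun _ _ => rfl
  refine filter_congr fun m hm => ?_
  rw [sm_eq_one_iff (by have := (mem_Ioc.1 hm).1; omega)]

/-- all residue classes -/
theorem gen_class {g : ℕ → ℂ} (hg : Mul1 g) (hχ : ∀ q : ℕ, 1 ≤ q → ∀ χ : DirichletCharacter ℂ q,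
    Sml (fun N => ∑ n ∈ Ioc 0 N, g n * χ (n : ZMod q))) {Q : ℕ} (hQ : 1 ≤ Q) (r : ℕ) :
    Sml (fun N => ∑ n ∈ (Ioc 0 N).filter (fun n => n ≡ r [MOD Q]), g n) := by
  classical
  intro ε hε
  obtain ⟨w, hw⟩ : ∃ w : ℕ, w = Q + 1 := ⟨_, rfl⟩
  obtain ⟨V, hV⟩ := pow_unbounded_of_one_lt (2 * (w : ℝ) / ε) (by norm_num : (1 : ℝ) < 2)
  obtain ⟨S, hS⟩ : ∃ S : Finset ℕ, S = (QQ w V).divisors.filter
    (fun s => sm 0 w s = s ∧ ∀ l ∈ PP 0 w, ¬ l ^ V ∣ s) := ⟨_, rfl⟩
  have hSpos : ∀ s ∈ S, 1 ≤ s := by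
    intro s hs
    rw [hS] at hs
    exact Nat.pos_of_mem_divisors (mem_filter.1 hs).1
  have h1 := Sml.sum S (fun s N => g s * ∑ m ∈ (Ioc 0 (N / s)).filter
    (fun m => sm 0 w m = 1 ∧ s * m ≡ r [MOD Q]), g m) fun s hs =>
      ((rough_class hχ hQ w s r (by omega)).div (hSpos s hs)).const_mul (g s)
  obtain ⟨N₀, hN₀⟩ := h1 (ε / 2) (by positivity)
  refine ⟨N₀, fun N hN => ?_⟩
  have h2 := hN₀ N hN
  -- split
  have h3 : ∑ n ∈ (Ioc 0 N).filter (fun n => n ≡ r [MOD Q]), g n =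
      ∑ n ∈ (Ioc 0 N).filter (fun n => n ≡ r [MOD Q] ∧ ∀ l ∈ PP 0 w, ¬ l ^ V ∣ n), g n +
      ∑ n ∈ (Ioc 0 N).filter (fun n => n ≡ r [MOD Q] ∧ ¬ ∀ l ∈ PP 0 w, ¬ l ^ V ∣ n), g n := by
    rw [← filter_filter, ← filter_filter, sum_filter_add_sum_filter_not]
  have h4 : ‖∑ n ∈ (Ioc 0 N).filter (fun n => n ≡ r [MOD Q] ∧ ¬ ∀ l ∈ PP 0 w, ¬ l ^ V ∣ n), g n‖ ≤
      ε / 2 * N := by
    have h5 : ‖∑ n ∈ (Ioc 0 N).filter (fun n => n ≡ r [MOD Q] ∧ ¬ ∀ l ∈ PP 0 w, ¬ l ^ V ∣ n), g n‖ ≤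
        ((((Ioc 0 N).filter (fun n => ∃ l ∈ PP 0 w, l ^ V ∣ n)).card : ℕ) : ℝ) := by
      refine (norm_sum_le _ _).trans ((sum_le_card_nsmul _ _ 1 fun n _ => hg.1 n).trans ?_)
      rw [nsmul_eq_mul, mul_one]
      have h6 : (Ioc 0 N).filter (fun n => n ≡ r [MOD Q] ∧ ¬ ∀ l ∈ PP 0 w, ¬ l ^ V ∣ n) ⊆
          (Ioc 0 N).filter (fun n => ∃ l ∈ PP 0 w, l ^ V ∣ n) := by
        intro n hn
        obtain ⟨h7, -, h8⟩ := mem_filter.1 hn
        push Not at h8
        exact mem_filter.2 ⟨h7, h8⟩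
      exact_mod_cast card_le_card h6
    refine h5.trans ((bad_count w V N).trans ?_)
    have h6 : (w : ℝ) / 2 ^ V ≤ ε / 2 := by
      rw [div_lt_iff₀ hε] at hV
      rw [div_le_iff₀ (by positivity)]
      linarith
    calc (w : ℝ) * (N / 2 ^ V) = w / 2 ^ V * N := by ring
      _ ≤ ε / 2 * N := mul_le_mul_of_nonneg_right h6 (Nat.cast_nonneg _)
  have h5 : ∑ n ∈ (Ioc 0 N).filter (fun n => n ≡ r [MOD Q] ∧ ∀ l ∈ PP 0 w, ¬ l ^ V ∣ n), g n =
      ∑ s ∈ S, g s * ∑ m ∈ (Ioc 0 (N / s)).filter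
        (fun m => sm 0 w m = 1 ∧ s * m ≡ r [MOD Q]), g m := by
    rw [← sum_fiberwise_of_maps_to (t := S) (g := fun n => sm 0 w n)]
    · refine sum_congr rfl fun s hs => ?_
      have hs1 := hSpos s hs
      rw [hS] at hs
      obtain ⟨hsd, hss, hsg⟩ := mem_filter.1 hs
      rw [mul_sum]
      refine sum_bij' (fun n _ => rq w n) (fun m _ => s * m) ?_ ?_ ?_ ?_ ?_
      · intro n hn
        obtain ⟨hn1, hn2⟩ := mem_filter.1 hn
        obtain ⟨hn3, hn4, hn5⟩ := mem_filter.1 hn1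
        have hn0 : n ≠ 0 := by have := (mem_Ioc.1 hn3).1; omega
        have hsp := split_rq (w := w) hn0
        rw [hn2] at hsp
        refine mem_filter.2 ⟨mem_Ioc.2 ⟨Nat.pos_of_ne_zero (rq_ne _ _), ?_⟩, ?_, ?_⟩
        · rw [Nat.le_div_iff_mul_le hs1, mul_comm, hsp]
          exact (mem_Ioc.1 hn3).2
        · apply Nat.eq_of_factorization_eq (sm_ne _ _ _) one_ne_zero
          intro l
          rw [fact_sm0, fact_rq hn0]
          split_ifs
          · omega
          · simp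
          · simp
        · rw [hsp]
          exact hn4
      · intro m hm
        obtain ⟨hm1, hm2, hm3⟩ := mem_filter.1 hm
        have hm0 : m ≠ 0 := by have := (mem_Ioc.1 hm1).1; omega
        have hfm : ∀ l, l ≤ w → m.factorization l = 0 := by
          intro l hl
          have h6 := fact_sm0 w m l
          rw [hm2, if_pos hl] at h6
          simpa using h6.symm
        have hsm : sm 0 w (s * m) = s := by
          apply Nat.eq_of_factorization_eq (sm_ne _ _ _) (by omega)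
          intro l
          rw [fact_sm0, Nat.factorization_mul (by omega) hm0, Finsupp.add_apply]
          split_ifs with hl
          · rw [hfm l hl, add_zero]
          · conv_rhs => rw [← hss]
            rw [fact_sm0, if_neg hl]
        refine mem_filter.2 ⟨mem_filter.2 ⟨mem_Ioc.2 ⟨by positivity, ?_⟩, hm3, ?_⟩, hsm⟩
        · have := (mem_Ioc.1 hm1).2
          rw [Nat.le_div_iff_mul_le hs1, mul_comm] at this
          exact this
        · intro l hl hd
          have hlp := (mPP.1 hl).2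
          have h6 := (hlp.pow_dvd_iff_le_factorization (mul_ne_zero (by omega) hm0)).1 hd
          rw [Nat.factorization_mul (by omega) hm0, Finsupp.add_apply, hfm l (mPP.1 hl).1.2,
            add_zero] at h6
          exact hsg l hl ((hlp.pow_dvd_iff_le_factorization (by omega)).2 h6)
      · intro n hn
        obtain ⟨hn1, hn2⟩ := mem_filter.1 hn
        obtain ⟨hn3, hn4, hn5⟩ := mem_filter.1 hn1
        have hn0 : n ≠ 0 := by have := (mem_Ioc.1 hn3).1; omega
        have hsp := split_rq (w := w) hn0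
        rw [hn2] at hsp
        exact hsp
      · intro m hm
        obtain ⟨hm1, hm2, hm3⟩ := mem_filter.1 hm
        have hm0 : m ≠ 0 := by have := (mem_Ioc.1 hm1).1; omega
        have hfm : ∀ l, l ≤ w → m.factorization l = 0 := by
          intro l hl
          have h6 := fact_sm0 w m l
          rw [hm2, if_pos hl] at h6
          simpa using h6.symm
        apply Nat.eq_of_factorization_eq (rq_ne _ _) hm0
        intro l
        rw [fact_rq (mul_ne_zero (by omega) hm0), Nat.factorization_mul (by omega) hm0,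
          Finsupp.add_apply]
        split_ifs with hl
        · have : s.factorization l = 0 := by
            rw [← hss, fact_sm0, if_neg (by omega)]
          rw [this, zero_add]
        · rw [hfm l (by omega)]
      · intro n hn
        obtain ⟨hn1, hn2⟩ := mem_filter.1 hn
        obtain ⟨hn3, hn4, hn5⟩ := mem_filter.1 hn1
        have hn0 : n ≠ 0 := by have := (mem_Ioc.1 hn3).1; omega
        have hsp := split_rq (w := w) hn0
        have hc := sm_rq_coprime (w := w) hn0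
        conv_lhs => rw [← hsp]
        rw [hg.2.2 _ _ hc, hn2]
    · intro n hn
      obtain ⟨hn3, hn4, hn5⟩ := mem_filter.1 hn
      have hn0 : n ≠ 0 := by have := (mem_Ioc.1 hn3).1; omega
      rw [hS]
      refine mem_filter.2 ⟨?_, ?_, ?_⟩
      · rw [← Pool.Agent.W208.TL.gcd_QQ hn5]
        have := Pool.Agent.W208.TL.QQ_pos w V
        exact Nat.mem_divisors.2 ⟨Nat.gcd_dvd_right _ _, by omega⟩
      · apply Nat.eq_of_factorization_eq (sm_ne _ _ _) (sm_ne _ _ _)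
        intro l
        rw [fact_sm0, fact_sm0]
        split_ifs <;> rfl
      · intro l hl hd
        have : sm 0 w n ∣ n := Dvd.intro _ (split_rq (w := w) hn0)
        exact hn5 l hl (hd.trans this)
  dsimp only at h2 ⊢
  rw [h3, h5]
  refine (norm_add_le _ _).trans ?_
  linarith

/-- non-pretentious functions have mean zero in every residue class -/
theorem ap_zero {f : ℕ → ℂ} (hf : Mul1 f) (hnp : NPT f) (T : ℝ) {Q : ℕ} (hQ : 1 ≤ Q) (r : ℕ) :
    Sml (fun N => ∑ n ∈ (Ioc 0 N).filter (fun n => n ≡ r [MOD Q]), f n * nit T n) :=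
  gen_class (Pool.Agent.W690.TL.mul1_nit hf T) (fun _ hq χ => np_mean hf hnp hq χ T) hQ r

end Pool.Agent.K9h46
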