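import Pool.Agent.W208.TL.St
import Pool.Agent.W208.TL.All

/-!
The structure theorem of project TL (helper208), with the form of the modulus. The proof is a copy
of `Pool.Agent.W208.TL.st` (starting files).
-/

set_option autoImplicit false

namespace Pool.Agent.K9h46

open Finset Pool.Agent.W208.TL

/-- the structure theorem, with the form of the modulus -/
theorem st' (hK : KAT) (hC : CLAIM) : ∀ (k : ℕ) (a : Fin k → ℤ), 1 ≤ k → Function.Injective a →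
  (∀ j, a j ≠ 0) → ∀ Q0 : ℕ, 1 ≤ Q0 → ∀ ε : ℝ, 0 < ε → ∃ w V K1 K y0 : ℕ, Q0 ∣ QQ w V ∧ 2 ≤ w ∧
  1 ≤ K1 ∧ 1 ≤ K ∧ ∀ y X : ℕ, y0 ≤ y → y ^ K ≤ X → 
    |∑ d ∈ Icc 1 (y ^ K1), mu w y d - 1| ≤ ε ∧
    ∀ Φ : (Fin k → ℕ) → ℂ, (∀ d, ‖Φ d‖ ≤ 1) → ∀ f : ℕ → ℂ, KF f →
    ∀ ρ : ℕ → ℂ, (∀ n, ‖ρ n‖ ≤ 1) → (∀ n, ρ (n + Q0) = ρ n) →
      ‖∑ n ∈ Ioc 0 X, f n * (ρ n * (Φ (fun j => sm 0 y (lf 1 (a j) n)) -
        cav w y (y ^ K1) Φ (fun j => Nat.gcd (lf 1 (a j) n) (QQ w V))))‖ ≤ ε * X := by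
  intro k a hk ha ha0 Q0 hQ0 ε hε
  obtain ⟨B, hBdef⟩ : ∃ B : ℕ, B = ∑ j, (a j).natAbs := ⟨_, rfl⟩
  have hB : ∀ j, (a j).natAbs ≤ B := by
    intro j
    rw [hBdef]
    exact single_le_sum (f := fun j => (a j).natAbs) (fun _ _ => Nat.zero_le _) (mem_univ j)
  obtain ⟨P, hP, δ, hδ0, hδ1, N0, hKat⟩ := hK (ε / 2) B (by linarith)
  obtain ⟨S, hSdef⟩ : ∃ S : ℕ, S = ∑ p ∈ P, p := ⟨_, rfl⟩
  have hS : ∀ p ∈ P, p ≤ S := by
    intro p hp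
    rw [hSdef]
    exact single_le_sum (f := fun p => p) (fun _ _ => Nat.zero_le _) hp
  obtain ⟨ε1, hε1, h1δ, h1ε, h1h⟩ : ∃ ε1 : ℝ, 0 < ε1 ∧ ε1 ≤ δ / 3 ∧ ε1 ≤ ε / 3 ∧ ε1 ≤ 1 / 2 := by
    refine ⟨min (min (δ / 3) (ε / 3)) (1 / 2), ?_, ?_, ?_, ?_⟩
    · exact lt_min (lt_min (by linarith) (by linarith)) (by norm_num)
    · exact (min_le_left _ _).trans (min_le_left _ _)
    · exact (min_le_left _ _).trans (min_le_right _ _)
    · exact min_le_right _ _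
  obtain ⟨K1, K2, w0, hK1, hK2, hcl⟩ := hC (k + k) (by omega) ε1 hε1
  obtain ⟨w, hwdef⟩ : ∃ w : ℕ, w = w0 + (k + k) + Q0 + (2 * S * B + S) := ⟨_, rfl⟩
  obtain ⟨V0, hV0⟩ := pow_unbounded_of_one_lt (2 * (k : ℝ) * w / ε1) (by norm_num : (1 : ℝ) < 2)
  obtain ⟨V, hVdef⟩ : ∃ V : ℕ, V = V0 + Q0 := ⟨_, rfl⟩
  have hV1 : 1 ≤ V := by omega
  have hVw : 2 * (k : ℝ) * w ≤ ε1 * 2 ^ V := by
    rw [div_lt_iff₀ hε1] at hV0
    have h1 : (2 : ℝ) ^ V0 ≤ 2 ^ V := pow_le_pow_right₀ (by norm_num) (by omega)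
    have h2 := mul_le_mul_of_nonneg_right h1 hε1.le
    linarith
  have hQ0d : Q0 ∣ QQ w V := Q0_dvd hQ0 (by omega) (by omega)
  obtain ⟨y1, hy1⟩ := hcl w (QQ w V) (by omega) (QQ_pos w V)
    (fun l hl hd => (mem_PP.1 (QQ_primes hl hd)).1.2)
  obtain ⟨y3, hy3⟩ := exists_nat_gt (1 / δ)
  refine ⟨w, V, K1, K2 + 1, y1 + y3 + w + N0 + QQ w V + 2, hQ0d, by omega, hK1,
    by omega, ?_⟩
  intro y X hy hX
  have hy0 : 1 ≤ y := by omega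
  have hyK2 : y ≤ y ^ K2 := Nat.le_self_pow (by omega) y
  have hX2 : y ^ K2 ≤ X := (Nat.pow_le_pow_right hy0 (Nat.le_succ K2)).trans hX
  have hyX : y ≤ X := hyK2.trans hX2
  have hX0 : 0 < X := by omega
  have hXr : (0 : ℝ) < X := by exact_mod_cast hX0
  have hδy : 1 ≤ δ * y := by
    have h1 : (y3 : ℝ) ≤ y := by exact_mod_cast (by omega : y3 ≤ y)
    rw [div_lt_iff₀ hδ0] at hy3
    nlinarith
  obtain ⟨hs1, hcl1⟩ := hy1 y (by omega)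
  obtain ⟨s, hsdef⟩ : ∃ s : ℝ, s = ∑ d ∈ Icc 1 (y ^ K1), mu w y d := ⟨_, rfl⟩
  have hsC : ∑ d ∈ Icc 1 (y ^ K1), (mu w y d : ℂ) = (s : ℂ) := by
    rw [hsdef]
    push_cast
    rfl
  rw [← hsdef] at hs1
  have hs2 := abs_le.1 hs1
  have hs0 : 0 < s := by linarith [hs2.1]
  have hsne : ∑ d ∈ Icc 1 (y ^ K1), (mu w y d : ℂ) ≠ 0 := by
    rw [hsC]
    exact_mod_cast hs0.ne'
  have hwy : w ≤ y := by omega
  refine ⟨?_, ?_⟩
  · rw [← hsdef]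
    linarith
  · -- the main statement
    intro Φ hΦ f hf ρ hρ hper
    have hmain := hKat X (by omega) (FF w y (y ^ K1) (QQ w V) a Φ ρ)
      (fun n => FF_norm hΦ hρ n) ?_ f hf
    · have e : ∑ n ∈ Ioc 0 X, f n * (ρ n * (Φ (fun j => sm 0 y (lf 1 (a j) n)) -
          cav w y (y ^ K1) Φ (fun j => Nat.gcd (lf 1 (a j) n) (QQ w V)))) =
          2 * ∑ n ∈ Ioc 0 X, f n * FF w y (y ^ K1) (QQ w V) a Φ ρ n := by
        rw [mul_sum]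
        apply sum_congr rfl
        intro n _
        unfold FF
        ring
      rw [e, norm_mul]
      have : ‖(2 : ℂ)‖ = 2 := by norm_num
      rw [this]
      linarith
    · intro p hp q hq hpq M hM1 hM2
      have hMr : ((y ^ K2 : ℕ) : ℝ) ≤ M := by
        have h1 : ((y ^ (K2 + 1) : ℕ) : ℝ) ≤ X := by exact_mod_cast hX
        push_cast at h1 ⊢
        rw [pow_succ] at h1
        have h2 : (0 : ℝ) ≤ (y : ℝ) ^ K2 := by positivity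
        have h3 := mul_le_mul_of_nonneg_left h1 hδ0.le
        have h4 := mul_le_mul_of_nonneg_right hδy h2
        nlinarith
      have hMn : y ^ K2 ≤ M := by exact_mod_cast hMr
      have hpd : ∀ r ∈ P, ∀ j, ¬ (r : ℤ) ∣ a j := by
        intro r hr j
        exact not_dvd_small (hP r hr).2 (ha0 j) (hB j)
      have hI := indep_pq ha ha0 hB (hP p hp).1 (hP q hq).1 (hP p hp).2 (hP q hq).2 hpq
        (hS p hp) (hS q hq) (by omega : 2 * S * B + S ≤ w)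
      have hpair := pair (a := a) (w := w) (V := V) (Q0 := Q0) (p := p) (q := q) (Z := y ^ K1)
        (M := M) (y := y) (ε1 := ε1) hε1.le hQ0d hV1 (hP p hp).1 (hP q hq).1 (hpd p hp)
        (hpd q hq) hVw (fun b Ψ hΨ => hcl1 _ _ hI b M hMn Ψ hΨ) hsne hwy (by omega) hΦ hρ hper
      refine hpair.trans ?_
      have h1 : (M : ℝ) ≤ X := by exact_mod_cast hM2
      have h2 : 3 * ε1 ≤ δ := by linarith
      exact mul_le_mul h2 h1 (Nat.cast_nonneg _) hδ0.le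

end Pool.Agent.K9h46
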