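import Pool.Agent.K9h46.Nr3
import Pool.Agent.K9h46.StP
import Pool.Agent.K9h46.Apz
import Pool.Agent.W699.TLKat

/-!
One arbitrary multiplicative function against tame ones.
-/

set_option autoImplicit false

namespace Pool.Agent.K9h46

open Finset Filter
open Pool.Agent.W208.TL (PP sm mu Mul1 nit QQ NEAR lf cav Tame KF)

lemma mul_mu_coprime {w y V A d : ℕ} (hA : A ∣ QQ w V) (hd : sm w y d = d) : Nat.Coprime A d := by
  rw [Nat.coprime_iff_gcd_eq_one]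
  by_contra h1
  obtain ⟨p, hp, hd'⟩ := Nat.exists_prime_and_dvd h1
  have h2 := Nat.dvd_gcd_iff.1 hd'
  have h3 := Pool.Agent.W208.TL.QQ_primes hp (h2.1.trans hA)
  have h4 := (mPP.1 h3).1.2
  have h5 := Pool.Agent.W479.TLClaim.prime_of_sm hd hp h2.2
  have h6 := (mPP.1 h5).1.1
  omega

/-- the averages over the product law of a product with one non-pretentious factor -/
lemma cav_small {k : ℕ} (U : Fin k → ℕ → ℂ) (hU : ∀ j, Mul1 (U j)) {w y Z V : ℕ} (hw : 1 ≤ w)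
    (j0 : Fin k) (ε1 : ℝ) (h1 : |∑ d ∈ Icc 1 Z, mu w y d - 1| ≤ ε1) (he : ε1 ≤ 1 / 2)
    (hS : Real.exp (8 - ∑ l ∈ PP w y, (1 - (U j0 l).re) / l) ≤ ε1)
    (A : Fin k → ℕ) (hA : ∀ j, A j ∣ QQ w V) :
    ‖cav w y Z (fun d => ∏ j, U j (d j)) A‖ ≤ 4 * ε1 := by
  classical
  obtain ⟨s, hs⟩ : ∃ s : ℝ, s = ∑ d ∈ Icc 1 Z, mu w y d := ⟨_, rfl⟩
  have hs1 : 1 / 2 ≤ s := by
    have := (abs_le.1 h1).1
    rw [← hs] at this
    linarith
  have hsC : ∑ d ∈ Icc 1 Z, (mu w y d : ℂ) = (s : ℂ) := by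
    rw [hs]
    push_cast
    rfl
  have hnum : ∑ d ∈ Pool.Agent.W208.TL.box k Z, (fun d : Fin k → ℕ => ∏ j, U j (d j)) (fun j => A j * d j) *
      ∏ j, (mu w y (d j) : ℂ) = ∏ j, ∑ d ∈ Icc 1 Z, U j (A j * d) * (mu w y d : ℂ) := by
    unfold Pool.Agent.W208.TL.box
    rw [prod_univ_sum]
    refine sum_congr rfl fun d _ => ?_
    rw [prod_mul_distrib]
  have hfac : ∀ j, ∑ d ∈ Icc 1 Z, U j (A j * d) * (mu w y d : ℂ) =
      U j (A j) * ∑ d ∈ Icc 1 Z, U j d * (mu w y d : ℂ) := by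
    intro j
    rw [mul_sum]
    refine sum_congr rfl fun d _ => ?_
    by_cases hd : sm w y d = d
    · rw [(hU j).2.2 _ _ (mul_mu_coprime (hA j) hd)]
      ring
    · have : mu w y d = 0 := by
        unfold mu
        rw [if_neg hd]
      rw [this]
      simp
  have hle : ∀ j, ‖∑ d ∈ Icc 1 Z, U j (A j * d) * (mu w y d : ℂ)‖ ≤ s := by
    intro j
    refine (norm_sum_le _ _).trans ?_
    rw [hs]
    refine sum_le_sum fun d _ => ?_
    rw [norm_mul, Complex.norm_real,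
      Real.norm_of_nonneg (Pool.Agent.W479.TLClaim.mu_nonneg w y d)]
    exact mul_le_of_le_one_left (Pool.Agent.W479.TLClaim.mu_nonneg w y d) ((hU j).1 _)
  have hle0 : ‖∑ d ∈ Icc 1 Z, U j0 (A j0 * d) * (mu w y d : ℂ)‖ ≤ 2 * ε1 := by
    rw [hfac j0, norm_mul]
    refine (mul_le_of_le_one_left (norm_nonneg _) ((hU j0).1 _)).trans ?_
    refine (mean_bound (U j0) (hU j0) hw y Z).trans ?_
    linarith
  unfold cav
  rw [hnum, hsC, norm_div, norm_pow, Complex.norm_real, Real.norm_of_nonneg (by linarith), norm_prod,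
    ← mul_prod_erase univ _ (mem_univ j0)]
  have hprod : ∏ j ∈ univ.erase j0, ‖∑ d ∈ Icc 1 Z, U j (A j * d) * (mu w y d : ℂ)‖ ≤
      s ^ (k - 1) := by
    refine (prod_le_prod (fun _ _ => norm_nonneg _) fun j _ => hle j).trans (le_of_eq ?_)
    rw [prod_const, card_erase_of_mem (mem_univ j0), card_univ, Fintype.card_fin]
  have hk : 1 ≤ k := by
    rcases Nat.eq_zero_or_pos k with h0 | h0
    · subst h0
      exact j0.elim0
    · exact h0
  have hsk : s ^ k = s * s ^ (k - 1) := by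
    rw [← pow_succ', Nat.sub_add_cancel hk]
  have hs0 : 0 < s := by linarith
  have hε0 : 0 ≤ ε1 := (abs_nonneg _).trans h1
  rw [div_le_iff₀ (by positivity), hsk]
  calc _ ≤ (2 * ε1) * s ^ (k - 1) := mul_le_mul hle0 hprod
        (prod_nonneg fun _ _ => norm_nonneg _) (by linarith)
    _ ≤ 4 * ε1 * (s * s ^ (k - 1)) := by
        have h3 : 0 ≤ s ^ (k - 1) := by positivity
        have h4 : 2 * ε1 ≤ 4 * ε1 * s := by nlinarith
        calc 2 * ε1 * s ^ (k - 1) ≤ 4 * ε1 * s * s ^ (k - 1) := mul_le_mul_of_nonneg_right h4 h3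
          _ = _ := by ring

/-- `uu` at the rough part agrees with `uu` at the large primes -/
lemma U_prime {q : ℕ} {f : ℕ → ℂ} (χ : DirichletCharacter ℂ q) (τ : ℝ) {w p : ℕ}
    (hp : p.Prime) (hwp : w < p) : uu f χ τ (rq w p) = uu f χ τ p := by
  rw [rq_prime hp hwp]

/-- the main theorem -/
theorem abt_core (k : ℕ) (hk : 1 ≤ k) (h0 : ℕ) (h : Fin k → ℕ) (hinj : Function.Injective h)
    (hne : ∀ j, h j ≠ h0) (g : Fin k → ℕ → ℂ) (hg : ∀ j, Mul1 (g j))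
    (q : Fin k → ℕ) (hq : ∀ j, 1 ≤ q j) (χ : ∀ j, DirichletCharacter ℂ (q j)) (t : Fin k → ℝ)
    (htame : ∀ j, Tame (uu (g j) (χ j) (t j)))
    (FF : (ℕ → ℂ) → Prop) (hFF : ∀ f, FF f → (∀ n, ‖f n‖ ≤ 1) ∧
      KF (fun n => f n * nit (∑ j, t j) n))
    (hnp : (∃ j, Tendsto (fun y => ∑ p ∈ PP 0 y, (1 - (uu (g j) (χ j) (t j) p).re) / p)
      atTop atTop) ∨ (∀ Q r : ℕ, 1 ≤ Q → ∀ ε : ℝ, 0 < ε → ∃ X₀ : ℕ, ∀ X : ℕ, X₀ ≤ X → ∀ f, FF f →
        ‖∑ n ∈ (Ioc 0 X).filter (fun n => n ≡ r [MOD Q]), f n * nit (∑ j, t j) n‖ ≤ ε * X))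
    (ε : ℝ) (hε : 0 < ε) :
    ∃ X₀ : ℕ, ∀ X : ℕ, X₀ ≤ X → ∀ f, FF f →
      ‖∑ n ∈ Ioc 0 X, f (n + h0) * ∏ j, g j (n + h j)‖ ≤ ε * X := by
  classical
  have hk' : (0 : ℝ) < k := by exact_mod_cast hk
  obtain ⟨a, ha⟩ : ∃ a : Fin k → ℤ, a = fun j => (h j : ℤ) - h0 := ⟨_, rfl⟩
  have hainj : Function.Injective a := by
    intro i j hij
    simp only [ha] at hij
    exact hinj (by omega)
  have hane : ∀ j, a j ≠ 0 := by
    intro j hj
    simp only [ha] at hj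
    exact hne j (by omega)
  obtain ⟨ε1, hε1⟩ : ∃ ε1 : ℝ, ε1 = min (ε / 40) (1 / 2) := ⟨_, rfl⟩
  have hε1pos : 0 < ε1 := by rw [hε1]; exact lt_min (by positivity) (by norm_num)
  have hε1a : ε1 ≤ ε / 40 := by rw [hε1]; exact min_le_left _ _
  have hε1b : ε1 ≤ 1 / 2 := by rw [hε1]; exact min_le_right _ _
  -- the small primes
  obtain ⟨w1, hw1⟩ : ∃ w1 : ℕ, w1 = 2 + ∑ j, q j := ⟨_, rfl⟩
  have hw12 : 2 ≤ w1 := by omega
  have hqw : ∀ j, q j ≤ w1 := fun j => by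
    have := single_le_sum (f := q) (fun _ _ => Nat.zero_le _) (mem_univ j)
    omega
  obtain ⟨V1, hV1⟩ : ∃ V : ℕ, (w1 : ℝ) / 2 ^ V ≤ ε / (40 * k) := by
    obtain ⟨V, hV⟩ := pow_unbounded_of_one_lt (w1 / (ε / (40 * k))) (by norm_num : (1 : ℝ) < 2)
    refine ⟨V, ?_⟩
    rw [div_lt_iff₀ (by positivity)] at hV
    rw [div_le_iff₀ (by positivity)]
    linarith
  obtain ⟨Q0, hQ0⟩ : ∃ Q0 : ℕ, Q0 = (∏ j, q j) * QQ w1 V1 := ⟨_, rfl⟩
  have hQ0pos : 1 ≤ Q0 := by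
    rw [hQ0]
    exact Nat.mul_pos (Nat.pos_of_ne_zero (prod_ne_zero_iff.2 fun j _ => by
      have := hq j; omega)) (Pool.Agent.W208.TL.QQ_pos w1 V1)
  have hQ0d : ∀ j, q j * QQ w1 V1 ∣ Q0 := fun j => by
    rw [hQ0]
    exact Nat.mul_dvd_mul_right (dvd_prod_of_mem _ (mem_univ j)) _
  obtain ⟨w, V, K1, K, y0, hQd, hw2, hK1, hK, hST'⟩ :=
    st' Pool.Agent.W699.TLKat.kat claim_all k a hk hainj hane Q0 hQ0pos ε1 hε1pos
  obtain ⟨Q, hQdef⟩ : ∃ Q : ℕ, Q = QQ w V := ⟨_, rfl⟩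
  have hQ1 : 1 ≤ Q := by rw [hQdef]; exact Pool.Agent.W208.TL.QQ_pos w V
  have hQ1r : (0 : ℝ) < Q := by exact_mod_cast hQ1
  obtain ⟨δ, hδ, y1, hN⟩ := Pool.Agent.W290.TL.near (2 * K + 1) (ε / (40 * k)) (by omega)
    (by positivity)
  -- the bound on the shifts
  obtain ⟨H, hH⟩ : ∃ H : ℕ, H = h0 + ∑ j, h j := ⟨_, rfl⟩
  have hH0 : h0 ≤ H := by omega
  have hHj : ∀ j, h j ≤ H := fun j => by
    have := single_le_sum (f := h) (fun _ _ => Nat.zero_le _) (mem_univ j)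
    omega
  obtain ⟨B, hB⟩ : ∃ B : ℕ, ∀ j, |t j| ≤ B := by
    obtain ⟨B, hB⟩ := exists_nat_ge (∑ j, |t j|)
    exact ⟨B, fun j => (single_le_sum (f := fun j => |t j|) (fun _ _ => abs_nonneg _)
      (mem_univ j)).trans hB⟩
  -- the functions
  obtain ⟨U, hU⟩ : ∃ U : Fin k → ℕ → ℂ, U = fun j n => uu (g j) (χ j) (t j) (rq w1 n) := ⟨_, rfl⟩
  have hUm : ∀ j, Mul1 (U j) := fun j => by
    rw [hU]
    exact U_mul1 (uu_mul1 (hg j) (χ j) (t j)) w1
  have hUp : ∀ j p, p.Prime → w1 < p → U j p = uu (g j) (χ j) (t j) p := fun j p hp hwp => by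
    rw [hU]
    exact U_prime (χ j) (t j) hp hwp
  obtain ⟨T, hT⟩ : ∃ T : ℝ, T = ∑ j, t j := ⟨_, rfl⟩
  rw [← hT] at hFF hnp
  obtain ⟨P, hP⟩ : ∃ P : Fin k → ℕ → ℂ, P = fun j => AT (g j) (χ j) (t j) w1 V1 := ⟨_, rfl⟩
  have hP1 : ∀ j n, ‖P j n‖ ≤ 1 := fun j n => by rw [hP]; exact norm_AT (hg j) _ _ _ _ _
  have hPper : ∀ j N n, Q0 ∣ N → P j (n + N) = P j n := by
    intro j N n hN
    obtain ⟨c, hc⟩ := (hQ0d j).trans hN
    rw [hP, hc]
    have hper : Function.Periodic (AT (g j) (χ j) (t j) w1 V1) (q j * QQ w1 V1) :=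
      fun m => AT_per (χ j) (t j) hw12 m
    have := hper.nat_mul c
    rw [mul_comm]
    exact this n
  obtain ⟨ρ, hρ⟩ : ∃ ρ : ℕ → ℂ, ρ = fun n => ∏ j, P j (n + (h j + h0 * (Q0 - 1))) := ⟨_, rfl⟩
  have hρ1 : ∀ n, ‖ρ n‖ ≤ 1 := by
    intro n
    rw [hρ, norm_prod]
    exact prod_le_one (fun _ _ => norm_nonneg _) fun j _ => hP1 _ _
  have hρper : ∀ N : ℕ, Q0 ∣ N → ∀ n, ρ (n + N) = ρ n := by
    intro N hN n
    rw [hρ]
    dsimp only
    refine prod_congr rfl fun j _ => ?_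
    rw [add_right_comm, hPper j N _ hN]
  have hρval : ∀ n, ρ (n + h0) = ∏ j, P j (n + h j) := by
    intro n
    rw [hρ]
    dsimp only
    refine prod_congr rfl fun j _ => ?_
    have e : n + h0 + (h j + h0 * (Q0 - 1)) = n + h j + h0 * Q0 := by
      obtain ⟨c, rfl⟩ : ∃ c, Q0 = c + 1 := ⟨Q0 - 1, by omega⟩
      rw [Nat.add_sub_cancel]
      ring
    rw [e, hPper j _ _ (Dvd.intro_left _ rfl)]
  obtain ⟨Φ, hΦ⟩ : ∃ Φ : (Fin k → ℕ) → ℂ, Φ = fun d => ∏ j, U j (d j) := ⟨_, rfl⟩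
  have hΦ1 : ∀ d, ‖Φ d‖ ≤ 1 := by
    intro d
    rw [hΦ, norm_prod]
    exact prod_le_one (fun _ _ => norm_nonneg _) fun j _ => (hUm j).1 _
  -- the main term
  have hmain : ∃ y2 X2 : ℕ, ∀ y X : ℕ, y2 ≤ y → X2 ≤ X →
      |∑ d ∈ Icc 1 (y ^ K1), mu w y d - 1| ≤ ε1 → ∀ f, FF f →
      ‖∑ n ∈ Ioc 0 X, (f n * nit T n) *
        (ρ n * cav w y (y ^ K1) Φ (fun j => Nat.gcd (lf 1 (a j) n) Q))‖ ≤ ε / 10 * X := by
    rcases hnp with ⟨j0, hj0⟩ | hnpf
    · obtain ⟨W, hW⟩ : ∃ W : ℕ, W = max w w1 := ⟨_, rfl⟩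
      obtain ⟨y2, hy2⟩ := eventually_atTop.1 (tendsto_atTop.1 hj0 (W + 8 - Real.log ε1))
      refine ⟨max y2 W, 0, fun y X hy _ hmu f hf => ?_⟩
      have hyW : W ≤ y := (le_max_right _ _).trans hy
      have h1 := hy2 y ((le_max_left _ _).trans hy)
      have huu := uu_mul1 (hg j0) (χ j0) (t j0)
      have h2 : ∑ p ∈ PP 0 y, (1 - (uu (g j0) (χ j0) (t j0) p).re) / (p : ℝ) ≤
          W + ∑ p ∈ PP w y, (1 - (U j0 p).re) / (p : ℝ) := by
        have h3 : PP 0 y = PP 0 W ∪ PP W y := by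
          ext p
          simp only [mem_union, mPP]
          constructor
          · rintro ⟨⟨h4, h5⟩, h6⟩
            rcases Nat.lt_or_ge W p with h7 | h7
            · exact Or.inr ⟨⟨h7, h5⟩, h6⟩
            · exact Or.inl ⟨⟨h4, h7⟩, h6⟩
          · rintro (⟨⟨h4, h5⟩, h6⟩ | ⟨⟨h4, h5⟩, h6⟩)
            · exact ⟨⟨h4, h5.trans hyW⟩, h6⟩
            · exact ⟨⟨by omega, h5⟩, h6⟩
        have h4 : Disjoint (PP 0 W) (PP W y) := by
          rw [disjoint_left]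
          intro p hp hp'
          have := (mPP.1 hp).1.2
          have := (mPP.1 hp').1.1
          omega
        rw [h3, sum_union h4]
        refine add_le_add (PP_small huu W) ?_
        have h5 : ∑ p ∈ PP W y, (1 - (uu (g j0) (χ j0) (t j0) p).re) / (p : ℝ) =
            ∑ p ∈ PP W y, (1 - (U j0 p).re) / (p : ℝ) := by
          refine sum_congr rfl fun p hp => ?_
          have h6 := mPP.1 hp
          rw [hUp j0 p h6.2 (by omega)]
        rw [h5]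
        exact PP_mono_sum (hUm j0) (by omega) le_rfl
      have h3 : Real.exp (8 - ∑ l ∈ PP w y, (1 - (U j0 l).re) / l) ≤ ε1 := by
        rw [← Real.le_log_iff_exp_le hε1pos]
        linarith
      have h4 : ∀ n, ‖(f n * nit T n) *
          (ρ n * cav w y (y ^ K1) Φ (fun j => Nat.gcd (lf 1 (a j) n) Q))‖ ≤ ε / 10 := by
        intro n
        rw [norm_mul, norm_mul (ρ n)]
        have h5 := cav_small (V := V) U hUm (by omega : 1 ≤ w) j0 ε1 hmu hε1b h3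
          (fun j => Nat.gcd (lf 1 (a j) n) Q) (fun j => by rw [← hQdef]; exact Nat.gcd_dvd_right _ _)
        rw [← hΦ] at h5
        have h6 : ‖ρ n‖ * ‖cav w y (y ^ K1) Φ (fun j => Nat.gcd (lf 1 (a j) n) Q)‖ ≤ 4 * ε1 :=
          (mul_le_of_le_one_left (norm_nonneg _) (hρ1 n)).trans h5
        refine (mul_le_of_le_one_left (by positivity) ((hFF f hf).2.1 n)).trans ?_
        linarith
      refine (norm_sum_le _ _).trans ((sum_le_card_nsmul _ _ (ε / 10) fun n _ => h4 n).trans ?_)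
      rw [Nat.card_Ioc, nsmul_eq_mul, Nat.sub_zero, mul_comm]
    · have h1 : ∀ r : ℕ, ∃ X2 : ℕ, ∀ X : ℕ, X2 ≤ X → ∀ f, FF f →
          ‖∑ n ∈ (Ioc 0 X).filter (fun n => n ≡ r [MOD Q]), f n * nit T n‖ ≤
            ε / (10 * Q) * X := fun r => hnpf Q r hQ1 (ε / (10 * Q)) (by positivity)
      choose X2 hX2 using h1
      refine ⟨0, ∑ r ∈ range Q, X2 r, fun y X _ hX _ f hf => ?_⟩
      have h2 : ∀ r : ℕ, ‖∑ n ∈ (Ioc 0 X).filter (fun n => n ≡ r [MOD Q]), f n * nit T n‖ ≤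
          ε / (10 * Q) * X := by
        intro r
        have h3 : (Ioc 0 X).filter (fun n => n ≡ r [MOD Q]) =
            (Ioc 0 X).filter (fun n => n ≡ r % Q [MOD Q]) := by
          refine filter_congr fun n _ => ?_
          simp [Nat.ModEq]
        rw [h3]
        refine hX2 (r % Q) X (le_trans ?_ hX) f hf
        exact single_le_sum (f := X2) (fun _ _ => Nat.zero_le _)
          (mem_range.2 (Nat.mod_lt _ hQ1))
      have h3 := Pool.Agent.W690.TL.class_sum (fun n => f n * nit T n)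
        (fun n => ρ n * cav w y (y ^ K1) Φ (fun j => Nat.gcd (lf 1 (a j) n) Q)) Q X hQ1
        (fun n => by
          rw [hρper Q (by rw [hQdef]; exact hQd) n]
          simp only [Pool.Agent.W690.TL.gcd_per])
        (fun n => by
          rw [norm_mul]
          exact mul_le_one₀ (hρ1 n) (norm_nonneg _)
            (Pool.Agent.W690.TL.norm_cav_le _ _ _ _ hΦ1 _)) (ε / (10 * Q) * X) h2
      refine h3.trans (le_of_eq ?_)
      field_simp
  obtain ⟨y2, X2, hmain⟩ := hmain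
  -- tame
  have htame' : ∃ X3 : ℕ, ∀ X : ℕ, X3 ≤ X → ∀ j, ∑ p ∈ (Icc 1 X).filter
      (fun p => p.Prime ∧ X < p ^ K), (1 - (uu (g j) (χ j) (t j) p).re) / p ≤ δ / 2 := by
    have h1 : ∀ j, ∃ X3 : ℕ, ∀ X : ℕ, X3 ≤ X → ∑ p ∈ (Icc 1 X).filter
      (fun p => p.Prime ∧ X < p ^ K), (1 - (uu (g j) (χ j) (t j) p).re) / p ≤ δ / 2 := by
      intro j
      obtain ⟨X3, hX3⟩ := eventually_atTop.1
        ((htame j K hK).eventually_le_const (by positivity : (0 : ℝ) < δ / 2))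
      exact ⟨X3, hX3⟩
    choose X3 hX3 using h1
    refine ⟨∑ j, X3 j, fun X hX j => hX3 j X (le_trans ?_ hX)⟩
    exact single_le_sum (f := X3) (fun _ _ => Nat.zero_le _) (mem_univ j)
  obtain ⟨X3, hX3⟩ := htame'
  obtain ⟨X0, hX0⟩ := Pool.Agent.W690.TL.eventually_cond (ε / 10)
    (max (4 * H / δ) (2 * h0 / (ε / 10))) (k * (B * H)) (by positivity)
    (max (max (max 1 H) ((y0 + y1 + y2 + w1 + 2 + H) ^ K)) (X2 + X3))
  refine ⟨X0, fun X hX f hf => ?_⟩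
  obtain ⟨hf1, hFK⟩ := hFF f hf
  obtain ⟨F, hF⟩ : ∃ F : ℕ → ℂ, F = fun n => f n * nit T n := ⟨_, rfl⟩
  rw [← hF] at hFK
  obtain ⟨c1, c2, c3⟩ := hX0 X hX
  have c1' : max (max 1 H) ((y0 + y1 + y2 + w1 + 2 + H) ^ K) ≤ X := (le_max_left _ _).trans c1
  have cX : X2 + X3 ≤ X := (le_max_right _ _).trans c1
  have hX1 : 1 ≤ X := ((le_max_left _ _).trans (le_max_left _ _)).trans c1'
  have hXH : H ≤ X := ((le_max_right _ _).trans (le_max_left _ _)).trans c1'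
  have hXY : (y0 + y1 + y2 + w1 + 2 + H) ^ K ≤ X := (le_max_right _ _).trans c1'
  have hXr : (1 : ℝ) ≤ X := by exact_mod_cast hX1
  have hXHr : (H : ℝ) ≤ X := by exact_mod_cast hXH
  have hXpos : (0 : ℝ) < X := by linarith
  have hXδ : 4 * H / δ ≤ X := (le_max_left _ _).trans c2
  have hXh0 : 2 * h0 / (ε / 10) ≤ X := (le_max_right _ _).trans c2
  obtain ⟨y, hy0, hyX, hyX'⟩ := Pool.Agent.W690.TL.exists_root hK hXY
  -- X + H ≤ y ^ (2 K + 1)
  have hy2' : 2 ≤ y := by omega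
  have hXK : X ≤ y ^ (2 * K) := by
    calc X ≤ (y + 1) ^ K := hyX'.le
      _ ≤ (y ^ 2) ^ K := Nat.pow_le_pow_left (by nlinarith) _
      _ = y ^ (2 * K) := by rw [← pow_mul]
  have hXHK : X + H ≤ y ^ (2 * K + 1) := by
    have hyH : H ≤ y := by omega
    have e1 : H ≤ y ^ (2 * K) := hyH.trans (Nat.le_self_pow (by omega) y)
    calc X + H ≤ y ^ (2 * K) + y ^ (2 * K) := add_le_add hXK e1
      _ = y ^ (2 * K) * 2 := by ring
      _ ≤ y ^ (2 * K) * y := Nat.mul_le_mul_left _ hy2'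
      _ = y ^ (2 * K + 1) := by rw [pow_succ]
  have hyleX : y ≤ X := (Nat.le_self_pow (by omega) y).trans hyX
  -- the approximation
  obtain ⟨E, hE⟩ : ∃ E : Fin k → ℕ → ℝ, E = fun j n =>
    ‖g j n - P j n * nit (t j) n * uu (g j) (χ j) (t j) (sm w1 y n)‖ := ⟨_, rfl⟩
  have happ : ∀ j, ∑ n ∈ Ioc 0 X, E j (n + h j) ≤ ε / (20 * k) * (2 * X) := by
    intro j
    have huu := uu_mul1 (hg j) (χ j) (t j)
    have hp := Pool.Agent.W690.TL.primes_step huu (H := H) hX1 hyX' le_rfl (hX3 X (by omega) j)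
    have hp' : ∑ p ∈ PP y (X + H), (1 - (U j p).re) / p ≤ δ := by
      have e0 : ∑ p ∈ PP y (X + H), (1 - (U j p).re) / (p : ℝ) =
          ∑ p ∈ PP y (X + H), (1 - (uu (g j) (χ j) (t j) p).re) / (p : ℝ) := by
        refine sum_congr rfl fun p hp => ?_
        have h6 := mPP.1 hp
        rw [hUp j p h6.2 (by omega)]
      rw [e0]
      refine hp.trans ?_
      have e2 : (2 : ℝ) * H / X ≤ δ / 2 := by
        rw [div_le_iff₀ hXpos]
        rw [div_le_iff₀ hδ] at hXδ; linarith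
      linarith
    have hn := hN y (X + H) (by omega) (by omega) hXHK (U j) (hUm j) hp'
    rw [hU] at hn
    have h1 := approx (V := V1) (hg j) (χ j) (t j) (hq j) (hqw j) (ε / (40 * k)) hn
    have h2 := Pool.Agent.W690.TL.sum_shift_le (E j) (fun n => by rw [hE]; exact norm_nonneg _)
      (X := X) (hHj j)
    refine h2.trans ?_
    rw [hE, hP]
    refine h1.trans ?_
    push_cast
    have h3 : (X : ℝ) + H ≤ 2 * X := by linarith
    have h4 : ε / (40 * k) + (w1 : ℝ) / 2 ^ V1 ≤ ε / (20 * k) := by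
      refine (add_le_add_right hV1 _).trans (le_of_eq ?_)
      field_simp
      ring
    exact mul_le_mul h4 h3 (by positivity) (by positivity)
  obtain ⟨hmu, hST3⟩ := hST' y X (by omega) hyX
  have hST4 := hST3 Φ hΦ1 F hFK ρ hρ1 (hρper _ dvd_rfl)
  rw [← hQdef] at hST4
  obtain ⟨C, hC⟩ : ∃ C : ℕ → ℂ, C = fun n => cav w y (y ^ K1) Φ
    (fun j => Nat.gcd (lf 1 (a j) n) Q) := ⟨_, rfl⟩
  obtain ⟨G, hG⟩ : ∃ G : ℕ → ℂ, G = fun n => F n * (ρ n * Φ (fun j => sm 0 y (lf 1 (a j) n))) :=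
    ⟨_, rfl⟩
  have hG1 : ∀ n, ‖G n‖ ≤ 1 := by
    intro n
    rw [hG, norm_mul, norm_mul]
    exact mul_le_one₀ (hFK.1 n) (by positivity) (mul_le_one₀ (hρ1 n) (norm_nonneg _) (hΦ1 _))
  -- step 4
  have s4 : ‖∑ n ∈ Ioc 0 X, F n * (ρ n * C n)‖ ≤ ε / 10 * X := by
    rw [hC, hF]
    exact hmain y X (by omega) (by omega) hmu f hf
  -- step 3
  have s3 : ‖∑ n ∈ Ioc 0 X, G n - ∑ n ∈ Ioc 0 X, F n * (ρ n * C n)‖ ≤ ε / 10 * X := by
    rw [← Finset.sum_sub_distrib]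
    have e : ∑ n ∈ Ioc 0 X, (G n - F n * (ρ n * C n)) =
        ∑ n ∈ Ioc 0 X, F n * (ρ n * (Φ (fun j => sm 0 y (lf 1 (a j) n)) -
          cav w y (y ^ K1) Φ (fun j => Nat.gcd (lf 1 (a j) n) Q))) := by
      refine Finset.sum_congr rfl fun n _ => ?_
      rw [hG, hC]
      ring
    rw [e]
    refine hST4.trans (mul_le_mul_of_nonneg_right ?_ hXpos.le)
    linarith
  -- step 2
  have s2 : ‖∑ n ∈ Ioc 0 X, G (n + h0) - ∑ n ∈ Ioc 0 X, G n‖ ≤ ε / 10 * X := by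
    refine (Pool.Agent.W690.TL.shift_sum G hG1 X h0).trans ?_
    rw [div_le_iff₀ (by positivity)] at hXh0
    linarith
  -- step 1
  have hval : ∀ n : ℕ, ∀ j, lf 1 (a j) (n + h0) = n + h j := by
    intro n j
    unfold lf
    have : (((1 : ℕ) : ℤ) * ((n + h0 : ℕ) : ℤ) + a j) = ((n + h j : ℕ) : ℤ) := by
      simp only [ha]; push_cast; ring
    rw [this, Int.natAbs_natCast]
  have hGval : ∀ n : ℕ, G (n + h0) = f (n + h0) * ∏ j, (P j (n + h j) *
      nit (t j) (n + h0) * uu (g j) (χ j) (t j) (sm w1 y (n + h j))) := by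
    intro n
    rw [hG]
    dsimp only
    rw [hρval, hF, hΦ]
    dsimp only
    rw [hT, Pool.Agent.W690.TL.nit_sum, prod_mul_distrib, prod_mul_distrib]
    have e1 : ∀ j, U j (sm 0 y (lf 1 (a j) (n + h0))) =
        uu (g j) (χ j) (t j) (sm w1 y (n + h j)) := by
      intro j
      rw [hval, hU]
      dsimp only
      rw [rq_sm]
    rw [prod_congr rfl fun j _ => e1 j]
    ring
  have hB1 : ∀ x y' z : ℂ, ‖x‖ ≤ 1 → ‖y'‖ = 1 → ‖z‖ ≤ 1 → ‖x * y' * z‖ ≤ 1 := by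
    intro x y' z hx hy hz
    rw [norm_mul, norm_mul, hy, mul_one]
    exact mul_le_one₀ hx (norm_nonneg _) hz
  have s1 : ‖∑ n ∈ Ioc 0 X, f (n + h0) * ∏ j, g j (n + h j) - ∑ n ∈ Ioc 0 X, G (n + h0)‖ ≤
      ε / 10 * X + ε / 10 * X := by
    rw [← Finset.sum_sub_distrib]
    have hterm : ∀ n ∈ Ioc 0 X, ‖f (n + h0) * ∏ j, g j (n + h j) - G (n + h0)‖ ≤
        ∑ j, (B * (H / n) + E j (n + h j)) := by
      intro n hn
      have hn1 : 1 ≤ n := (Finset.mem_Ioc.1 hn).1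
      rw [hGval n, ← mul_sub, norm_mul]
      refine (mul_le_of_le_one_left (norm_nonneg _) (hf1 _)).trans ?_
      refine (Pool.Agent.W690.TL.prod_sub_prod univ _ _ (fun j _ => (hg j).1 _) (fun j _ =>
        hB1 _ _ _ (hP1 _ _) (Pool.Agent.W690.TL.norm_nit _ _)
          ((uu_mul1 (hg j) (χ j) (t j)).1 _))).trans ?_
      refine sum_le_sum fun j _ => ?_
      have e : g j (n + h j) - P j (n + h j) * nit (t j) (n + h0) *
          uu (g j) (χ j) (t j) (sm w1 y (n + h j)) =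
          (P j (n + h j) * uu (g j) (χ j) (t j) (sm w1 y (n + h j))) *
            (nit (t j) (n + h j) - nit (t j) (n + h0)) +
          (g j (n + h j) - P j (n + h j) * nit (t j) (n + h j) *
          uu (g j) (χ j) (t j) (sm w1 y (n + h j))) := by ring
      rw [e]
      refine (norm_add_le _ _).trans (add_le_add ?_ (by rw [hE]))
      rw [norm_mul, norm_mul]
      have e1 : ‖P j (n + h j)‖ * ‖uu (g j) (χ j) (t j) (sm w1 y (n + h j))‖ ≤ 1 :=
        mul_le_one₀ (hP1 _ _) (norm_nonneg _) ((uu_mul1 (hg j) (χ j) (t j)).1 _)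
      refine (mul_le_of_le_one_left (norm_nonneg _) e1).trans ?_
      refine (Pool.Agent.W690.TL.nit_sub_le _ _ _).trans ?_
      exact mul_le_mul (hB j) (Pool.Agent.W690.TL.log_diff hn1 hH0 (hHj j)) (abs_nonneg _)
        (Nat.cast_nonneg _)
    refine (norm_sum_le _ _).trans ((Finset.sum_le_sum hterm).trans ?_)
    simp only [Finset.sum_add_distrib]
    refine add_le_add ?_ ?_
    · have e : ∑ n ∈ Ioc 0 X, ∑ _j : Fin k, (B : ℝ) * (H / n) =
          (k * (B * H)) * ∑ n ∈ Ioc 0 X, (1 : ℝ) / n := by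
        rw [Finset.mul_sum]
        refine Finset.sum_congr rfl fun n _ => ?_
        rw [Finset.sum_const, Finset.card_univ, Fintype.card_fin, nsmul_eq_mul]
        ring
      rw [e]
      refine le_trans ?_ c3
      gcongr
      exact Pool.Agent.W690.TL.sum_inv_le
    · rw [Finset.sum_comm]
      calc _ ≤ ∑ _j : Fin k, ε / (20 * k) * (2 * X) := Finset.sum_le_sum fun j _ => happ j
        _ = _ := by
          rw [Finset.sum_const, Finset.card_univ, Fintype.card_fin, nsmul_eq_mul]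
          field_simp
          ring
  -- assemble
  obtain ⟨S, hS⟩ : ∃ S : ℂ, S = ∑ n ∈ Ioc 0 X, f (n + h0) * ∏ j, g j (n + h j) := ⟨_, rfl⟩
  rw [← hS] at s1 ⊢
  have e : S = (S - ∑ n ∈ Ioc 0 X, G (n + h0)) +
      ((∑ n ∈ Ioc 0 X, G (n + h0) - ∑ n ∈ Ioc 0 X, G n) +
      ((∑ n ∈ Ioc 0 X, G n - ∑ n ∈ Ioc 0 X, F n * (ρ n * C n)) +
        ∑ n ∈ Ioc 0 X, F n * (ρ n * C n))) := by ring
  rw [e]
  have hεX : 0 ≤ ε * X := by positivity
  calc _ ≤ _ := norm_add_le _ _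
    _ ≤ (ε / 10 * X + ε / 10 * X) + (ε / 10 * X + (ε / 10 * X + ε / 10 * X)) := by
      refine add_le_add s1 ((norm_add_le _ _).trans (add_le_add s2 ((norm_add_le _ _).trans
        (add_le_add s3 s4))))
    _ = 1 / 2 * (ε * X) := by ring
    _ ≤ ε * X := by linarith

end Pool.Agent.K9h46
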