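import Pool.Agent.W479.TLClaim
import Pool.Agent.W290.TL.Near

/-!
Mean values of multiplicative functions of the `(w, y]`-parts: Euler product bound.
-/

set_option autoImplicit false

namespace Pool.Agent.K9h46

open Finset Filter
open Pool.Agent.W208.TL (PP sm mu Mul1)

lemma mPP {w y l : ℕ} : l ∈ PP w y ↔ (w < l ∧ l ≤ y) ∧ l.Prime :=
  Pool.Agent.W479.TLClaim.mem_PP

lemma sm_self_iff (w y d : ℕ) : sm w y d = d ↔ d ∈ Nat.factoredNumbers (PP w y) := by
  rw [Nat.mem_factoredNumbers']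
  constructor
  · intro h p hp hpd
    exact Pool.Agent.W479.TLClaim.prime_of_sm h hp hpd
  · intro h
    have h0 : d ≠ 0 := by
      rintro rfl
      obtain ⟨p, hp1, hp⟩ := Nat.exists_infinite_primes (y + 1)
      have := (mPP.1 (h p hp (dvd_zero _))).1.2
      omega
    have h1 : d = ∏ p ∈ d.primeFactors, p ^ d.factorization p := by
      conv_lhs => rw [← Nat.prod_factorization_pow_eq_self h0]
      rfl
    conv_rhs => rw [h1]
    unfold sm
    symm
    apply Finset.prod_subset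
    · intro p hp
      exact h p (Nat.prime_of_mem_primeFactors hp) (Nat.dvd_of_mem_primeFactors hp)
    · intro p hp hnp
      have : d.factorization p = 0 := by
        rw [← Nat.support_factorization] at hnp
        exact Finsupp.notMem_support_iff.1 hnp
      rw [this, pow_zero]

lemma summ_pow (u : ℕ → ℂ) (hu : ∀ n, ‖u n‖ ≤ 1) {p : ℕ} (hp : 2 ≤ p) :
    Summable (fun n : ℕ => ‖u (p ^ n) / ((p ^ n : ℕ) : ℂ)‖) := by
  have hp1 : (1 : ℝ) < p := by exact_mod_cast (by omega : 1 < p)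
  refine Summable.of_nonneg_of_le (fun n => norm_nonneg _) (fun n => ?_)
    (summable_geometric_of_lt_one (r := 1 / (p : ℝ)) (by positivity)
      (by rw [div_lt_one (by linarith)]; exact hp1))
  rw [norm_div, Complex.norm_natCast, Nat.cast_pow, one_div, inv_pow, div_eq_mul_inv]
  exact mul_le_of_le_one_left (by positivity) (hu _)

lemma hasSum_mu (u : ℕ → ℂ) (hu : Mul1 u) (w y : ℕ) :
    HasSum (fun m => u m * (mu w y m : ℂ))
      (∏ l ∈ PP w y, ((1 - 1 / (l : ℂ)) * ∑' e : ℕ, u (l ^ e) / ((l ^ e : ℕ) : ℂ))) := by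
  have h1 := (EulerProduct.summable_and_hasSum_factoredNumbers_prod_filter_prime_tsum
    (f := fun m : ℕ => u m / (m : ℂ)) (by simp [hu.2.1]) (fun {m n} hmn => by
      rw [hu.2.2 m n hmn, Nat.cast_mul, mul_div_mul_comm])
    (fun {p} hp => summ_pow u hu.1 hp.two_le) (PP w y)).2
  rw [filter_true_of_mem (fun p hp => (mPP.1 hp).2)] at h1
  have h2 := (hasSum_subtype_iff_indicator (f := fun m : ℕ => u m / (m : ℂ))).1 h1
  have h3 := h2.mul_left (∏ l ∈ PP w y, (1 - 1 / (l : ℂ)))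
  rw [prod_mul_distrib]
  have e : (fun m => u m * (mu w y m : ℂ)) = fun i => (∏ l ∈ PP w y, (1 - 1 / (l : ℂ))) *
      (Nat.factoredNumbers (PP w y)).indicator (fun m => u m / (m : ℂ)) i := by
    funext m
    by_cases h : sm w y m = m
    · rw [Set.indicator_of_mem ((sm_self_iff w y m).1 h)]
      unfold mu
      rw [if_pos h]
      push_cast
      ring
    · rw [Set.indicator_of_notMem (fun h' => h ((sm_self_iff w y m).2 h'))]
      unfold mu
      rw [if_neg h]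
      simp
  rw [e]
  exact h3

lemma factor_bound (u : ℕ → ℂ) (hu : ∀ n, ‖u n‖ ≤ 1) (hu1 : u 1 = 1) (l : ℕ) (hl : 2 ≤ l) :
    ‖(1 - 1 / (l : ℂ)) * ∑' e : ℕ, u (l ^ e) / ((l ^ e : ℕ) : ℂ)‖ ≤
      Real.exp (-((1 - (u l).re) / l) + 8 * (1 / (l : ℝ) ^ 2)) := by
  obtain ⟨x, hx⟩ : ∃ x : ℝ, x = 1 / (l : ℝ) := ⟨_, rfl⟩
  have hl0 : (0 : ℝ) < l := by positivity
  have hl2 : (2 : ℝ) ≤ l := by exact_mod_cast hl
  have hx0 : 0 < x := by rw [hx]; positivity
  have hx2 : x ≤ 1 / 2 := by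
    rw [hx]
    exact one_div_le_one_div_of_le (by norm_num) hl2
  have hxc : (1 / (l : ℂ)) = (x : ℂ) := by rw [hx]; push_cast; rfl
  have hterm : ∀ e : ℕ, u (l ^ e) / ((l ^ e : ℕ) : ℂ) = u (l ^ e) * (x : ℂ) ^ e := by
    intro e
    rw [← hxc, Nat.cast_pow, one_div, inv_pow, div_eq_mul_inv]
  have hs : Summable (fun e : ℕ => u (l ^ e) * (x : ℂ) ^ e) := by
    have := (summ_pow u hu hl).of_norm
    simpa only [hterm] using this
  have h1 := hs.sum_add_tsum_nat_add 2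
  obtain ⟨t, ht⟩ : ∃ t : ℂ, t = ∑' e : ℕ, u (l ^ (e + 2)) * (x : ℂ) ^ (e + 2) := ⟨_, rfl⟩
  rw [← ht, sum_range_succ, sum_range_one, pow_zero, pow_zero, pow_one, pow_one, hu1, one_mul] at h1
  have hgeo : HasSum (fun e : ℕ => x ^ (e + 2)) (x ^ 2 * (1 - x)⁻¹) := by
    have h2 := (hasSum_geometric_of_lt_one hx0.le (by linarith : x < 1)).mul_left (x ^ 2)
    have e : (fun e : ℕ => x ^ (e + 2)) = fun e => x ^ 2 * x ^ e := by
      funext e
      ring
    rw [e]
    exact h2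
  have htn : ‖t‖ ≤ x ^ 2 * (1 - x)⁻¹ := by
    have h3 : Summable (fun e : ℕ => u (l ^ (e + 2)) * (x : ℂ) ^ (e + 2)) :=
      (summable_nat_add_iff 2).2 hs
    rw [ht]
    refine h3.hasSum.norm_le_of_bounded hgeo fun e => ?_
    rw [norm_mul, norm_pow, Complex.norm_real, Real.norm_of_nonneg hx0.le]
    exact mul_le_of_le_one_left (by positivity) (hu _)
  have hE : (1 - 1 / (l : ℂ)) * ∑' e : ℕ, u (l ^ e) / ((l ^ e : ℕ) : ℂ) =
      (1 - (1 - u l) * x) + (-(u l) * x ^ 2 + (1 - x) * t) := by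
    simp only [hterm]
    rw [← h1, hxc]
    ring
  have hul := hu l
  have hre : (u l).re ≤ 1 := (Complex.re_le_norm _).trans hul
  have hre2 : -1 ≤ (u l).re := by
    have := (abs_le.1 ((Complex.abs_re_le_norm (u l)).trans hul)).1
    exact this
  have hn1 : ‖1 - (1 - u l) * (x : ℂ)‖ ^ 2 ≤ 1 - 2 * x * (1 - (u l).re) + 4 * x ^ 2 := by
    rw [← Complex.normSq_eq_norm_sq, Complex.normSq_apply]
    have h5 : (u l).re ^ 2 + (u l).im ^ 2 ≤ 1 := by
      have h6 := Complex.normSq_eq_norm_sq (u l)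
      rw [Complex.normSq_apply] at h6
      nlinarith [norm_nonneg (u l)]
    simp only [Complex.sub_re, Complex.one_re, Complex.mul_re, Complex.ofReal_re, Complex.sub_im,
      Complex.one_im, Complex.ofReal_im, mul_zero, sub_zero, Complex.mul_im, zero_sub]
    have h7 : (1 - (u l).re) ^ 2 + (u l).im ^ 2 ≤ 4 := by nlinarith
    nlinarith [mul_le_mul_of_nonneg_right h7 (sq_nonneg x)]
  obtain ⟨a, ha⟩ : ∃ a : ℝ, a = x * (1 - (u l).re) := ⟨_, rfl⟩
  have ha0 : 0 ≤ a := by rw [ha]; exact mul_nonneg hx0.le (by linarith)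
  have ha1 : a ≤ 1 := by
    rw [ha]
    nlinarith
  have hn2 : ‖1 - (1 - u l) * (x : ℂ)‖ ≤ Real.exp (-a + 2 * x ^ 2) := by
    have h8 : ‖1 - (1 - u l) * (x : ℂ)‖ ^ 2 ≤ (Real.exp (-a + 2 * x ^ 2)) ^ 2 := by
      rw [← Real.exp_nat_mul]
      refine hn1.trans ?_
      have := Real.add_one_le_exp (((2 : ℕ) : ℝ) * (-a + 2 * x ^ 2))
      push_cast at this ⊢
      rw [ha] at this ⊢
      linarith
    exact (pow_le_pow_iff_left₀ (norm_nonneg _) (Real.exp_pos _).le (by norm_num)).1 h8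
  have hn3 : ‖-(u l) * (x : ℂ) ^ 2 + (1 - x) * t‖ ≤ 2 * x ^ 2 := by
    refine (norm_add_le _ _).trans ?_
    have h9 : ‖-(u l) * (x : ℂ) ^ 2‖ ≤ x ^ 2 := by
      rw [norm_mul, norm_neg, norm_pow, Complex.norm_real, Real.norm_of_nonneg hx0.le]
      exact mul_le_of_le_one_left (by positivity) hul
    have h10 : ‖(1 - (x : ℂ)) * t‖ ≤ x ^ 2 := by
      have h11 : (1 - (x : ℂ)) = ((1 - x : ℝ) : ℂ) := by push_cast; rfl
      rw [norm_mul, h11, Complex.norm_real, Real.norm_of_nonneg (by linarith)]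
      calc (1 - x) * ‖t‖ ≤ (1 - x) * (x ^ 2 * (1 - x)⁻¹) :=
            mul_le_mul_of_nonneg_left htn (by linarith)
        _ = x ^ 2 := by
            have : (1 - x) ≠ 0 := by linarith
            field_simp
    linarith
  have hexp : (1 / 3 : ℝ) ≤ Real.exp (-a + 2 * x ^ 2) := by
    have h12 : Real.exp (-1) ≤ Real.exp (-a + 2 * x ^ 2) := Real.exp_le_exp.2 (by nlinarith)
    have h13 : (1 / 3 : ℝ) ≤ Real.exp (-1) := by
      rw [Real.exp_neg, one_div]
      exact inv_anti₀ (Real.exp_pos _) (by have := Real.exp_one_lt_d9; linarith)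
    linarith
  rw [hE]
  refine (norm_add_le _ _).trans ?_
  calc ‖1 - (1 - u l) * (x : ℂ)‖ + ‖-(u l) * (x : ℂ) ^ 2 + (1 - x) * t‖ ≤
        Real.exp (-a + 2 * x ^ 2) + 2 * x ^ 2 := add_le_add hn2 hn3
    _ ≤ Real.exp (-a + 2 * x ^ 2) * (1 + 6 * x ^ 2) := by nlinarith [sq_nonneg x]
    _ ≤ Real.exp (-a + 2 * x ^ 2) * Real.exp (6 * x ^ 2) := by
        refine mul_le_mul_of_nonneg_left ?_ (Real.exp_pos _).le
        have := Real.add_one_le_exp (6 * x ^ 2)
        linarith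
    _ = Real.exp (-((1 - (u l).re) / l) + 8 * (1 / (l : ℝ) ^ 2)) := by
        rw [← Real.exp_add]
        congr 1
        rw [ha, hx]
        field_simp
        ring

lemma hasSum_one (w y : ℕ) : HasSum (fun m => mu w y m) 1 := by
  have h1 := hasSum_mu (fun _ => 1) ⟨fun _ => by simp, rfl, fun _ _ _ => by simp⟩ w y
  have h2 : ∏ l ∈ PP w y, ((1 - 1 / (l : ℂ)) * ∑' e : ℕ, (1 : ℂ) / ((l ^ e : ℕ) : ℂ)) = 1 := by
    refine prod_eq_one fun l hl => ?_
    have hl1 : 1 < l := (mPP.1 hl).2.one_lt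
    have hlr : (1 : ℝ) < l := by exact_mod_cast hl1
    have h3 : ∑' e : ℕ, (1 : ℂ) / ((l ^ e : ℕ) : ℂ) = (1 - 1 / (l : ℂ))⁻¹ := by
      rw [← tsum_geometric_of_norm_lt_one (ξ := 1 / (l : ℂ))]
      · refine tsum_congr fun e => ?_
        rw [Nat.cast_pow, one_div, one_div, inv_pow]
      · rw [norm_div, norm_one, Complex.norm_natCast, div_lt_one (by linarith)]
        exact hlr
    rw [h3, mul_inv_cancel₀]
    intro h
    have h4 : (l : ℂ) ≠ 0 := by
      exact_mod_cast (by omega : l ≠ 0)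
    have h5 : (l : ℂ) = 1 := by
      field_simp at h
      linear_combination h
    have h6 : l = 1 := by exact_mod_cast h5
    omega
  rw [h2] at h1
  simp only [one_mul] at h1
  have h3 := Complex.hasSum_re h1
  simpa using h3

/-- the mean of a multiplicative function over the law `mu w y` -/
theorem mean_bound (u : ℕ → ℂ) (hu : Mul1 u) {w : ℕ} (hw : 1 ≤ w) (y Z : ℕ) :
    ‖∑ d ∈ Icc 1 Z, u d * (mu w y d : ℂ)‖ ≤
      Real.exp (8 - ∑ l ∈ PP w y, (1 - (u l).re) / l) + |∑ d ∈ Icc 1 Z, mu w y d - 1| := by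
  classical
  have h1 := hasSum_mu u hu w y
  obtain ⟨T, hT⟩ : ∃ T : ℂ, T = ∏ l ∈ PP w y, ((1 - 1 / (l : ℂ)) *
    ∑' e : ℕ, u (l ^ e) / ((l ^ e : ℕ) : ℂ)) := ⟨_, rfl⟩
  rw [← hT] at h1
  have h2 := hasSum_one w y
  have h3 : HasSum (fun m => u m * (mu w y m : ℂ) - if m ∈ Icc 1 Z then u m * (mu w y m : ℂ) else 0)
      (T - ∑ m ∈ Icc 1 Z, u m * (mu w y m : ℂ)) := by
    refine h1.sub ?_
    have h4 := hasSum_sum_of_ne_finset_zero (s := Icc 1 Z) (L := SummationFilter.unconditional ℕ)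
      (f := fun m => if m ∈ Icc 1 Z then u m * (mu w y m : ℂ) else 0) (fun b hb => if_neg hb)
    rwa [sum_congr rfl (fun m hm => if_pos hm)] at h4
  have h4 : HasSum (fun m => mu w y m - if m ∈ Icc 1 Z then mu w y m else 0)
      (1 - ∑ m ∈ Icc 1 Z, mu w y m) := by
    refine h2.sub ?_
    have h4 := hasSum_sum_of_ne_finset_zero (s := Icc 1 Z) (L := SummationFilter.unconditional ℕ)
      (f := fun m => if m ∈ Icc 1 Z then mu w y m else 0) (fun b hb => if_neg hb)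
    rwa [sum_congr rfl (fun m hm => if_pos hm)] at h4
  have h5 : ‖T - ∑ m ∈ Icc 1 Z, u m * (mu w y m : ℂ)‖ ≤ 1 - ∑ m ∈ Icc 1 Z, mu w y m := by
    refine h3.norm_le_of_bounded h4 fun m => ?_
    by_cases hm : m ∈ Icc 1 Z
    · rw [if_pos hm, if_pos hm, sub_self, sub_self, norm_zero]
    · rw [if_neg hm, if_neg hm, sub_zero, sub_zero, norm_mul, Complex.norm_real,
        Real.norm_of_nonneg (Pool.Agent.W479.TLClaim.mu_nonneg w y m)]
      exact mul_le_of_le_one_left (Pool.Agent.W479.TLClaim.mu_nonneg w y m) (hu.1 m)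
  have h6 : ‖T‖ ≤ Real.exp (8 - ∑ l ∈ PP w y, (1 - (u l).re) / l) := by
    rw [hT, norm_prod]
    calc ∏ l ∈ PP w y, ‖(1 - 1 / (l : ℂ)) * ∑' e : ℕ, u (l ^ e) / ((l ^ e : ℕ) : ℂ)‖ ≤
          ∏ l ∈ PP w y, Real.exp (-((1 - (u l).re) / l) + 8 * (1 / (l : ℝ) ^ 2)) :=
          prod_le_prod (fun _ _ => norm_nonneg _) fun l hl =>
            factor_bound u hu.1 hu.2.1 l (mPP.1 hl).2.two_le
      _ = Real.exp (∑ l ∈ PP w y, (-((1 - (u l).re) / l) + 8 * (1 / (l : ℝ) ^ 2))) := by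
          rw [Real.exp_sum]
      _ ≤ _ := by
          refine Real.exp_le_exp.2 ?_
          rw [sum_add_distrib, sum_neg_distrib, ← mul_sum]
          have h7 := Pool.Agent.W479.TLClaim.sum_inv_sq (w := w) (y := y) hw
          have h8 : 1 / (w : ℝ) ≤ 1 := by
            rw [div_le_one (by exact_mod_cast hw)]
            exact_mod_cast hw
          linarith
  have h7 : ∑ d ∈ Icc 1 Z, u d * (mu w y d : ℂ) = T - (T - ∑ m ∈ Icc 1 Z, u m * (mu w y m : ℂ)) := by
    ring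
  rw [h7]
  refine (norm_sub_le _ _).trans (add_le_add h6 (h5.trans ?_))
  rw [abs_sub_comm]
  exact le_abs_self _

end Pool.Agent.K9h46
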