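import Pool.Agent.K9h46.Nr4

/-!
The uniform inverse theorem, restated.
-/

set_option autoImplicit false

namespace Pool.Agent.K9h46

open Finset Filter Pool.Agent.Q270.EA Pool.Agent.Q270.EB

/-- `conj` if `b` is odd -/
noncomputable def cjo (b : ℕ) (z : ℂ) : ℂ := if b % 2 = 0 then z else starRingEnd ℂ z

/-- the cube product -/
noncomputable def cup {k : ℕ} (t : Fin k → ℤ) (f : ℕ → ℂ) (N : ℕ) : ℂ :=
  (1 / (N : ℂ)) * ∑ n ∈ Icc 1 N, ∏ s : Finset (Fin k), cjo s.card (ex f (n + ∑ i ∈ s, t i))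

theorem inverse (k : ℕ) (hk : 1 ≤ k) (a : Fin (k + 1) → ℤ) (ha : Function.Injective a) (ε : ℝ)
    (hε : 0 < ε) : ∃ (R w X₀ : ℕ) (δ : ℝ), 0 < δ ∧ ∀ X : ℕ, X₀ ≤ X → ∀ f : ℕ → ℂ, MU f →
      ∀ h : Fin k → ℕ → ℂ, (∀ j, MU (h j)) → ∀ b : Fin k → ℕ → ℕ → ℂ, (∀ j u v, ‖b j u v‖ ≤ 1) →
      ε * Real.log X < ∑ N ∈ Icc 1 X, (1 / (N : ℝ)) *
        ‖cr a f (fun j m => h j m * b j (om m) (ro w m)) N‖ →
      ∃ t : Fin k → ℤ, (∀ i, |t i| ≤ R) ∧
        Function.Injective (fun s : Finset (Fin k) => ∑ i ∈ s, t i) ∧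
        δ * Real.log X < ∑ N ∈ Icc 1 X, (1 / (N : ℝ)) * ‖cup t f N‖ := by
  obtain ⟨R, w, X₀, δ, hδ, hmain⟩ := inv_thm k hk a ha (ε / 2) (by positivity)
  refine ⟨R, w, max X₀ 3, δ, hδ, fun X hX f hf h hh b hb hbig => ?_⟩
  have hX3 : 3 ≤ X := (le_max_right _ _).trans hX
  have hlog : 0 < Real.log X := Real.log_pos (by exact_mod_cast (by omega : 1 < X))
  by_contra hcon
  push Not at hcon
  refine absurd hbig (not_lt.2 ?_)
  rcases hf.one with h1 | h1
  · have h4 : ∀ N, cr a f (fun j m => h j m * b j (om m) (ro w m)) N = 0 := by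
      intro N
      unfold cr
      rw [sum_eq_zero, mul_zero]
      intro n _
      have h2 : ex f (n + a 0) = 0 := by
        have := hf.zero h1 (n + a 0) (fun _ => 1)
        simp only [mul_one] at this
        exact this
      rw [h2, zero_mul]
    simp only [h4, norm_zero, mul_zero, sum_const_zero]
    positivity
  · refine transfer k a f ε hε w X hX3 (fun g G hg hG => ?_) h hh b hb
    refine hmain X ((le_max_left _ _).trans hX) (z0 f) (hf.bm h1) (fun t ht htR => ?_) g G hg hG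
    have h2 := hcon t htR ht
    have hpos : 0 < ∑ N ∈ Icc 1 X, 1 / (N : ℝ) := lt_of_lt_of_le hlog (log_le_harm X)
    unfold AS
    rw [div_le_iff₀ hpos]
    refine le_trans (le_of_eq ?_) (h2.trans (mul_le_mul_of_nonneg_left (log_le_harm X) hδ.le))
    refine sum_congr rfl fun N _ => ?_
    unfold cup CU cjo cj
    congr 3
    refine sum_congr rfl fun n _ => prod_congr rfl fun s _ => ?_
    rw [ex_eq]

end Pool.Agent.K9h46
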