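import Pool.Agent.K9h46.EulerB
import Pool.Agent.W208.TL.Basic
import Pool.Agent.W690.TL.Uell

/-!
Multiplicative functions close to a twisted character on the large primes: approximation by a
periodic function, the twist and a function of the `(w, y]`-part.
-/

set_option autoImplicit false

namespace Pool.Agent.K9h46

open Finset Filter
open Pool.Agent.W208.TL (PP sm mu Mul1 nit QQ NEAR)

lemma fact_sm (w y n l : ℕ) : (sm w y n).factorization l =
    if w < l ∧ l ≤ y then n.factorization l else 0 := by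
  have h2 : (sm w y n).factorization l = if l ∈ PP w y then n.factorization l else 0 := by
    unfold sm
    rw [Nat.factorization_prod (fun l hl => pow_ne_zero _ (mPP.1 hl).2.ne_zero)]
    simp only [Finsupp.coe_finsetSum, Finset.sum_apply, Nat.factorization_pow, Finsupp.coe_smul,
      Pi.smul_apply, smul_eq_mul]
    split_ifs with hp
    · rw [sum_eq_single l]
      · rw [Nat.Prime.factorization_self (mPP.1 hp).2, mul_one]
      · intro m hm hne
        rw [Nat.Prime.factorization (mPP.1 hm).2, Finsupp.single_apply, if_neg hne, mul_zero]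
      · intro h'
        exact absurd hp h'
    · apply sum_eq_zero
      intro m hm
      have hne : m ≠ l := by rintro rfl; exact hp hm
      rw [Nat.Prime.factorization (mPP.1 hm).2, Finsupp.single_apply, if_neg hne, mul_zero]
  rw [h2]
  by_cases hl : l.Prime
  · have : l ∈ PP w y ↔ (w < l ∧ l ≤ y) := by rw [mPP]; simp [hl]
    simp only [this]
  · have h3 : n.factorization l = 0 := Nat.factorization_eq_zero_of_not_prime _ hl
    rw [h3]
    simp

lemma sm_ne (w y n : ℕ) : sm w y n ≠ 0 := by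
  have := Pool.Agent.W479.TLClaim.sm_pos w y n
  omega

/-- the part composed of primes larger than `w` -/
noncomputable def rq (w n : ℕ) : ℕ := sm w (max w n) n

lemma fact_rq {w n : ℕ} (hn : n ≠ 0) (l : ℕ) : (rq w n).factorization l =
    if w < l then n.factorization l else 0 := by
  unfold rq
  rw [fact_sm]
  by_cases h1 : w < l
  · by_cases h2 : l ≤ max w n
    · rw [if_pos ⟨h1, h2⟩, if_pos h1]
    · rw [if_neg (fun h => h2 h.2), if_pos h1]
      symm
      apply Nat.factorization_eq_zero_of_not_dvd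
      intro h3
      have := Nat.le_of_dvd (Nat.pos_of_ne_zero hn) h3
      have := le_max_right w n
      omega
  · rw [if_neg (fun h => h1 h.1), if_neg h1]

lemma rq_ne (w n : ℕ) : rq w n ≠ 0 := sm_ne _ _ _

lemma fact_sm0 (w n l : ℕ) : (sm 0 w n).factorization l =
    if l ≤ w then n.factorization l else 0 := by
  rw [fact_sm]
  by_cases h : l = 0
  · subst h
    simp
  · by_cases h1 : l ≤ w
    · rw [if_pos ⟨by omega, h1⟩, if_pos h1]
    · rw [if_neg (fun h => h1 h.2), if_neg h1]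

lemma split_rq {w n : ℕ} (hn : n ≠ 0) : sm 0 w n * rq w n = n := by
  apply Nat.eq_of_factorization_eq (mul_ne_zero (sm_ne _ _ _) (rq_ne _ _)) hn
  intro l
  rw [Nat.factorization_mul (sm_ne _ _ _) (rq_ne _ _), Finsupp.add_apply, fact_sm0, fact_rq hn]
  split_ifs <;> omega

lemma rq_coprime {w n q : ℕ} (hn : n ≠ 0) (hq : 1 ≤ q) (hqw : q ≤ w) : Nat.Coprime (rq w n) q := by
  rw [Nat.coprime_iff_gcd_eq_one]
  by_contra h
  obtain ⟨p, hp, hd⟩ := Nat.exists_prime_and_dvd h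
  have h1 := (Nat.dvd_gcd_iff.1 hd).1
  have h2 := Nat.le_of_dvd hq (Nat.dvd_gcd_iff.1 hd).2
  have h3 := (hp.dvd_iff_one_le_factorization (rq_ne w n)).1 h1
  rw [fact_rq hn, if_neg (by omega)] at h3
  omega

lemma sm_rq_coprime {w n : ℕ} (hn : n ≠ 0) : Nat.Coprime (sm 0 w n) (rq w n) := by
  rw [Nat.coprime_iff_gcd_eq_one]
  by_contra h
  obtain ⟨p, hp, hd⟩ := Nat.exists_prime_and_dvd h
  have h1 := (hp.dvd_iff_one_le_factorization (sm_ne 0 w n)).1 (Nat.dvd_gcd_iff.1 hd).1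
  have h2 := (hp.dvd_iff_one_le_factorization (rq_ne w n)).1 (Nat.dvd_gcd_iff.1 hd).2
  rw [fact_sm0] at h1
  rw [fact_rq hn] at h2
  split_ifs at h1 h2 <;> omega

lemma rq_mul {w m n : ℕ} (hm : m ≠ 0) (hn : n ≠ 0) : rq w (m * n) = rq w m * rq w n := by
  apply Nat.eq_of_factorization_eq (rq_ne _ _) (mul_ne_zero (rq_ne _ _) (rq_ne _ _))
  intro l
  rw [Nat.factorization_mul (rq_ne _ _) (rq_ne _ _), Finsupp.add_apply,
    fact_rq (mul_ne_zero hm hn), fact_rq hm, fact_rq hn, Nat.factorization_mul hm hn,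
    Finsupp.add_apply]
  split_ifs <;> rfl

lemma rq_sm {w y n : ℕ} : rq w (sm 0 y n) = sm w y n := by
  apply Nat.eq_of_factorization_eq (rq_ne _ _) (sm_ne _ _ _)
  intro l
  rw [fact_rq (sm_ne _ _ _), fact_sm0, fact_sm]
  by_cases h1 : w < l <;> by_cases h2 : l ≤ y <;> simp [h1, h2]

lemma rq_prime {w p : ℕ} (hp : p.Prime) (hwp : w < p) : rq w p = p := by
  apply Nat.eq_of_factorization_eq (rq_ne _ _) hp.ne_zero
  intro l
  rw [fact_rq hp.ne_zero]
  split_ifs with h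
  · rfl
  · symm
    rw [hp.factorization, Finsupp.single_eq_of_ne]
    rintro rfl
    exact h hwp

lemma rq_one (w : ℕ) : rq w 1 = 1 := by
  apply Nat.eq_of_factorization_eq (rq_ne _ _) one_ne_zero
  intro l
  rw [fact_rq one_ne_zero]
  simp

/-- `f(m) conj (χ(m) m ^ {i τ})` -/
noncomputable def uu {q : ℕ} (f : ℕ → ℂ) (χ : DirichletCharacter ℂ q) (τ : ℝ) (m : ℕ) : ℂ :=
  f m * starRingEnd ℂ (χ (m : ZMod q) * nit τ m)

lemma uu_mul1 {q : ℕ} {f : ℕ → ℂ} (hf : Mul1 f) (χ : DirichletCharacter ℂ q) (τ : ℝ) :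
    Mul1 (uu f χ τ) := by
  refine ⟨fun n => ?_, ?_, fun m n h => ?_⟩
  · unfold uu
    rw [norm_mul, RCLike.norm_conj, norm_mul, Pool.Agent.W690.TL.norm_nit, mul_one]
    exact mul_le_one₀ (hf.1 n) (norm_nonneg _) (DirichletCharacter.norm_le_one χ _)
  · unfold uu
    rw [hf.2.1, Nat.cast_one, map_one, Pool.Agent.W690.TL.nit_one]
    simp
  · unfold uu
    rw [hf.2.2 m n h, Nat.cast_mul, map_mul, Pool.Agent.W690.TL.nit_mul τ h]
    simp only [map_mul]
    ring

lemma U_mul1 {u : ℕ → ℂ} (hu : Mul1 u) (w : ℕ) : Mul1 (fun n => u (rq w n)) := by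
  refine ⟨fun n => hu.1 _, by show u (rq w 1) = 1; rw [rq_one]; exact hu.2.1, fun m n h => ?_⟩
  dsimp only
  rcases Nat.eq_zero_or_pos m with rfl | hm
  · have : n = 1 := by simpa using h
    rw [this, rq_one, hu.2.1, mul_one, mul_one]
  rcases Nat.eq_zero_or_pos n with rfl | hn
  · have : m = 1 := by simpa using h
    rw [this, rq_one, hu.2.1, one_mul, one_mul]
  rw [rq_mul (by omega) (by omega)]
  apply hu.2.2
  have h1 : rq w m ∣ m := Dvd.intro_left _ (split_rq (w := w) (by omega : m ≠ 0))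
  have h2 : rq w n ∣ n := Dvd.intro_left _ (split_rq (w := w) (by omega : n ≠ 0))
  exact Nat.Coprime.coprime_dvd_left h1 (Nat.Coprime.coprime_dvd_right h2 h)

/-- the periodic factor -/
noncomputable def AA {q : ℕ} (f : ℕ → ℂ) (χ : DirichletCharacter ℂ q) (τ : ℝ) (w n : ℕ) : ℂ :=
  f (sm 0 w n) * starRingEnd ℂ (nit τ (sm 0 w n)) * χ ((rq w n : ℕ) : ZMod q)

lemma norm_AA {q : ℕ} {f : ℕ → ℂ} (hf : Mul1 f) (χ : DirichletCharacter ℂ q) (τ : ℝ) (w n : ℕ) :
    ‖AA f χ τ w n‖ ≤ 1 := by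
  unfold AA
  rw [norm_mul, norm_mul, RCLike.norm_conj, Pool.Agent.W690.TL.norm_nit, mul_one]
  exact mul_le_one₀ (hf.1 _) (norm_nonneg _) (DirichletCharacter.norm_le_one χ _)

lemma norm_chi_one {q m : ℕ} (χ : DirichletCharacter ℂ q) (h : Nat.Coprime m q) :
    ‖χ (m : ZMod q)‖ = 1 := by
  have h1 := χ.unit_norm_eq_one (ZMod.unitOfCoprime m h)
  rwa [ZMod.coe_unitOfCoprime] at h1

lemma f_eq {q : ℕ} {f : ℕ → ℂ} (hf : Mul1 f) (χ : DirichletCharacter ℂ q) (τ : ℝ) {w n : ℕ}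
    (hq : 1 ≤ q) (hqw : q ≤ w) (hn : n ≠ 0) :
    f n = AA f χ τ w n * nit τ n * uu f χ τ (rq w n) := by
  have hc := sm_rq_coprime (w := w) hn
  have h1 : f n = f (sm 0 w n) * f (rq w n) := by
    conv_lhs => rw [← split_rq (w := w) hn]
    exact hf.2.2 _ _ hc
  have h2 : nit τ n = nit τ (sm 0 w n) * nit τ (rq w n) := by
    conv_lhs => rw [← split_rq (w := w) hn]
    exact Pool.Agent.W690.TL.nit_mul τ hc
  have h3 : starRingEnd ℂ (nit τ (sm 0 w n)) * nit τ (sm 0 w n) = 1 := by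
    rw [mul_comm, Complex.mul_conj, Complex.normSq_eq_norm_sq, Pool.Agent.W690.TL.norm_nit]
    norm_num
  have h4 : starRingEnd ℂ (nit τ (rq w n)) * nit τ (rq w n) = 1 := by
    rw [mul_comm, Complex.mul_conj, Complex.normSq_eq_norm_sq, Pool.Agent.W690.TL.norm_nit]
    norm_num
  have h5 : χ ((rq w n : ℕ) : ZMod q) * starRingEnd ℂ (χ ((rq w n : ℕ) : ZMod q)) = 1 := by
    rw [Complex.mul_conj, Complex.normSq_eq_norm_sq, norm_chi_one χ (rq_coprime hn hq hqw)]
    norm_num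
  unfold AA uu
  rw [h1, h2, map_mul]
  calc f (sm 0 w n) * f (rq w n) = f (sm 0 w n) * f (rq w n) * 1 * 1 * 1 := by ring
    _ = f (sm 0 w n) * f (rq w n) * (starRingEnd ℂ (nit τ (sm 0 w n)) * nit τ (sm 0 w n)) *
        (starRingEnd ℂ (nit τ (rq w n)) * nit τ (rq w n)) *
        (χ ((rq w n : ℕ) : ZMod q) * starRingEnd ℂ (χ ((rq w n : ℕ) : ZMod q))) := by
        rw [h3, h4, h5]
    _ = _ := by ring

open Classical in
/-- the periodic factor, truncated -/
noncomputable def AT {q : ℕ} (f : ℕ → ℂ) (χ : DirichletCharacter ℂ q) (τ : ℝ) (w V n : ℕ) : ℂ :=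
  if ∀ l ∈ PP 0 w, ¬ l ^ V ∣ n then AA f χ τ w n else 0

lemma norm_AT {q : ℕ} {f : ℕ → ℂ} (hf : Mul1 f) (χ : DirichletCharacter ℂ q) (τ : ℝ) (w V n : ℕ) :
    ‖AT f χ τ w V n‖ ≤ 1 := by
  unfold AT
  split_ifs
  · exact norm_AA hf χ τ w n
  · simp

lemma AT_per {q : ℕ} {f : ℕ → ℂ} (χ : DirichletCharacter ℂ q) (τ : ℝ) {w V : ℕ}
    (hw : 2 ≤ w) (n : ℕ) : AT f χ τ w V (n + q * QQ w V) = AT f χ τ w V n := by
  have h2 : 2 ∈ PP 0 w := mPP.2 ⟨⟨by norm_num, hw⟩, Nat.prime_two⟩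
  have hiff : (∀ l ∈ PP 0 w, ¬ l ^ V ∣ n + q * QQ w V) ↔ ∀ l ∈ PP 0 w, ¬ l ^ V ∣ n := by
    refine forall₂_congr fun l hl => not_congr ?_
    exact (Nat.dvd_add_iff_left
      ((Pool.Agent.W208.TL.pow_dvd_QQ hl).mul_left q)).symm
  unfold AT
  simp only [hiff]
  split_ifs with h
  · have hn : n ≠ 0 := by
      rintro rfl
      exact h 2 h2 (dvd_zero _)
    have hn' : n + q * QQ w V ≠ 0 := by omega
    have e1 := Pool.Agent.W208.TL.gcd_QQ h
    have e2 := Pool.Agent.W208.TL.gcd_QQ (hiff.2 h)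
    have e3 : Nat.gcd (n + q * QQ w V) (QQ w V) = Nat.gcd n (QQ w V) := by
      rw [Nat.gcd_add_mul_right_left]
    have e4 : sm 0 w (n + q * QQ w V) = sm 0 w n := by rw [← e1, ← e2, e3]
    have e5 : (rq w (n + q * QQ w V) : ZMod q) = (rq w n : ZMod q) := by
      rw [ZMod.natCast_eq_natCast_iff]
      have h5 := split_rq (w := w) hn
      have h6 := split_rq (w := w) hn'
      rw [e4] at h6
      obtain ⟨c, hc⟩ : sm 0 w n ∣ QQ w V := by rw [← e1]; exact Nat.gcd_dvd_right _ _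
      have h7 : sm 0 w n * rq w (n + q * QQ w V) = sm 0 w n * (rq w n + q * c) := by
        rw [h6, mul_add, h5, hc]
        ring
      have h8 := Nat.eq_of_mul_eq_mul_left (Nat.pos_of_ne_zero (sm_ne 0 w n)) h7
      rw [h8]
      exact (Nat.modEq_iff_dvd.2 (by
        refine ⟨-(c : ℤ), ?_⟩
        push_cast
        ring))
    unfold AA
    rw [e4, e5]
  · rfl

/-- few exceptional integers -/
lemma bad_count (w V N : ℕ) : ((((Ioc 0 N).filter
    (fun n => ∃ l ∈ PP 0 w, l ^ V ∣ n)).card : ℕ) : ℝ) ≤ w * (N / 2 ^ V) := by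
  classical
  have h1 : (Ioc 0 N).filter (fun n => ∃ l ∈ PP 0 w, l ^ V ∣ n) ⊆
      (PP 0 w).biUnion (fun l => (Ioc 0 N).filter (fun n => l ^ V ∣ n)) := by
    intro n hn
    obtain ⟨h1, l, hl, h2⟩ := mem_filter.1 hn
    exact mem_biUnion.2 ⟨l, hl, mem_filter.2 ⟨h1, h2⟩⟩
  have h2 := (card_le_card h1).trans card_biUnion_le
  have h3 : (((∑ l ∈ PP 0 w, ((Ioc 0 N).filter (fun n => l ^ V ∣ n)).card : ℕ)) : ℝ) ≤
      ∑ l ∈ PP 0 w, (N : ℝ) / 2 ^ V := by
    push_cast
    refine sum_le_sum fun l hl => ?_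
    have hl2 := (mPP.1 hl).2.two_le
    rw [Nat.Ioc_filter_dvd_card_eq_div]
    refine (Nat.cast_div_le).trans ?_
    push_cast
    refine div_le_div_of_nonneg_left (by positivity) (by positivity) ?_
    exact pow_le_pow_left₀ (by norm_num) (by exact_mod_cast hl2) V
  have h4 : ((PP 0 w).card : ℝ) ≤ w := by
    have : (PP 0 w).card ≤ w := by
      refine (card_filter_le _ _).trans ?_
      simp
    exact_mod_cast this
  calc _ ≤ (((∑ l ∈ PP 0 w, ((Ioc 0 N).filter (fun n => l ^ V ∣ n)).card : ℕ)) : ℝ) := by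
        exact_mod_cast h2
    _ ≤ _ := h3
    _ = (PP 0 w).card * ((N : ℝ) / 2 ^ V) := by rw [sum_const, nsmul_eq_mul]
    _ ≤ _ := mul_le_mul_of_nonneg_right h4 (by positivity)

/-- approximation -/
theorem approx {q : ℕ} {f : ℕ → ℂ} (hf : Mul1 f) (χ : DirichletCharacter ℂ q) (τ : ℝ)
    {w V y N : ℕ} (hq : 1 ≤ q) (hqw : q ≤ w) (δ : ℝ)
    (hU : ∑ n ∈ Ioc 0 N, ‖uu f χ τ (rq w n) - uu f χ τ (rq w (sm 0 y n))‖ ≤ δ * N) :
    ∑ n ∈ Ioc 0 N, ‖f n - AT f χ τ w V n * nit τ n * uu f χ τ (sm w y n)‖ ≤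
      (δ + w / 2 ^ V) * N := by
  classical
  have h1 : ∀ n ∈ Ioc 0 N, ‖f n - AT f χ τ w V n * nit τ n * uu f χ τ (sm w y n)‖ ≤
      ‖uu f χ τ (rq w n) - uu f χ τ (rq w (sm 0 y n))‖ +
        (if ∃ l ∈ PP 0 w, l ^ V ∣ n then (1 : ℝ) else 0) := by
    intro n hn
    have hn0 : n ≠ 0 := by have := (mem_Ioc.1 hn).1; omega
    by_cases h : ∃ l ∈ PP 0 w, l ^ V ∣ n
    · rw [if_pos h]
      have h2 : AT f χ τ w V n = 0 := by
        unfold AT
        rw [if_neg]
        push Not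
        exact h
      rw [h2, zero_mul, zero_mul, sub_zero]
      have := hf.1 n
      have := norm_nonneg (uu f χ τ (rq w n) - uu f χ τ (rq w (sm 0 y n)))
      linarith
    · rw [if_neg h, add_zero]
      have h2 : AT f χ τ w V n = AA f χ τ w n := by
        unfold AT
        rw [if_pos]
        push Not at h
        exact h
      rw [h2, rq_sm]
      conv_lhs => rw [f_eq hf χ τ hq hqw hn0]
      rw [← mul_sub, norm_mul, norm_mul, Pool.Agent.W690.TL.norm_nit, mul_one]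
      exact mul_le_of_le_one_left (norm_nonneg _) (norm_AA hf χ τ w n)
  refine (sum_le_sum h1).trans ?_
  rw [sum_add_distrib, add_mul]
  refine add_le_add hU ?_
  rw [← sum_filter, sum_const, nsmul_eq_mul, mul_one]
  refine (bad_count w V N).trans (le_of_eq (by ring))

end Pool.Agent.K9h46
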