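import Pool.Agent.K9h46.Nr1

/-!
Correlations of a multiplicative function close to a twisted character on the large primes with
itself: the mean over the residue classes.
-/

set_option autoImplicit false

namespace Pool.Agent.K9h46

open Finset Filter
open Pool.Agent.W208.TL (PP sm mu Mul1 nit QQ NEAR lf Indep CLAIM)

/-- `conj` if `b` -/
noncomputable def cjb (b : Bool) (z : ℂ) : ℂ := if b = true then starRingEnd ℂ z else z

lemma norm_cjb (b : Bool) (z : ℂ) : ‖cjb b z‖ = ‖z‖ := by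
  unfold cjb
  split_ifs
  · exact RCLike.norm_conj z
  · rfl

lemma cjb_mul (b : Bool) (x y : ℂ) : cjb b (x * y) = cjb b x * cjb b y := by
  unfold cjb
  split_ifs
  · exact map_mul _ _ _
  · rfl

lemma cjb_sub (b : Bool) (x y : ℂ) : cjb b x - cjb b y = cjb b (x - y) := by
  unfold cjb
  split_ifs
  · exact (map_sub _ _ _).symm
  · rfl

lemma cjb_sum (b : Bool) {ι : Type} (s : Finset ι) (x : ι → ℂ) :
    cjb b (∑ i ∈ s, x i) = ∑ i ∈ s, cjb b (x i) := by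
  unfold cjb
  split_ifs
  · exact map_sum _ _ _
  · rfl

lemma cjb_real (b : Bool) (x : ℝ) : cjb b (x : ℂ) = x := by
  unfold cjb
  split_ifs
  · exact Complex.conj_ofReal x
  · rfl

/-- product of the means -/
lemma box_prod {J : ℕ} (c : Fin J → Bool) (u : ℕ → ℂ) (w y Z : ℕ) :
    ‖∑ d ∈ Pool.Agent.W208.TL.box J Z, (∏ i, cjb (c i) (u (d i))) * ∏ i, (mu w y (d i) : ℂ)‖ =
      ‖∑ d ∈ Icc 1 Z, u d * (mu w y d : ℂ)‖ ^ J := by
  have h1 : ∑ d ∈ Pool.Agent.W208.TL.box J Z, (∏ i, cjb (c i) (u (d i))) * ∏ i, (mu w y (d i) : ℂ) =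
      ∏ i, cjb (c i) (∑ d ∈ Icc 1 Z, u d * (mu w y d : ℂ)) := by
    simp only [cjb_sum, cjb_mul, cjb_real]
    unfold Pool.Agent.W208.TL.box
    rw [prod_univ_sum]
    refine sum_congr rfl fun d _ => ?_
    rw [prod_mul_distrib]
  rw [h1, norm_prod]
  simp only [norm_cjb]
  rw [prod_const, card_univ, Fintype.card_fin]

lemma lf_one (h m : ℕ) : lf 1 (h : ℤ) m = m + h := by
  unfold lf
  have : ((1 : ℕ) : ℤ) * m + h = ((m + h : ℕ) : ℤ) := by push_cast; ring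
  rw [this, Int.natAbs_natCast]

lemma indep_shift {J : ℕ} (h : Fin J → ℕ) (hh : Function.Injective h) {w : ℕ}
    (hw : ∀ i, h i ≤ w) : Indep w (fun _ : Fin J => 1) (fun i => (h i : ℤ)) := by
  refine ⟨fun _ => le_rfl, fun l hl hwl => ⟨fun _ h1 => hl.one_lt.ne' (Nat.dvd_one.1 h1), ?_⟩⟩
  intro i j hij h1
  have h2 : (l : ℤ) ∣ (h j : ℤ) - h i := by simpa using h1
  have h3 : (h j : ℤ) - h i ≠ 0 := by
    intro h4
    apply hij
    apply hh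
    omega
  have h4 := Int.le_of_dvd (abs_pos.2 h3) ((dvd_abs _ _).2 h2)
  have h5 := hw i
  have h6 := hw j
  have h7 : |(h j : ℤ) - h i| ≤ w := by
    rw [abs_le]
    constructor <;> omega
  omega

/-- the sum over the integers up to `M` of the product of the periodic factors and the functions of
the `(w, y]`-parts -/
lemma main_sum {J : ℕ} (hJ : 1 ≤ J) (h : Fin J → ℕ) (c : Fin J → Bool) {w y M K1 : ℕ} {Q : ℕ}
    (hQ : 1 ≤ Q) (hM : 1 ≤ M) (u : ℕ → ℂ) (η S : ℝ)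
    (hS : ‖∑ d ∈ Icc 1 (y ^ K1), u d * (mu w y d : ℂ)‖ ≤ S) (hS1 : S ≤ 1)
    (hcl : ∀ b : ℕ, ‖((Q : ℂ) / (M : ℂ)) * ∑ m ∈ (Ioc 0 M).filter (fun m => m ≡ b [MOD Q]),
          ∏ i, cjb (c i) (u (sm w y (m + h i))) -
        ∑ d ∈ Pool.Agent.W208.TL.box J (y ^ K1), (∏ i, cjb (c i) (u (d i))) * ∏ i, (mu w y (d i) : ℂ)‖ ≤ η)
    (D : ℕ → ℂ) (hD : ∀ n, D (n + Q) = D n) (hD1 : ∀ n, ‖D n‖ ≤ 1) :
    ‖∑ n ∈ Ioc 0 M, (∏ i, cjb (c i) (u (sm w y (n + h i)))) * D n‖ ≤ (S + η) * M := by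
  have hQr : (0 : ℝ) < Q := by exact_mod_cast hQ
  have hMr : (0 : ℝ) < M := by exact_mod_cast hM
  have h1 : ∀ b : ℕ, ‖∑ m ∈ (Ioc 0 M).filter (fun m => m ≡ b [MOD Q]),
      ∏ i, cjb (c i) (u (sm w y (m + h i)))‖ ≤ (S + η) * M / Q := by
    intro b
    have h2 := hcl b
    obtain ⟨Y, hY⟩ : ∃ Y : ℂ, Y = ∑ m ∈ (Ioc 0 M).filter (fun m => m ≡ b [MOD Q]),
      ∏ i, cjb (c i) (u (sm w y (m + h i))) := ⟨_, rfl⟩
    rw [← hY] at h2 ⊢
    obtain ⟨B, hB⟩ : ∃ B : ℂ, B = ∑ d ∈ Pool.Agent.W208.TL.box J (y ^ K1), (∏ i, cjb (c i) (u (d i))) *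
      ∏ i, (mu w y (d i) : ℂ) := ⟨_, rfl⟩
    have hBn : ‖B‖ ≤ S := by
      rw [hB, box_prod]
      have h3 : 0 ≤ ‖∑ d ∈ Icc 1 (y ^ K1), u d * (mu w y d : ℂ)‖ := norm_nonneg _
      calc _ ≤ ‖∑ d ∈ Icc 1 (y ^ K1), u d * (mu w y d : ℂ)‖ ^ 1 :=
            pow_le_pow_of_le_one h3 (hS.trans hS1) hJ
        _ ≤ S := by rw [pow_one]; exact hS
    rw [← hB] at h2
    have h4 : ‖((Q : ℂ) / (M : ℂ)) * Y‖ ≤ S + η := by
      have := norm_add_le (((Q : ℂ) / (M : ℂ)) * Y - B) B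
      rw [sub_add_cancel] at this
      linarith
    rw [norm_mul, norm_div, Complex.norm_natCast, Complex.norm_natCast] at h4
    rw [le_div_iff₀ hQr]
    have h5 : (Q : ℝ) / M * ‖Y‖ = ‖Y‖ * Q / M := by ring
    rw [h5, div_le_iff₀ hMr] at h4
    exact h4
  have h2 := Pool.Agent.W690.TL.class_sum (fun n => ∏ i, cjb (c i) (u (sm w y (n + h i)))) D Q M hQ
    hD hD1 ((S + η) * M / Q) h1
  refine h2.trans (le_of_eq ?_)
  field_simp

/-- one scale -/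
lemma one_scale {J : ℕ} (hJ : 1 ≤ J) (h : Fin J → ℕ) (c : Fin J → Bool)
    (hbal : ∀ z : ℂ, ‖z‖ = 1 → ∏ i, cjb (c i) z = 1) {H : ℕ} (hH : ∀ i, h i ≤ H) {q : ℕ}
    (hq : 1 ≤ q) {f : ℕ → ℂ} (hf : Mul1 f) (χ : DirichletCharacter ℂ q) (τ : ℝ)
    {w V y N M K1 : ℕ} (hqw : q ≤ w) (hw2 : 2 ≤ w) (hMN : M + H = N) (hM : 1 ≤ M)
    (δ η S : ℝ)
    (hU : ∑ n ∈ Ioc 0 N, ‖uu f χ τ (rq w n) - uu f χ τ (rq w (sm 0 y n))‖ ≤ δ * N)
    (hS : ‖∑ d ∈ Icc 1 (y ^ K1), uu f χ τ d * (mu w y d : ℂ)‖ ≤ S) (hS1 : S ≤ 1)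
    (hcl : ∀ b : ℕ, ‖(((q * QQ w V : ℕ) : ℂ) / (M : ℂ)) *
          ∑ m ∈ (Ioc 0 M).filter (fun m => m ≡ b [MOD (q * QQ w V)]),
          ∏ i, cjb (c i) (uu f χ τ (sm w y (m + h i))) -
        ∑ d ∈ Pool.Agent.W208.TL.box J (y ^ K1), (∏ i, cjb (c i) (uu f χ τ (d i))) * ∏ i, (mu w y (d i) : ℂ)‖ ≤ η) :
    ‖∑ n ∈ Ioc 0 N, ∏ i, cjb (c i) (f (n + h i))‖ ≤
      H + J * ((δ + w / 2 ^ V) * N) + J * (|τ| * H * (1 + Real.log N)) + (S + η) * M := by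
  classical
  obtain ⟨u, hu⟩ : ∃ u : ℕ → ℂ, u = uu f χ τ := ⟨_, rfl⟩
  have hum : Mul1 u := by rw [hu]; exact uu_mul1 hf χ τ
  obtain ⟨a, ha⟩ : ∃ a : ℕ → ℂ, a = AT f χ τ w V := ⟨_, rfl⟩
  have ha1 : ∀ n, ‖a n‖ ≤ 1 := fun n => by rw [ha]; exact norm_AT hf χ τ w V n
  obtain ⟨F, hF⟩ : ∃ F : ℕ → ℝ, F = fun n => ‖f n - a n * nit τ n * u (sm w y n)‖ := ⟨_, rfl⟩
  have hFs : ∑ n ∈ Ioc 0 N, F n ≤ (δ + w / 2 ^ V) * N := by
    rw [hF, ha, hu]
    exact approx hf χ τ hq hqw δ hU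
  -- trimming
  have h0 : ∑ n ∈ Ioc 0 N, ∏ i, cjb (c i) (f (n + h i)) =
      ∑ n ∈ Ioc 0 M, ∏ i, cjb (c i) (f (n + h i)) + ∑ n ∈ Ioc M N, ∏ i, cjb (c i) (f (n + h i)) := by
    rw [← sum_union]
    · congr 1
      ext n
      simp only [mem_union, mem_Ioc]
      omega
    · rw [disjoint_left]
      intro n h1 h2
      simp only [mem_Ioc] at h1 h2
      omega
  have hP1 : ∀ n, ‖∏ i, cjb (c i) (f (n + h i))‖ ≤ 1 := fun n => by
    rw [norm_prod]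
    exact prod_le_one (fun _ _ => norm_nonneg _) fun i _ => by rw [norm_cjb]; exact hf.1 _
  have h1 : ‖∑ n ∈ Ioc M N, ∏ i, cjb (c i) (f (n + h i))‖ ≤ H := by
    refine (norm_sum_le _ _).trans ((sum_le_card_nsmul _ _ 1 fun n _ => hP1 n).trans ?_)
    rw [Nat.card_Ioc, nsmul_eq_mul, mul_one]
    have : N - M = H := by omega
    rw [this]
  -- the three products
  have hnit : ∀ n, ‖nit τ n‖ = 1 := Pool.Agent.W690.TL.norm_nit τ
  obtain ⟨R, hR⟩ : ∃ R : ℕ → ℂ, R = fun n => ∏ i, cjb (c i)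
    (a (n + h i) * nit τ (n + h i) * u (sm w y (n + h i))) := ⟨_, rfl⟩
  obtain ⟨T, hT⟩ : ∃ T : ℕ → ℂ, T = fun n => ∏ i, cjb (c i)
    (a (n + h i) * nit τ n * u (sm w y (n + h i))) := ⟨_, rfl⟩
  have hB : ∀ x y' z : ℂ, ‖x‖ ≤ 1 → ‖y'‖ = 1 → ‖z‖ ≤ 1 → ‖x * y' * z‖ ≤ 1 := by
    intro x y' z hx hy hz
    rw [norm_mul, norm_mul, hy, mul_one]
    exact mul_le_one₀ hx (norm_nonneg _) hz
  have hPR : ∀ n, ‖∏ i, cjb (c i) (f (n + h i)) - R n‖ ≤ ∑ i, F (n + h i) := by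
    intro n
    rw [hR, hF]
    refine (Pool.Agent.W690.TL.prod_sub_prod univ _ _ (fun i _ => ?_) (fun i _ => ?_)).trans ?_
    · rw [norm_cjb]; exact hf.1 _
    · rw [norm_cjb]; exact hB _ _ _ (ha1 _) (hnit _) (hum.1 _)
    · refine sum_le_sum fun i _ => ?_
      rw [cjb_sub, norm_cjb]
  have hRT : ∀ n, 1 ≤ n → ‖R n - T n‖ ≤ J * (|τ| * (H / n)) := by
    intro n hn
    rw [hR, hT]
    refine (Pool.Agent.W690.TL.prod_sub_prod univ _ _ (fun i _ => ?_) (fun i _ => ?_)).trans ?_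
    · rw [norm_cjb]; exact hB _ _ _ (ha1 _) (hnit _) (hum.1 _)
    · rw [norm_cjb]; exact hB _ _ _ (ha1 _) (hnit _) (hum.1 _)
    · refine (sum_le_card_nsmul _ _ (|τ| * (H / n)) fun i _ => ?_).trans ?_
      · rw [cjb_sub, norm_cjb]
        have e : a (n + h i) * nit τ (n + h i) * u (sm w y (n + h i)) -
            a (n + h i) * nit τ n * u (sm w y (n + h i)) =
            (a (n + h i) * u (sm w y (n + h i))) * (nit τ (n + h i) - nit τ n) := by ring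
        rw [e, norm_mul, norm_mul]
        have e1 : ‖a (n + h i)‖ * ‖u (sm w y (n + h i))‖ ≤ 1 :=
          mul_le_one₀ (ha1 _) (norm_nonneg _) (hum.1 _)
        refine (mul_le_of_le_one_left (norm_nonneg _) e1).trans ?_
        refine (Pool.Agent.W690.TL.nit_sub_le τ _ _).trans ?_
        refine mul_le_mul_of_nonneg_left ?_ (abs_nonneg _)
        have := Pool.Agent.W690.TL.log_diff (n := n) (a := 0) (b := h i) (H := H) hn (Nat.zero_le _)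
          (hH i)
        simpa using this
      · rw [card_univ, Fintype.card_fin, nsmul_eq_mul]
  have hTe : ∀ n, T n = (∏ i, cjb (c i) (u (sm w y (n + h i)))) * ∏ i, cjb (c i) (a (n + h i)) := by
    intro n
    rw [hT]
    dsimp only
    have e : ∀ i, cjb (c i) (a (n + h i) * nit τ n * u (sm w y (n + h i))) =
        cjb (c i) (a (n + h i)) * cjb (c i) (nit τ n) * cjb (c i) (u (sm w y (n + h i))) :=
      fun i => by rw [cjb_mul, cjb_mul]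
    rw [prod_congr rfl fun i _ => e i, prod_mul_distrib, prod_mul_distrib, hbal _ (hnit n)]
    ring
  have hTs : ‖∑ n ∈ Ioc 0 M, T n‖ ≤ (S + η) * M := by
    rw [sum_congr rfl fun n _ => hTe n]
    refine main_sum hJ h c (Q := q * QQ w V) (K1 := K1)
      (Nat.mul_pos hq (Pool.Agent.W208.TL.QQ_pos w V)) hM u η S (by rw [hu]; exact hS) hS1
      (by rw [hu]; exact hcl) (fun n => ∏ i, cjb (c i) (a (n + h i))) (fun n => ?_) (fun n => ?_)
    · refine prod_congr rfl fun i _ => ?_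
      rw [ha, add_right_comm, AT_per χ τ hw2]
    · rw [norm_prod]
      exact prod_le_one (fun _ _ => norm_nonneg _) fun i _ => by rw [norm_cjb]; exact ha1 _
  have hPRs : ‖∑ n ∈ Ioc 0 M, (∏ i, cjb (c i) (f (n + h i)) - R n)‖ ≤
      J * ((δ + w / 2 ^ V) * N) := by
    refine (norm_sum_le _ _).trans ((sum_le_sum fun n _ => hPR n).trans ?_)
    rw [sum_comm]
    refine (sum_le_card_nsmul _ _ ((δ + w / 2 ^ V) * N) fun i _ => ?_).trans ?_
    · have e := Pool.Agent.W690.TL.sum_shift_le F (fun n => by rw [hF]; exact norm_nonneg _) (X := M)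
        (hH i)
      rw [hMN] at e
      exact e.trans hFs
    · rw [card_univ, Fintype.card_fin, nsmul_eq_mul]
  have hRTs : ‖∑ n ∈ Ioc 0 M, (R n - T n)‖ ≤ J * (|τ| * H * (1 + Real.log N)) := by
    refine (norm_sum_le _ _).trans ((sum_le_sum fun n hn => hRT n (mem_Ioc.1 hn).1).trans ?_)
    have e1 : ∑ n ∈ Ioc 0 M, (J : ℝ) * (|τ| * (H / n)) =
        J * (|τ| * H * ∑ n ∈ Ioc 0 M, (1 : ℝ) / n) := by
      rw [mul_sum, mul_sum]
      exact sum_congr rfl fun n _ => by ring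
    rw [e1]
    refine mul_le_mul_of_nonneg_left ?_ (by positivity)
    refine mul_le_mul_of_nonneg_left ?_ (by positivity)
    refine (Pool.Agent.W690.TL.sum_inv_le).trans ?_
    have : Real.log M ≤ Real.log N := Real.log_le_log (by exact_mod_cast hM)
      (by exact_mod_cast (by omega : M ≤ N))
    linarith
  have hfin : ∑ n ∈ Ioc 0 M, ∏ i, cjb (c i) (f (n + h i)) =
      ∑ n ∈ Ioc 0 M, (∏ i, cjb (c i) (f (n + h i)) - R n) + ∑ n ∈ Ioc 0 M, (R n - T n) +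
        ∑ n ∈ Ioc 0 M, T n := by
    rw [← sum_add_distrib, ← sum_add_distrib]
    exact sum_congr rfl fun n _ => by ring
  rw [h0, hfin]
  refine (norm_add_le _ _).trans ?_
  have e2 := norm_add₃_le (a := ∑ n ∈ Ioc 0 M, (∏ i, cjb (c i) (f (n + h i)) - R n))
    (b := ∑ n ∈ Ioc 0 M, (R n - T n)) (c := ∑ n ∈ Ioc 0 M, T n)
  linarith

end Pool.Agent.K9h46
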