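import Pool.Agent.K9h46.Nr2
import Pool.Agent.W975.TLTail
import Pool.Agent.W591.TL.Law

/-!
Correlations of a multiplicative function close to a twisted character on the large primes with
itself: choice of the parameters.
-/

set_option autoImplicit false

namespace Pool.Agent.K9h46

open Finset Filter
open Pool.Agent.W208.TL (PP sm mu Mul1 nit QQ NEAR lf Indep CLAIM)

lemma claim_all : CLAIM :=
  Pool.Agent.W479.TLClaim.claim Pool.Agent.W591.TL.law Pool.Agent.W975.TL.tail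

lemma sqrt_cond (C ε : ℝ) (hε : 0 < ε) : ∃ N₁ : ℕ, ∀ N : ℕ, N₁ ≤ N →
    C * (1 + Real.log N) ≤ ε * √N := by
  have h1 := (isLittleO_log_rpow_atTop (r := 1 / 2) (by norm_num)).bound
    (show 0 < ε / 2 / (|C| + 1) by positivity)
  have h2 : ∀ᶠ N : ℕ in atTop, ‖Real.log N‖ ≤ ε / 2 / (|C| + 1) * ‖(N : ℝ) ^ (1 / 2 : ℝ)‖ :=
    tendsto_natCast_atTop_atTop.eventually h1
  have h3 : ∀ᶠ N : ℕ in atTop, (2 * |C| / ε) ^ 2 ≤ (N : ℝ) :=
    tendsto_natCast_atTop_atTop.eventually_ge_atTop _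
  obtain ⟨N₁, hN₁⟩ := eventually_atTop.1 (h2.and h3)
  refine ⟨N₁, fun N hN => ?_⟩
  obtain ⟨h4, h5⟩ := hN₁ N hN
  rw [← Real.sqrt_eq_rpow, Real.norm_eq_abs, Real.norm_of_nonneg (Real.sqrt_nonneg _)] at h4
  have h6 : 2 * |C| / ε ≤ √N := Real.le_sqrt_of_sq_le h5
  rw [div_le_iff₀ hε] at h6
  have hC := abs_nonneg C
  have hs := Real.sqrt_nonneg (N : ℝ)
  have h7 : |C| * |Real.log N| ≤ ε / 2 * √N := by
    calc |C| * |Real.log N| ≤ |C| * (ε / 2 / (|C| + 1) * √N) := by gcongr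
      _ = (|C| / (|C| + 1)) * (ε / 2 * √N) := by field_simp
      _ ≤ 1 * (ε / 2 * √N) := by
        gcongr
        rw [div_le_one (by positivity)]; linarith
      _ = _ := one_mul _
  have h8 : C * (1 + Real.log N) ≤ |C| + |C| * |Real.log N| := by
    calc C * (1 + Real.log N) ≤ |C * (1 + Real.log N)| := le_abs_self _
      _ = |C| * |1 + Real.log N| := abs_mul _ _
      _ ≤ |C| * (1 + |Real.log N|) := by
          gcongr
          refine (abs_add_le _ _).trans ?_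
          rw [abs_one]
      _ = _ := by ring
  linarith

lemma term_nonneg {u : ℕ → ℂ} (hu : Mul1 u) (p : ℕ) : 0 ≤ (1 - (u p).re) / (p : ℝ) :=
  div_nonneg (Pool.Agent.W690.TL.one_sub_re_nonneg hu p) (Nat.cast_nonneg _)

lemma PP_mono_sum {u : ℕ → ℂ} (hu : Mul1 u) {a b a' b' : ℕ} (ha : a' ≤ a) (hb : b ≤ b') :
    ∑ p ∈ PP a b, (1 - (u p).re) / (p : ℝ) ≤ ∑ p ∈ PP a' b', (1 - (u p).re) / (p : ℝ) := by
  refine sum_le_sum_of_subset_of_nonneg ?_ fun p _ _ => term_nonneg hu p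
  intro p hp
  rw [mPP] at hp ⊢
  exact ⟨⟨by omega, by omega⟩, hp.2⟩

lemma PP_small {u : ℕ → ℂ} (hu : Mul1 u) (w : ℕ) :
    ∑ p ∈ PP 0 w, (1 - (u p).re) / (p : ℝ) ≤ w := by
  refine (sum_le_card_nsmul _ _ 1 fun p hp => ?_).trans ?_
  · have h2 : (2 : ℝ) ≤ p := by exact_mod_cast (mPP.1 hp).2.two_le
    rw [div_le_one (by linarith)]
    exact (Pool.Agent.W690.TL.one_sub_re_le hu p).trans h2
  · rw [nsmul_eq_mul, mul_one]
    have : (PP 0 w).card ≤ w := by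
      refine (card_filter_le _ _).trans ?_
      simp
    exact_mod_cast this

theorem nat_avg (J : ℕ) (hJ : 1 ≤ J) (h : Fin J → ℕ) (hh : Function.Injective h) (c : Fin J → Bool)
    (hbal : ∀ z : ℂ, ‖z‖ = 1 → ∏ i, cjb (c i) z = 1) (m : ℕ) (hm : 1 ≤ m) (ε : ℝ) (hε : 0 < ε)
    (hε1 : ε ≤ 1) :
    ∃ K : ℕ, 1 ≤ K ∧ ∀ q : ℕ, 1 ≤ q → ∃ (A : ℝ) (X₀ : ℕ), ∀ X N y : ℕ, X₀ ≤ X → N ≤ X → X ≤ N ^ m →
      y ^ K ≤ X → ∀ (f : ℕ → ℂ) (χ : DirichletCharacter ℂ q) (τ : ℝ), Mul1 f → |τ| ^ K ≤ X →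
      A ≤ ∑ p ∈ PP 0 y, (1 - (uu f χ τ p).re) / p →
      ∑ p ∈ PP y X, (1 - (uu f χ τ p).re) / p ≤ 1 / K →
      ‖∑ n ∈ Ioc 0 N, ∏ i, cjb (c i) (f (n + h i))‖ ≤ ε * N := by
  classical
  obtain ⟨H, hHdef⟩ : ∃ H : ℕ, H = ∑ j, h j := ⟨_, rfl⟩
  have hH : ∀ i, h i ≤ H := fun i => by
    rw [hHdef]
    exact single_le_sum (f := h) (fun _ _ => Nat.zero_le _) (mem_univ i)
  have hJ0 : (0 : ℝ) < J := by exact_mod_cast hJ
  obtain ⟨K1, Kc, w0, hK1, hKc, hclaim⟩ := claim_all J hJ (ε / 8) (by positivity)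
  obtain ⟨K₁, hK₁⟩ : ∃ K₁ : ℕ, K₁ = 2 * m * Kc := ⟨_, rfl⟩
  have hK₁m : 2 * m ≤ K₁ := by rw [hK₁]; exact Nat.le_mul_of_pos_right _ hKc
  obtain ⟨δ₁, hδ₁, yn, hnear⟩ := Pool.Agent.W290.TL.near (2 * K₁) (ε / (16 * J)) (by omega)
    (by positivity)
  obtain ⟨K₂, hK₂⟩ := exists_nat_ge (1 / δ₁)
  refine ⟨max K₁ K₂, le_max_of_le_left (by omega), fun q hq => ?_⟩
  obtain ⟨w, hw⟩ : ∃ w : ℕ, w = max (max w0 q) (max 2 H) := ⟨_, rfl⟩
  have hw0 : w0 ≤ w := by rw [hw]; exact le_max_of_le_left (le_max_left _ _)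
  have hwq : q ≤ w := by rw [hw]; exact le_max_of_le_left (le_max_right _ _)
  have hw2 : 2 ≤ w := by rw [hw]; exact le_max_of_le_right (le_max_left _ _)
  have hwH : H ≤ w := by rw [hw]; exact le_max_of_le_right (le_max_right _ _)
  obtain ⟨V, hV⟩ : ∃ V : ℕ, (w : ℝ) / 2 ^ V ≤ ε / (16 * J) := by
    obtain ⟨V, hV⟩ := pow_unbounded_of_one_lt (w / (ε / (16 * J))) (by norm_num : (1 : ℝ) < 2)
    refine ⟨V, ?_⟩
    rw [div_lt_iff₀ (by positivity)] at hV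
    rw [div_le_iff₀ (by positivity)]
    linarith
  have hQprimes : ∀ l : ℕ, l.Prime → l ∣ q * QQ w V → l ≤ w := by
    intro l hl hd
    rcases (Nat.Prime.dvd_mul hl).1 hd with h1 | h1
    · exact (Nat.le_of_dvd hq h1).trans hwq
    · exact (mPP.1 (Pool.Agent.W208.TL.QQ_primes hl h1)).1.2
  obtain ⟨yc, hyc⟩ := hclaim w (q * QQ w V) hw0 (Nat.mul_pos hq (Pool.Agent.W208.TL.QQ_pos w V))
    hQprimes
  obtain ⟨N₁, hN₁⟩ := sqrt_cond (J * H) (ε / 8) (by positivity)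
  obtain ⟨N₂, hN₂⟩ := exists_nat_ge (8 * H / ε)
  obtain ⟨Y₀, hY₀⟩ : ∃ Y₀ : ℕ, Y₀ = yn + yc + w + (H + 3) + N₁ + N₂ := ⟨_, rfl⟩
  refine ⟨w + 8 + Real.log (8 / ε), Y₀ ^ K₁, fun X N y hX hNX hXN hyX f χ τ hf hτ hA hδ => ?_⟩
  obtain ⟨u, hu⟩ : ∃ u : ℕ → ℂ, u = uu f χ τ := ⟨_, rfl⟩
  have hum : Mul1 u := by rw [hu]; exact uu_mul1 hf χ τ
  rw [← hu] at hA hδ
  obtain ⟨y₁, hY, hy1, hy2⟩ := Pool.Agent.W690.TL.exists_root (K := K₁) (Y0 := Y₀) (by omega) hX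
  have hy₁3 : 3 ≤ y₁ := by omega
  have hX1 : 1 ≤ X := by
    refine le_trans ?_ hy1
    exact Nat.one_le_pow _ _ (by omega)
  have hN1 : 1 ≤ N := by
    rcases Nat.eq_zero_or_pos N with h0 | h0
    · rw [h0, Nat.zero_pow (by omega)] at hXN
      omega
    · exact h0
  -- y ≤ y₁
  have hyy : y ≤ y₁ := by
    rcases Nat.eq_zero_or_pos y with h0 | h0
    · omega
    · have h1 : y ^ K₁ ≤ y ^ (max K₁ K₂) := Nat.pow_le_pow_right h0 (le_max_left _ _)
      have h2 : y ^ K₁ < (y₁ + 1) ^ K₁ := by omega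
      have := lt_of_pow_lt_pow_left₀ K₁ (Nat.zero_le _) h2
      omega
  -- y₁ ^ (2 Kc) ≤ N
  have hyN : y₁ ^ (2 * Kc) ≤ N := by
    have h1 : (y₁ ^ (2 * Kc)) ^ m ≤ N ^ m := by
      rw [← pow_mul]
      have : 2 * Kc * m = K₁ := by rw [hK₁]; ring
      rw [this]
      exact hy1.trans hXN
    exact (Nat.pow_le_pow_iff_left (by omega)).1 h1
  have hyN1 : y₁ ≤ N := by
    refine le_trans ?_ hyN
    exact Nat.le_self_pow (by omega) _
  have hNy : N ≤ y₁ ^ (2 * K₁) := by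
    refine hNX.trans (hy2.le.trans ?_)
    rw [pow_mul]
    refine Nat.pow_le_pow_left ?_ _
    nlinarith
  have hHN : H ≤ N := by omega
  -- smoothness of the tail
  have hδ' : ∑ p ∈ PP y₁ N, (1 - (u (rq w p)).re) / (p : ℝ) ≤ δ₁ := by
    have h1 : ∑ p ∈ PP y₁ N, (1 - (u (rq w p)).re) / (p : ℝ) =
        ∑ p ∈ PP y₁ N, (1 - (u p).re) / (p : ℝ) := by
      refine sum_congr rfl fun p hp => ?_
      have := mPP.1 hp
      rw [rq_prime this.2 (by omega)]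
    rw [h1]
    refine (PP_mono_sum hum hyy hNX).trans (hδ.trans ?_)
    have h2 : 1 / δ₁ ≤ ((max K₁ K₂ : ℕ) : ℝ) := hK₂.trans (by exact_mod_cast le_max_right _ _)
    rw [div_le_iff₀ hδ₁] at h2
    have h3 : (0 : ℝ) < ((max K₁ K₂ : ℕ) : ℝ) := by
      exact_mod_cast lt_of_lt_of_le (by omega : 0 < K₁) (le_max_left _ _)
    rw [div_le_iff₀ h3]
    linarith
  have hU := hnear y₁ N (by omega) hyN1 hNy (fun n => u (rq w n)) (U_mul1 hum w) hδ'
  obtain ⟨hmu, hcl⟩ := hyc y₁ (by omega)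
  -- the mean
  have hD : 8 + Real.log (8 / ε) ≤ ∑ p ∈ PP w y₁, (1 - (u p).re) / (p : ℝ) := by
    have h1 : ∑ p ∈ PP 0 y, (1 - (u p).re) / (p : ℝ) ≤
        ∑ p ∈ PP 0 w, (1 - (u p).re) / (p : ℝ) + ∑ p ∈ PP w y₁, (1 - (u p).re) / (p : ℝ) := by
      have h2 : PP 0 y ⊆ PP 0 w ∪ PP w y₁ := by
        intro p hp
        rw [mem_union, mPP, mPP]
        have h3 := mPP.1 hp
        by_cases h4 : p ≤ w
        · exact Or.inl ⟨⟨h3.1.1, h4⟩, h3.2⟩
        · exact Or.inr ⟨⟨by omega, by omega⟩, h3.2⟩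
      refine (sum_le_sum_of_subset_of_nonneg h2 fun p _ _ => term_nonneg hum p).trans ?_
      rw [sum_union]
      rw [disjoint_left]
      intro p h3 h4
      have h5 := (mPP.1 h3).1.2
      have h6 := (mPP.1 h4).1.1
      omega
    have h3 := PP_small hum w
    linarith
  have hS : ‖∑ d ∈ Icc 1 (y₁ ^ K1), u d * (mu w y₁ d : ℂ)‖ ≤ ε / 4 := by
    refine (mean_bound u hum (by omega) y₁ (y₁ ^ K1)).trans ?_
    have h1 : Real.exp (8 - ∑ l ∈ PP w y₁, (1 - (u l).re) / l) ≤ ε / 8 := by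
      calc _ ≤ Real.exp (- Real.log (8 / ε)) := Real.exp_le_exp.2 (by linarith)
        _ = ε / 8 := by
            rw [Real.exp_neg, Real.exp_log (by positivity), inv_div]
    linarith
  have hfinal := one_scale hJ h c hbal hH hq hf χ τ (w := w) (V := V) (y := y₁) (N := N)
    (M := N - H) (K1 := K1) hwq hw2 (by omega) (by omega) (ε / (16 * J)) (ε / 8) (ε / 4)
    (by rw [← hu]; exact hU) (by rw [← hu]; exact hS) (by linarith) (by
      intro b
      have h1 := hcl (fun _ => 1) (fun i => (h i : ℤ)) (indep_shift h hh (fun i => (hH i).trans hwH))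
        b (N - H) (by
          have h2 : y₁ ^ (2 * Kc) = y₁ ^ Kc * y₁ ^ Kc := by rw [two_mul, pow_add]
          have h3 : y₁ ≤ y₁ ^ Kc := Nat.le_self_pow (by omega) _
          rw [h2] at hyN
          have h4 : H + y₁ ^ Kc ≤ y₁ ^ Kc * y₁ ^ Kc := by
            have h5 : H + 3 ≤ y₁ ^ Kc := by omega
            calc H + y₁ ^ Kc ≤ (H + 3) * y₁ ^ Kc := by
                  have h6 : H * 1 ≤ H * y₁ ^ Kc := Nat.mul_le_mul_left _ (by omega)
                  rw [add_mul]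
                  omega
              _ ≤ y₁ ^ Kc * y₁ ^ Kc := Nat.mul_le_mul_right _ h5
          omega) (fun d => ∏ i, cjb (c i) (uu f χ τ (d i))) (fun d => by
            rw [norm_prod]
            refine prod_le_one (fun _ _ => norm_nonneg _) fun i _ => ?_
            rw [norm_cjb, ← hu]
            exact hum.1 _)
      simp only [lf_one] at h1
      exact h1)
  refine hfinal.trans ?_
  have hNr : (1 : ℝ) ≤ N := by exact_mod_cast hN1
  have e1 : (H : ℝ) ≤ ε / 8 * N := by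
    have h1 : 8 * H / ε ≤ (N : ℝ) := hN₂.trans (by exact_mod_cast (by omega : N₂ ≤ N))
    rw [div_le_iff₀ hε] at h1
    linarith
  have e2 : (J : ℝ) * ((ε / (16 * J) + w / 2 ^ V) * N) ≤ ε / 8 * N := by
    have h1 : (J : ℝ) * ((ε / (16 * J) + w / 2 ^ V) * N) ≤
        J * ((ε / (16 * J) + ε / (16 * J)) * N) := by gcongr
    refine h1.trans (le_of_eq ?_)
    field_simp
    ring
  have e3 : (J : ℝ) * (|τ| * H * (1 + Real.log N)) ≤ ε / 8 * N := by
    have h1 : |τ| ≤ √N := by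
      by_cases h2 : |τ| ≤ 1
      · refine h2.trans ?_
        rw [Real.one_le_sqrt]
        exact hNr
      · push Not at h2
        apply Real.le_sqrt_of_sq_le
        have h3 : |τ| ^ (2 * m) ≤ |τ| ^ (max K₁ K₂) :=
          pow_le_pow_right₀ h2.le (hK₁m.trans (le_max_left _ _))
        have h4 : (X : ℝ) ≤ (N : ℝ) ^ m := by exact_mod_cast hXN
        have h5 : (|τ| ^ 2) ^ m ≤ (N : ℝ) ^ m := by
          rw [← pow_mul]
          linarith
        exact le_of_pow_le_pow_left₀ (by omega) (by positivity) h5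
    have h2 := hN₁ N (by omega)
    have h3 : 0 ≤ Real.log N := Real.log_nonneg hNr
    calc (J : ℝ) * (|τ| * H * (1 + Real.log N)) = |τ| * (J * H * (1 + Real.log N)) := by ring
      _ ≤ √N * (ε / 8 * √N) := mul_le_mul h1 h2 (by positivity) (Real.sqrt_nonneg _)
      _ = ε / 8 * N := by
          have := Real.mul_self_sqrt (Nat.cast_nonneg (α := ℝ) N)
          linear_combination ε / 8 * this
  have e4 : (ε / 4 + ε / 8) * ((N - H : ℕ) : ℝ) ≤ (ε / 4 + ε / 8) * N := by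
    gcongr
    exact Nat.sub_le _ _
  have e5 : 0 ≤ ε * N := by positivity
  linarith

end Pool.Agent.K9h46
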