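import Pool.Agent.K9h46.Nr3
import Pool.Agent.K9h46.Com

/-!
Multiplicative functions close to a twisted character on the large primes, against arbitrary
companions.
-/

set_option autoImplicit false

namespace Pool.Agent.K9h46

open Finset Filter Pool.Agent.Q270.EA Pool.Agent.Q270.EB
open Pool.Agent.W208.TL (PP sm mu Mul1 nit QQ)

lemma bm_mul1 {f : ℕ → ℂ} (hf : BM f) : Mul1 f := hf

lemma bal_prod (k : ℕ) (hk : 1 ≤ k) (z : ℂ) (hz : ‖z‖ = 1) :
    ∏ s : Finset (Fin k), cjb (decide (¬ s.card % 2 = 0)) z = 1 := by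
  classical
  have hzz : z * starRingEnd ℂ z = 1 := by
    rw [Complex.mul_conj, Complex.normSq_eq_norm_sq, hz]
    norm_num
  have hzz' : starRingEnd ℂ z * z = 1 := by rw [mul_comm]; exact hzz
  obtain ⟨i⟩ : Nonempty (Fin k) := ⟨⟨0, by omega⟩⟩
  refine prod_involution (fun s _ => if i ∈ s then s.erase i else insert i s) ?_ ?_ ?_ ?_
  · intro s _
    by_cases hi : i ∈ s
    · simp only [hi, if_true]
      have h1 : (s.erase i).card + 1 = s.card := card_erase_add_one hi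
      unfold cjb
      by_cases h2 : s.card % 2 = 0
      · have h3 : ¬ (s.erase i).card % 2 = 0 := by omega
        simp [h2, h3, hzz]
      · have h3 : (s.erase i).card % 2 = 0 := by omega
        simp only [h2, h3, not_true_eq_false, decide_false, Bool.false_eq_true, if_false,
          not_false_eq_true, decide_true, if_true]
        exact hzz'
    · simp only [hi, if_false]
      have h1 : (insert i s).card = s.card + 1 := card_insert_of_notMem hi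
      unfold cjb
      by_cases h2 : s.card % 2 = 0
      · have h3 : ¬ (insert i s).card % 2 = 0 := by omega
        simp [h2, h3, hzz]
      · have h3 : (insert i s).card % 2 = 0 := by omega
        simp only [h2, h3, not_true_eq_false, decide_false, Bool.false_eq_true, if_false,
          not_false_eq_true, decide_true, if_true]
        exact hzz'
  · intro s _ _
    by_cases hi : i ∈ s
    · simp only [hi, if_true]
      intro h
      rw [← h] at hi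
      simp at hi
    · simp only [hi, if_false]
      intro h
      exact hi (by rw [← h]; simp)
  · intro s _
    exact mem_univ _
  · intro s _
    by_cases hi : i ∈ s
    · simp [hi]
    · simp [hi]

/-- the correlations along the cubes at the scales between `X ^ (1 / m)` and `X` -/
theorem cube_nat (k : ℕ) (hk : 1 ≤ k) (t : Fin k → ℤ) (ht : ND t) (m : ℕ) (hm : 1 ≤ m) (ε : ℝ)
    (hε : 0 < ε) (hε1 : ε ≤ 1) :
    ∃ K : ℕ, 1 ≤ K ∧ ∀ q : ℕ, 1 ≤ q → ∃ (A : ℝ) (X₀ : ℕ), ∀ X N y : ℕ, X₀ ≤ X → N ≤ X → X ≤ N ^ m →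
      y ^ K ≤ X → ∀ (f : ℕ → ℂ) (χ : DirichletCharacter ℂ q) (τ : ℝ), BM f → |τ| ^ K ≤ X →
      A ≤ ∑ p ∈ PP 0 y, (1 - (uu f χ τ p).re) / p →
      ∑ p ∈ PP y X, (1 - (uu f χ τ p).re) / p ≤ 1 / K →
      ‖(1 / (N : ℂ)) * ∑ n ∈ Icc 1 N, CU k t (fun x => f x.toNat) n‖ ≤ ε := by
  classical
  obtain ⟨c, hc⟩ : ∃ c : ℕ, c = ∑ i, (t i).natAbs := ⟨_, rfl⟩
  have hct : ∀ s : Finset (Fin k), 0 ≤ (∑ i ∈ s, t i) + c := by
    intro s
    have h3 : |∑ i ∈ s, t i| ≤ ((∑ i, (t i).natAbs : ℕ) : ℤ) := by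
      refine (abs_sum_le_sum_abs _ _).trans ?_
      push_cast
      exact sum_le_sum_of_subset_of_nonneg (subset_univ _) fun _ _ _ => abs_nonneg _
    rw [hc]
    linarith [(abs_le.1 h3).1]
  obtain ⟨e⟩ : Nonempty (Finset (Fin k) ≃ Fin (Fintype.card (Finset (Fin k)))) :=
    ⟨Fintype.equivFin _⟩
  obtain ⟨K, hK, hmain⟩ := nat_avg (Fintype.card (Finset (Fin k))) Fintype.card_pos
    (fun j => ((∑ i ∈ e.symm j, t i) + c).toNat) (fun a b hab => by
      have h2 : (∑ i ∈ e.symm a, t i) = ∑ i ∈ e.symm b, t i := by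
        have ha := hct (e.symm a)
        have hb := hct (e.symm b)
        simp only at hab
        omega
      exact e.symm.injective (ht h2)) (fun j => decide (¬ (e.symm j).card % 2 = 0)) (by
      intro z hz
      rw [← Equiv.prod_comp e]
      simp only [Equiv.symm_apply_apply]
      exact bal_prod k hk z hz) m hm (ε / 2) (by positivity) (by linarith)
  refine ⟨K, hK, fun q hq => ?_⟩
  obtain ⟨A, X₀, hX₀⟩ := hmain q hq
  obtain ⟨N₂, hN₂⟩ := exists_nat_ge (4 * c / ε)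
  refine ⟨A, max X₀ ((N₂ + 1) ^ m), fun X N y hX hNX hXN hyX f χ τ hf hτ hA hδ => ?_⟩
  have h0 := hX₀ X N y ((le_max_left _ _).trans hX) hNX hXN hyX f χ τ hf hτ hA hδ
  obtain ⟨u, hu⟩ : ∃ u : ℕ → ℂ, u = fun n : ℕ => CU k t (fun x => f x.toNat) n := ⟨_, rfl⟩
  have hu1 : ∀ n, ‖u n‖ ≤ 1 := fun n => by
    rw [hu]
    exact norm_CU_le k t _ (fun x => hf.1 _) _
  have hU : ∀ n : ℕ, ∏ j, cjb (decide (¬ (e.symm j).card % 2 = 0))
      (f (n + ((∑ i ∈ e.symm j, t i) + c).toNat)) = u (n + c) := by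
    intro n
    rw [hu, ← Equiv.prod_comp e]
    unfold CU
    refine prod_congr rfl fun s _ => ?_
    rw [Equiv.symm_apply_apply]
    have h2 : (((n + c : ℕ) : ℤ) + ∑ i ∈ s, t i).toNat = n + ((∑ i ∈ s, t i) + c).toNat := by
      have := hct s
      push_cast
      omega
    dsimp only
    rw [h2]
    unfold cj cjb
    by_cases hs : s.card % 2 = 0
    · simp [hs]
    · simp [hs]
  simp only [hU] at h0
  have h1 := Pool.Agent.W690.TL.shift_sum u hu1 N c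
  have hNN : N₂ + 1 ≤ N := by
    have h2 : (N₂ + 1) ^ m ≤ N ^ m := ((le_max_right _ _).trans hX).trans hXN
    exact (Nat.pow_le_pow_iff_left (by omega)).1 h2
  have hNr : (0 : ℝ) < N := by exact_mod_cast (by omega : 0 < N)
  have h2 : 2 * (c : ℝ) ≤ ε / 2 * N := by
    have h3 : 4 * c / ε ≤ (N : ℝ) := hN₂.trans (by exact_mod_cast (by omega : N₂ ≤ N))
    rw [div_le_iff₀ hε] at h3
    linarith
  have h3 : ‖∑ n ∈ Ioc 0 N, u n‖ ≤ ε * N := by
    have h4 : ∑ n ∈ Ioc 0 N, u n = ∑ n ∈ Ioc 0 N, u (n + c) -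
        (∑ n ∈ Ioc 0 N, u (n + c) - ∑ n ∈ Ioc 0 N, u n) := by ring
    rw [h4]
    refine (norm_sub_le _ _).trans ?_
    linarith
  have h4 : Icc 1 N = Ioc 0 N := by ext n; simp only [mem_Icc, mem_Ioc]; omega
  rw [← hu, h4, norm_mul, norm_div, norm_one, Complex.norm_natCast, one_div, inv_mul_le_iff₀ hNr]
  linarith

lemma log_le_harm (X : ℕ) : Real.log X ≤ ∑ N ∈ Icc 1 X, 1 / (N : ℝ) := by
  rcases Nat.eq_zero_or_pos X with rfl | hX
  · simp
  have h1 := log_add_one_le_harmonic X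
  have h2 : ((harmonic X : ℚ) : ℝ) = ∑ N ∈ Icc 1 X, 1 / (N : ℝ) := by
    rw [harmonic_eq_sum_Icc]
    push_cast
    refine sum_congr rfl fun N _ => by rw [one_div]
  rw [h2] at h1
  refine le_trans ?_ h1
  refine Real.log_le_log (by exact_mod_cast hX) ?_
  push_cast
  linarith

lemma harm_le' (X : ℕ) : ∑ N ∈ Icc 1 X, 1 / (N : ℝ) ≤ 1 + Real.log X := by
  have h1 := harmonic_le_one_add_log X
  have h2 : ((harmonic X : ℚ) : ℝ) = ∑ N ∈ Icc 1 X, 1 / (N : ℝ) := by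
    rw [harmonic_eq_sum_Icc]
    push_cast
    refine sum_congr rfl fun N _ => by rw [one_div]
  rw [h2] at h1
  exact h1

/-- the small scales do not matter -/
lemma AS_split (X m : ℕ) (hX : 2 ≤ X) (hm : 1 ≤ m) (φ : ℕ → ℂ) (hφ : ∀ n, ‖φ n‖ ≤ 1) (δ : ℝ)
    (hδ : 0 ≤ δ) (h : ∀ N : ℕ, N ≤ X → X ≤ N ^ m → ‖(1 / (N : ℂ)) * ∑ n ∈ Icc 1 N, φ n‖ ≤ δ) :
    AS X φ ≤ δ + 1 / m + 1 / Real.log X := by
  classical
  have hlog : 0 < Real.log X := Real.log_pos (by exact_mod_cast (by omega : 1 < X))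
  have hharm := log_le_harm X
  have hpos : 0 < ∑ N ∈ Icc 1 X, 1 / (N : ℝ) := lt_of_lt_of_le hlog hharm
  have hmr : (0 : ℝ) < m := by exact_mod_cast hm
  unfold AS
  rw [div_le_iff₀ hpos]
  obtain ⟨Y, hY1, hY2, hY3⟩ := Pool.Agent.W690.TL.exists_root (K := m) (Y0 := 1) hm (X := X)
    (by rw [one_pow]; omega)
  have h1 : ∀ N ∈ Icc 1 X, (1 / (N : ℝ)) * ‖(1 / (N : ℂ)) * ∑ n ∈ Icc 1 N, φ n‖ ≤
      δ * (1 / (N : ℝ)) + (if N ≤ Y then 1 / (N : ℝ) else 0) := by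
    intro N hN
    have hN' := mem_Icc.1 hN
    have hN0 : (0 : ℝ) < N := by exact_mod_cast hN'.1
    have hle1 : ‖(1 / (N : ℂ)) * ∑ n ∈ Icc 1 N, φ n‖ ≤ 1 := by
      rw [norm_mul, norm_div, norm_one, Complex.norm_natCast, one_div, inv_mul_le_iff₀ hN0, mul_one]
      refine (norm_sum_le _ _).trans ((sum_le_card_nsmul _ _ 1 fun n _ => hφ n).trans ?_)
      rw [Nat.card_Icc, nsmul_eq_mul, mul_one]
      simp
    by_cases hNY : N ≤ Y
    · rw [if_pos hNY]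
      have h2 : (1 / (N : ℝ)) * ‖(1 / (N : ℂ)) * ∑ n ∈ Icc 1 N, φ n‖ ≤ 1 / (N : ℝ) :=
        mul_le_of_le_one_right (by positivity) hle1
      have h3 : 0 ≤ δ * (1 / (N : ℝ)) := by positivity
      linarith
    · rw [if_neg hNY, add_zero, mul_comm δ]
      refine mul_le_mul_of_nonneg_left (h N hN'.2 ?_) (by positivity)
      exact hY3.le.trans (Nat.pow_le_pow_left (by omega) m)
  refine (sum_le_sum h1).trans ?_
  rw [sum_add_distrib, ← mul_sum, ← sum_filter]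
  have h2 : ∑ N ∈ (Icc 1 X).filter (fun N => N ≤ Y), 1 / (N : ℝ) ≤ 1 + Real.log X / m := by
    have h3 : ∑ N ∈ (Icc 1 X).filter (fun N => N ≤ Y), 1 / (N : ℝ) ≤ ∑ N ∈ Icc 1 Y, 1 / (N : ℝ) := by
      refine sum_le_sum_of_subset_of_nonneg ?_ fun _ _ _ => by positivity
      intro N hN
      have := mem_filter.1 hN
      exact mem_Icc.2 ⟨(mem_Icc.1 this.1).1, this.2⟩
    refine h3.trans ((harm_le' Y).trans ?_)
    have h4 : Real.log Y ≤ Real.log X / m := by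
      rw [le_div_iff₀ hmr, mul_comm, ← Real.log_pow]
      exact Real.log_le_log (by positivity) (by exact_mod_cast hY2)
    linarith
  have h5 : (1 : ℝ) + Real.log X / m ≤ (1 / m + 1 / Real.log X) * ∑ N ∈ Icc 1 X, 1 / (N : ℝ) := by
    calc (1 : ℝ) + Real.log X / m = (1 / m + 1 / Real.log X) * Real.log X := by
          field_simp
          ring
      _ ≤ _ := mul_le_mul_of_nonneg_left hharm (by positivity)
  nlinarith

/-- the correlations along one cube -/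
theorem cube_AS (k : ℕ) (hk : 1 ≤ k) (t : Fin k → ℤ) (ht : ND t) (ε : ℝ) (hε : 0 < ε) :
    ∃ K : ℕ, 1 ≤ K ∧ ∀ q : ℕ, 1 ≤ q → ∃ (A : ℝ) (X₀ : ℕ), ∀ X y : ℕ, X₀ ≤ X →
      y ^ K ≤ X → ∀ (f : ℕ → ℂ) (χ : DirichletCharacter ℂ q) (τ : ℝ), BM f → |τ| ^ K ≤ X →
      A ≤ ∑ p ∈ PP 0 y, (1 - (uu f χ τ p).re) / p →
      ∑ p ∈ PP y X, (1 - (uu f χ τ p).re) / p ≤ 1 / K →
      AS X (fun n : ℕ => CU k t (fun x => f x.toNat) n) ≤ ε := by
  obtain ⟨m, hm⟩ := exists_nat_ge (3 / ε)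
  have hm0 : (0 : ℝ) < m := lt_of_lt_of_le (by positivity) hm
  have hm1 : 1 ≤ m := by exact_mod_cast hm0
  obtain ⟨K, hK, hmain⟩ := cube_nat k hk t ht m hm1 (min (ε / 3) 1) (lt_min (by positivity) one_pos)
    (min_le_right _ _)
  refine ⟨K, hK, fun q hq => ?_⟩
  obtain ⟨A, X₀, hX₀⟩ := hmain q hq
  obtain ⟨X₁, hX₁⟩ := exists_nat_ge (Real.exp (3 / ε))
  refine ⟨A, max X₀ (max X₁ 2), fun X y hX hyX f χ τ hf hτ hA hδ => ?_⟩
  have h1 := AS_split X m (by have := le_max_right X₀ (max X₁ 2); have := le_max_right X₁ 2; omega)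
    hm1 (fun n : ℕ => CU k t (fun x => f x.toNat) n)
    (fun n => norm_CU_le k t _ (fun x => hf.1 _) _) (ε / 3) (by positivity) (fun N hN hXN =>
      (hX₀ X N y ((le_max_left _ _).trans hX) hN hXN hyX f χ τ hf hτ hA hδ).trans (min_le_left _ _))
  refine h1.trans ?_
  have h2 : 1 / (m : ℝ) ≤ ε / 3 := by
    rw [div_le_iff₀ hε] at hm
    rw [div_le_iff₀ hm0]
    linarith
  have h3 : 1 / Real.log X ≤ ε / 3 := by
    have h4 : 3 / ε ≤ Real.log X := by
      rw [← Real.log_exp (3 / ε)]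
      refine Real.log_le_log (Real.exp_pos _) (hX₁.trans ?_)
      exact_mod_cast ((le_max_left _ _).trans (le_max_right X₀ (max X₁ 2))).trans hX
    have h5 : 0 < Real.log X := lt_of_lt_of_le (by positivity) h4
    rw [div_le_iff₀ hε] at h4
    rw [div_le_iff₀ h5]
    linarith
  linarith

/-- the theorem -/
theorem near_thm (k : ℕ) (hk : 1 ≤ k) (a : Fin (k + 1) → ℤ) (ha : Function.Injective a) (ε : ℝ)
    (hε : 0 < ε) : ∃ K w₀ : ℕ, 1 ≤ K ∧ ∀ q : ℕ, 1 ≤ q → ∃ (A : ℝ) (X₀ : ℕ), ∀ X y : ℕ, X₀ ≤ X →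
      y ^ K ≤ X → ∀ (f : ℕ → ℂ) (χ : DirichletCharacter ℂ q) (τ : ℝ), BM f → |τ| ^ K ≤ X →
      A ≤ ∑ p ∈ PP 0 y, (1 - (uu f χ τ p).re) / p →
      ∑ p ∈ PP y X, (1 - (uu f χ τ p).re) / p ≤ 1 / K →
      ∀ g G : Fin k → ℕ → ℂ, (∀ j, BM (g j)) → (∀ j, QM w₀ (G j)) →
        AS X (cor a f (fun j n => g j n * G j n)) ≤ ε := by
  classical
  obtain ⟨R, w₀, X₁, δ, hδ, hinv⟩ := inv_thm k hk a ha ε hε
  obtain ⟨T, hT⟩ : ∃ T : Finset (Fin k → ℤ), T = (Fintype.piFinset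
    (fun _ : Fin k => Icc (-(R : ℤ)) R)).filter (fun t => ND t) := ⟨_, rfl⟩
  have hTm : ∀ t : Fin k → ℤ, ND t → (∀ i, |t i| ≤ (R : ℤ)) → t ∈ T := by
    intro t ht h
    rw [hT, mem_filter, Fintype.mem_piFinset]
    exact ⟨fun i => mem_Icc.2 (abs_le.1 (h i)), ht⟩
  have hTN : ∀ t ∈ T, ND t := fun t ht => by
    rw [hT] at ht
    exact (mem_filter.1 ht).2
  have hc : ∀ t : T, _ := fun t => cube_AS k hk t.1 (hTN t.1 t.2) δ hδ
  choose Kt hKt hmain using hc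
  obtain ⟨K, hKdef⟩ : ∃ K : ℕ, K = ∑ t : T, Kt t + 1 := ⟨_, rfl⟩
  have hKle : ∀ t : T, Kt t ≤ K := fun t => by
    rw [hKdef]
    exact (single_le_sum (f := Kt) (fun _ _ => Nat.zero_le _) (mem_univ t)).trans (Nat.le_succ _)
  refine ⟨K, w₀, by omega, fun q hq => ?_⟩
  have hc2 := fun t : T => hmain t q hq
  choose At Xt hXt using hc2
  obtain ⟨A, hA⟩ : ∃ A : ℝ, ∀ t : T, At t ≤ A := by
    refine ⟨∑ t : T, |At t|, fun t => (le_abs_self _).trans ?_⟩
    exact single_le_sum (f := fun t => |At t|) (fun _ _ => abs_nonneg _) (mem_univ t)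
  refine ⟨A, X₁ + (∑ t : T, Xt t + 1), fun X y hX hyX f χ τ hf hτ hA' hδ' g G hg hG => ?_⟩
  refine hinv X (by omega) f hf (fun t ht htR => ?_) g G hg hG
  have htT := hTm t ht htR
  have hXt' : Xt ⟨t, htT⟩ ≤ X := by
    have := single_le_sum (f := Xt) (fun _ _ => Nat.zero_le _) (mem_univ (⟨t, htT⟩ : T))
    omega
  have hK1 := hKle ⟨t, htT⟩
  have hKt1 := hKt ⟨t, htT⟩
  have hX1 : 1 ≤ X := by omega
  refine hXt ⟨t, htT⟩ X y hXt' ?_ f χ τ hf ?_ ((hA _).trans hA') (hδ'.trans ?_)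
  · rcases Nat.eq_zero_or_pos y with h0 | h0
    · rw [h0, Nat.zero_pow (by omega)]
      exact Nat.zero_le _
    · exact (Nat.pow_le_pow_right h0 hK1).trans hyX
  · by_cases h1 : |τ| ≤ 1
    · exact (pow_le_one₀ (abs_nonneg _) h1).trans (by exact_mod_cast hX1)
    · push Not at h1
      exact (pow_le_pow_right₀ h1.le hK1).trans hτ
  · exact one_div_le_one_div_of_le (by exact_mod_cast hKt1) (by exact_mod_cast hK1)

end Pool.Agent.K9h46
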