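import Pool.Agent.K9h46.Com
import Pool.Agent.TH573.SM.Main

/-!
Almost every modification of a completely multiplicative function with values `1` and `-1` on a very
sparse set of primes, against arbitrary companions.
-/

set_option autoImplicit false

namespace Pool.Agent.K9h46

open Finset Filter Pool.Agent.Q270.EA Pool.Agent.Q270.EB Pool.Agent.H220M MeasureTheory
open Pool.Agent.TH573.SM (sparse)

/-- the polynomial of the cube -/
noncomputable def cpol (k : ℕ) (t : Fin k → ℤ) : Polynomial ℤ :=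
  ∏ s : Finset (Fin k), (Polynomial.X + Polynomial.C (∑ i ∈ s, t i))

lemma cpol_eval (k : ℕ) (t : Fin k → ℤ) (n : ℤ) :
    (cpol k t).eval n = ∏ s : Finset (Fin k), (n + ∑ i ∈ s, t i) := by
  unfold cpol
  rw [Polynomial.eval_prod]
  refine prod_congr rfl fun s _ => ?_
  rw [Polynomial.eval_add, Polynomial.eval_X, Polynomial.eval_C]

lemma cpol_nsq (k : ℕ) (t : Fin k → ℤ) (ht : ND t) :
    ¬ ∃ (c : ℤ) (G : Polynomial ℤ), cpol k t = Polynomial.C c * G ^ 2 := by
  rintro ⟨c, G, h⟩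
  have e1 : cpol k t = Polynomial.X *
      ∏ s ∈ (univ : Finset (Finset (Fin k))).erase ∅, (Polynomial.X + Polynomial.C (∑ i ∈ s, t i)) := by
    unfold cpol
    rw [← mul_prod_erase _ _ (mem_univ (∅ : Finset (Fin k))), sum_empty, Polynomial.C_0, add_zero]
  have e2 : (∏ s ∈ (univ : Finset (Finset (Fin k))).erase ∅,
      (Polynomial.X + Polynomial.C (∑ i ∈ s, t i)) : Polynomial ℤ).eval 0 ≠ 0 := by
    rw [Polynomial.eval_prod, prod_ne_zero_iff]
    intro s hs
    have h1 := (mem_erase.1 hs).1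
    simp only [Polynomial.eval_add, Polynomial.eval_X, Polynomial.eval_C, zero_add]
    intro h2
    apply h1
    apply ht
    simpa using h2
  have e0 : cpol k t ≠ 0 := by
    rw [e1]
    refine mul_ne_zero Polynomial.X_ne_zero ?_
    intro h0
    rw [h0] at e2
    simp at e2
  have hc : c ≠ 0 := by
    rintro rfl
    rw [h] at e0
    simp at e0
  have h1 : (cpol k t).eval 0 = 0 := by rw [e1]; simp
  have h2 : G.eval 0 = 0 := by
    rw [h] at h1
    simp only [Polynomial.eval_mul, Polynomial.eval_C, Polynomial.eval_pow] at h1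
    rcases mul_eq_zero.1 h1 with h3 | h3
    · exact absurd h3 hc
    · exact pow_eq_zero_iff (by norm_num) |>.1 h3
  have h3 : Polynomial.X ∣ G := by
    rw [Polynomial.X_dvd_iff, Polynomial.coeff_zero_eq_eval_zero]
    exact h2
  obtain ⟨H, rfl⟩ := h3
  have h4 : (Polynomial.X : Polynomial ℤ) * ∏ s ∈ (univ : Finset (Finset (Fin k))).erase ∅,
      (Polynomial.X + Polynomial.C (∑ i ∈ s, t i)) =
      Polynomial.X * (Polynomial.C c * (Polynomial.X * H ^ 2)) := by
    rw [← e1, h]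
    ring
  have h5 := mul_left_cancel₀ Polynomial.X_ne_zero h4
  rw [h5] at e2
  simp at e2

lemma cu_real (k : ℕ) (t : Fin k → ℤ) (f : ℕ → ℤ) (x : ℤ) :
    CU k t (fun x => ((f x.toNat : ℤ) : ℂ)) x =
      ((∏ s : Finset (Fin k), f (x + ∑ i ∈ s, t i).toNat : ℤ) : ℂ) := by
  unfold CU
  push_cast
  refine prod_congr rfl fun s _ => ?_
  unfold cj
  split_ifs
  · rfl
  · exact Complex.conj_eq_iff_im.2 (by simp)

theorem self_of (f : ℕ →*₀ ℤ) (hf : ∀ n, |f n| ≤ 1) (k : ℕ) (t : Fin k → ℤ)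
    (h : Tendsto (fun x : ℕ => (∑ n ∈ Icc 1 x,
          ((f ((cpol k t).eval (n : ℤ)).natAbs : ℤ) : ℝ)) / x) atTop (nhds 0)) :
    Tendsto (fun X : ℕ => AS X (fun n : ℕ => CU k t (fun x => ((f x.toNat : ℤ) : ℂ)) n))
      atTop (nhds 0) := by
  refine AS_of_nat ?_
  obtain ⟨B, hB⟩ : ∃ B : ℕ, ∀ s : Finset (Fin k), -(∑ i ∈ s, t i) < (B : ℤ) := by
    refine ⟨∑ i, (t i).natAbs + 1, fun s => ?_⟩
    have h1 : -(∑ i ∈ s, t i) ≤ ∑ i ∈ s, ((t i).natAbs : ℤ) := by
      rw [← sum_neg_distrib]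
      refine sum_le_sum fun i _ => ?_
      omega
    have h2 : ∑ i ∈ s, ((t i).natAbs : ℤ) ≤ ∑ i, ((t i).natAbs : ℤ) :=
      sum_le_sum_of_subset_of_nonneg (subset_univ _) fun _ _ _ => by positivity
    have h3 : ((∑ i, (t i).natAbs + 1 : ℕ) : ℤ) = ∑ i, ((t i).natAbs : ℤ) + 1 := by
      rw [Nat.cast_add, Nat.cast_sum, Nat.cast_one]
    rw [h3]
    linarith
  obtain ⟨r, hr⟩ : ∃ r : ℕ → ℝ, r = fun (n : ℕ) => ((f ((cpol k t).eval (n : ℤ)).natAbs : ℤ) : ℝ) :=
    ⟨_, rfl⟩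
  obtain ⟨u, hu⟩ : ∃ u : ℕ → ℂ, u = fun (n : ℕ) => CU k t (fun x => ((f x.toNat : ℤ) : ℂ)) n :=
    ⟨_, rfl⟩
  have hur : ∀ n : ℕ, B ≤ n → u n = (r n : ℂ) := by
    intro n hn
    rw [hu, hr]
    dsimp only
    have h0 : ((cpol k t).eval (n : ℤ)).natAbs =
        ∏ s : Finset (Fin k), ((n : ℤ) + ∑ i ∈ s, t i).toNat := by
      rw [cpol_eval]
      zify
      rw [abs_prod]
      refine prod_congr rfl fun s _ => ?_
      have h1 := hB s
      have h2 : 0 < (n : ℤ) + ∑ i ∈ s, t i := by omega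
      rw [abs_of_pos h2, Int.toNat_of_nonneg h2.le]
    rw [cu_real, h0, map_prod]
    push_cast
    rfl
  have hr1 : ∀ n, |r n| ≤ 1 := fun n => by
    rw [hr]
    dsimp only
    rw [← Int.cast_abs]
    exact_mod_cast hf _
  have hu1 : ∀ n, ‖u n‖ ≤ 1 := fun n => by
    rw [hu]
    refine norm_CU_le k t _ (fun x => ?_) _
    rw [Complex.norm_intCast]
    exact_mod_cast hf _
  have hsum : ∀ N : ℕ, ‖(1 / (N : ℂ)) * ∑ n ∈ Icc 1 N, u n‖ ≤
      |(∑ n ∈ Icc 1 N, r n) / N| + 2 * B / N := by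
    intro N
    have h1 : ∑ n ∈ Icc 1 N, u n = ((∑ n ∈ Icc 1 N, r n : ℝ) : ℂ) +
        ∑ n ∈ Icc 1 N, (u n - (r n : ℂ)) := by
      push_cast
      rw [← sum_add_distrib]
      exact sum_congr rfl fun n _ => by ring
    have h2 : ‖∑ n ∈ Icc 1 N, (u n - (r n : ℂ))‖ ≤ 2 * B := by
      have h3 : ∑ n ∈ Icc 1 N, (u n - (r n : ℂ)) =
          ∑ n ∈ (Icc 1 N).filter (fun n => n < B), (u n - (r n : ℂ)) := by
        rw [sum_filter]
        refine sum_congr rfl fun n _ => ?_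
        split_ifs with h4
        · rfl
        · rw [hur n (by omega), sub_self]
      rw [h3]
      refine (norm_sum_le _ _).trans ?_
      refine (sum_le_card_nsmul _ _ 2 fun n _ => ?_).trans ?_
      · refine (norm_sub_le _ _).trans ?_
        have := hu1 n
        have := hr1 n
        rw [Complex.norm_real, Real.norm_eq_abs]
        linarith
      · rw [nsmul_eq_mul, mul_comm]
        have h5 : ((Icc 1 N).filter (fun n => n < B)).card ≤ B := by
          refine (card_le_card (t := range B) fun n hn => ?_).trans (by simp)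
          exact mem_range.2 (mem_filter.1 hn).2
        have h6 : (((Icc 1 N).filter (fun n => n < B)).card : ℝ) ≤ B := by exact_mod_cast h5
        linarith
    rw [h1, mul_add]
    refine (norm_add_le _ _).trans ?_
    refine add_le_add ?_ ?_
    · rw [norm_mul, norm_div, norm_one, Complex.norm_natCast, Complex.norm_real, Real.norm_eq_abs,
        abs_div, Nat.abs_cast]
      exact le_of_eq (by ring)
    · rw [norm_mul, norm_div, norm_one, Complex.norm_natCast]
      calc 1 / (N : ℝ) * ‖∑ n ∈ Icc 1 N, (u n - (r n : ℂ))‖ ≤ 1 / (N : ℝ) * (2 * B) :=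
            mul_le_mul_of_nonneg_left h2 (by positivity)
        _ = 2 * B / N := by ring
  rw [tendsto_zero_iff_norm_tendsto_zero]
  have h1 : Tendsto (fun N : ℕ => |(∑ n ∈ Icc 1 N, r n) / N| + 2 * B / (N : ℝ)) atTop
      (nhds (0 + 0)) := by
    refine Tendsto.add ?_ (tendsto_const_div_atTop_nhds_zero_nat _)
    have h2 := h.abs
    rw [abs_zero] at h2
    rw [hr]
    exact h2
  rw [add_zero] at h1
  have h2 := squeeze_zero (fun N => norm_nonneg _) hsum h1
  rw [hu] at h2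
  exact h2

theorem rand (g : ℕ →*₀ ℤ) (hg : ∀ p : ℕ, p.Prime → g p = 1 ∨ g p = -1) :
    ∀ᵐ ω ∂coins, ∃! f : ℕ →*₀ ℤ, IsModif g sparse ω f ∧
      ∀ (k : ℕ) (a : Fin (k + 1) → ℤ), 1 ≤ k → Function.Injective a → ∀ ε : ℝ, 0 < ε →
        ∃ w X₀ : ℕ, ∀ X : ℕ, X₀ ≤ X → ∀ g : Fin k → ℕ → ℂ, (∀ j, MU (g j)) →
          ∀ b : Fin k → ℕ → ℕ → ℂ, (∀ j u v, ‖b j u v‖ ≤ 1) →
          ∑ N ∈ Icc 1 X, (1 / (N : ℝ)) * ‖cr a (fun n => ((f n : ℤ) : ℂ))
            (fun j n => g j n * b j (om n) (ro w n)) N‖ ≤ ε * Real.log X := by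
  filter_upwards [Pool.Agent.TH573.SM.main g hg (fun _ _ => 1) (fun _ _ => by simp)] with ω hω
  obtain ⟨f, ⟨hf, h1⟩, hu⟩ := hω
  refine ⟨f, ⟨hf, ?_⟩, fun f' hf' => isModif_unique g _ ω f' f hf'.1 hf⟩
  intro k a hk ha ε hε
  obtain ⟨u, hu'⟩ : ∃ u : ℕ → ℤˣ, ∀ m : ℕ, m ≠ 0 → f m = ((u m : ℤˣ) : ℤ) := by
    refine exists_unit f fun p hp => ?_
    by_cases hpQ : p ∈ sparse
    · rw [hf.2 p hp hpQ]
      rcases hg p hp with h | h <;> rw [h] <;> split_ifs <;> simp
    · rw [hf.1 p hp hpQ]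
      exact hg p hp
  have hf1 : ∀ n, |f n| ≤ 1 := by
    intro n
    rcases Nat.eq_zero_or_pos n with rfl | hn
    · simp
    · rw [hu' n (by omega)]
      rcases Int.units_eq_one_or (u n) with h | h <;> rw [h] <;> simp
  have hBM : BM (fun n => ((f n : ℤ) : ℂ)) := by
    refine ⟨fun n => ?_, by simp, fun m n _ => by simp⟩
    rw [Complex.norm_intCast]
    exact_mod_cast hf1 n
  obtain ⟨w, X₀, h2⟩ := tt_of (fun n => ((f n : ℤ) : ℂ)) hBM k hk (fun t ht => by
    refine self_of f hf1 k t ?_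
    have h3 := h1 (cpol k t) (cpol_nsq k t ht) 0 0 1
    refine h3.congr fun x => ?_
    congr 1
    refine (sum_congr ?_ fun n _ => by rw [one_mul])
    refine filter_true_of_mem fun n _ => ?_
    exact Nat.modEq_one) a ha (ε / 2) (by positivity)
  refine ⟨w, max X₀ 3, fun X hX g hg b hb => ?_⟩
  have h0 : z0 (fun n => ((f n : ℤ) : ℂ)) = fun n => ((f n : ℤ) : ℂ) := by
    funext n
    unfold z0
    split_ifs with h
    · rw [h]; simp
    · rfl
  refine transfer k a _ ε hε w X (by have := le_max_right X₀ 3; omega) (fun g G hg hG => ?_) g hg b hb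
  rw [h0]
  exact h2 X (by have := le_max_left X₀ 3; omega) g G hg hG

end Pool.Agent.K9h46
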