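import Pool.Agent.Q270.EB.TT

/-!
Correlations of one multiplicative function with arbitrary companions: the uniform inverse theorem.
If the correlations of a 1-bounded multiplicative function `f` with arbitrary companions are not
small up to the scale `X`, then some correlation of `f` with itself along a bounded nondegenerate
cube is not small up to the scale `X`; uniformly in `f`.

Uses the sequence form `Pool.Agent.Q270.EB.seqB` of the entropy decrement argument.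
-/

set_option autoImplicit false

namespace Pool.Agent.K9h46

open Finset Filter Pool.Agent.Q270.EA Pool.Agent.Q270.EB

lemma mean_shift {Ω : Type} (M : Sys Ω) (F : ℕ → ℝ) (C : ℝ) (hF : ∀ n, |F n| ≤ C) (x : ℤ) :
    M.m (fun ω => F (((M.ν ω : ℤ) + x).toNat)) = M.m (fun ω => F (M.ν ω)) := by
  have hb1 : Bd (fun ω => F (((M.ν ω : ℤ) + x).toNat)) := ⟨C, fun ω => hF _⟩
  have hb2 : Bd (fun ω => F (M.ν ω)) := ⟨C, fun ω => hF _⟩
  rcases le_total 0 x with hx | hx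
  · obtain ⟨l, rfl⟩ := Int.eq_ofNat_of_zero_le hx
    rw [← M.iter hb2 l]
    congr 1
    funext ω
    rw [M.pos_iter]
    congr 1
  · obtain ⟨l, hl⟩ := Int.eq_ofNat_of_zero_le (neg_nonneg.2 hx)
    obtain rfl : x = -(l : ℤ) := by linarith [hl]
    rw [← M.iter hb1 l]
    congr 1
    funext ω
    rw [M.pos_iter]
    congr 1
    push_cast
    omega

lemma EX_mono (X : ℕ) (φ ψ : ℕ → ℕ → ℝ) (h : ∀ N n, φ N n ≤ ψ N n) : EX X φ ≤ EX X ψ := by
  unfold EX
  refine div_le_div_of_nonneg_right ?_ (sum_nonneg fun _ _ => by positivity)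
  refine sum_le_sum fun N _ => mul_le_mul_of_nonneg_left ?_ (by positivity)
  exact mul_le_mul_of_nonneg_left (sum_le_sum fun n _ => h _ _) (by positivity)

/-- sequences of functions that are small at many primes -/
lemma triv_seq (X : ℕ → ℕ) (hX : Tendsto X atTop atTop) (f : ℕ → ℕ → ℂ) (hf : ∀ i, BM (f i))
    (hV : ∀ V : ℝ, ∃ s : Finset ℕ, (∀ p ∈ s, p.Prime) ∧
      (∀ᶠ i in atTop, ∀ p ∈ s, ‖f i p‖ < 1 / 2) ∧ V ≤ ∑ p ∈ s, 1 / (p : ℝ))
    (a0 : ℤ) (ε : ℝ) (hε : 0 < ε) :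
    ¬ ∀ i, ε ≤ EX (X i) (fun _ n => ‖f i ((n + a0 : ℤ).toNat)‖) := by
  intro hcon
  obtain ⟨s, hs, hsf, hsV⟩ := hV (4 * (1 - Real.log ε))
  obtain ⟨i₀, hi₀⟩ := eventually_atTop.1 hsf
  have hXt : Tendsto (fun i => X (i + i₀)) atTop atTop :=
    hX.comp (tendsto_add_atTop_nat i₀)
  obtain ⟨M, hS, hν, hdil, hlow, hlim⟩ := Pool.Agent.Q239.EA.t_SY3 _ hXt
  obtain ⟨F, hF⟩ : ∃ F : ℕ → ℝ, F = fun n => ∏ p ∈ s, Pool.Agent.Q148.EA.psf p n := ⟨_, rfl⟩
  have hF0 : ∀ n, 0 ≤ F n := fun n => by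
    rw [hF]; exact prod_nonneg fun p _ => Pool.Agent.Q148.EA.psf_nonneg p _
  have hF1 : ∀ n, F n ≤ 1 := fun n => by
    rw [hF]
    exact prod_le_one (fun p _ => Pool.Agent.Q148.EA.psf_nonneg p _)
      fun p _ => Pool.Agent.Q148.EA.psf_le_one p _
  have hFb : ∀ n, |F n| ≤ 1 := fun n => by rw [abs_of_nonneg (hF0 n)]; exact hF1 n
  have h1 := hlow (fun ω : ℕ × ℕ × ℕ => F ((ω.2.2 + a0 : ℤ).toNat)) ⟨1, fun ω => hFb _⟩ ε
    (fun i => (hcon (i + i₀)).trans (EX_mono _ _ _ fun N n => by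
      rw [hF]
      exact Pool.Agent.Q148.EA.f_le_psf (f (i + i₀)) (hf _) s
        (fun p hp => ⟨hs p hp, hi₀ (i + i₀) (by omega) p hp⟩) _))
  have h2 : M.m (fun ω : ℕ × ℕ × ℕ => F ((ω.2.2 + a0 : ℤ).toNat)) = M.m (fun ω => F (M.ν ω)) := by
    rw [← mean_shift M F 1 hFb a0]
    congr 1
    funext ω
    rw [hν]
  rw [h2] at h1
  have h3 := Pool.Agent.Q148.EA.mean_psf Pool.Agent.Q285.EA.t_UNIF M s hs 1 le_rfl
      (fun p hp h => (hs p hp).one_lt.ne' (Nat.dvd_one.1 h))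
  simp only [one_dvd, if_true, one_mul, Nat.cast_one, div_one] at h3
  have h4 : M.m (fun ω => F (M.ν ω)) =
      ∏ p ∈ s, (1 - 1 / (2 * (p : ℝ)) + 1 / (2 * (p : ℝ) ^ 2)) := by
    rw [← h3, hF]
  rw [h4] at h1
  have h5 : ∏ p ∈ s, (1 - 1 / (2 * (p : ℝ)) + 1 / (2 * (p : ℝ) ^ 2)) ≤
      Real.exp (-(1 / 4) * ∑ p ∈ s, 1 / (p : ℝ)) := by
    rw [Finset.mul_sum, Real.exp_sum]
    refine Finset.prod_le_prod (fun p hp => ?_) fun p hp => ?_
    · have h2 : (2 : ℝ) ≤ p := by exact_mod_cast (hs p hp).two_le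
      have a1 : 1 / (2 * (p : ℝ)) ≤ 1 := by
        rw [div_le_one (by positivity)]
        linarith
      have a2 : 0 ≤ 1 / (2 * (p : ℝ) ^ 2) := by positivity
      linarith
    · have h2 : (2 : ℝ) ≤ p := by exact_mod_cast (hs p hp).two_le
      have hp0 : (0 : ℝ) < p := by linarith
      have a1 : 1 / (2 * (p : ℝ) ^ 2) ≤ 1 / (4 * (p : ℝ)) := by
        apply one_div_le_one_div_of_le (by positivity)
        nlinarith
      have a2 : 1 / (2 * (p : ℝ)) = 2 * (1 / (4 * (p : ℝ))) := by field_simp; norm_num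
      have a3 : -(1 / 4) * (1 / (p : ℝ)) = - (1 / (4 * (p : ℝ))) := by field_simp
      rw [a3]
      have := Real.add_one_le_exp (- (1 / (4 * (p : ℝ))))
      linarith
  have h6 : Real.exp (-(1 / 4) * ∑ p ∈ s, 1 / (p : ℝ)) ≤ Real.exp (Real.log ε - 1) := by
    apply Real.exp_le_exp.2
    linarith
  have h7 : Real.exp (Real.log ε - 1) < ε := by
    calc Real.exp (Real.log ε - 1) < Real.exp (Real.log ε) := Real.exp_lt_exp.2 (by linarith)
      _ = ε := Real.exp_log hε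
  linarith

lemma subseq_bool (b : ℕ → ℕ → Bool) : ∃ φ : ℕ → ℕ, StrictMono φ ∧ ∃ c : ℕ → Bool,
    ∀ p, ∀ᶠ i in atTop, b (φ i) p = c p := by
  obtain ⟨c, φ, hφ, hlim⟩ := CompactSpace.tendsto_subseq b
  refine ⟨φ, hφ, c, fun p => ?_⟩
  have h1 := (tendsto_pi_nhds.1 hlim) p
  rw [nhds_discrete, tendsto_pure] at h1
  exact h1

lemma slow (P : ℕ → ℕ → Prop) (h : ∀ p, ∀ᶠ i in atTop, P i p) : ∃ w : ℕ → ℕ,
    Tendsto w atTop atTop ∧ (∀ i, w i ≤ i) ∧ ∀ i p, 1 ≤ p → p ≤ w i → P i p := by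
  classical
  obtain ⟨Q, hQ⟩ : ∃ Q : ℕ → ℕ → Prop, Q = fun i w => ∀ p, 1 ≤ p → p ≤ w → P i p := ⟨_, rfl⟩
  refine ⟨fun i => Nat.findGreatest (Q i) i, ?_, fun i =>
    Nat.findGreatest_le i, fun i p hp hpw => ?_⟩
  · rw [tendsto_atTop]
    intro B
    have h1 : ∀ᶠ i in atTop, ∀ p ∈ Icc 1 B, P i p := (Finset.eventually_all _).2 fun p _ => h p
    filter_upwards [h1, eventually_ge_atTop B] with i hi hB
    refine Nat.le_findGreatest hB ?_
    rw [hQ]
    exact fun p hp hpB => hi p (mem_Icc.2 ⟨hp, hpB⟩)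
  · have h1 : Q i (Nat.findGreatest (Q i) i) := Nat.findGreatest_spec (Nat.zero_le i) (by
      rw [hQ]
      exact fun p hp hp0 => absurd hp (by omega))
    rw [hQ] at h1
    exact h1 p hp (by rw [hQ] at hpw; exact hpw)

/-- the uniform inverse theorem -/
theorem inv_thm (k : ℕ) (hk : 1 ≤ k) (a : Fin (k + 1) → ℤ) (ha : Function.Injective a) (ε : ℝ)
    (hε : 0 < ε) : ∃ (R w₀ X₀ : ℕ) (δ : ℝ), 0 < δ ∧ ∀ X : ℕ, X₀ ≤ X → ∀ f : ℕ → ℂ, BM f →
      (∀ t : Fin k → ℤ, ND t → (∀ i, |t i| ≤ R) →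
        AS X (fun n : ℕ => CU k t (fun x => f x.toNat) n) ≤ δ) →
      ∀ g G : Fin k → ℕ → ℂ, (∀ j, BM (g j)) → (∀ j, QM w₀ (G j)) →
        AS X (cor a f (fun j n => g j n * G j n)) ≤ ε := by
  classical
  by_contra hcon
  push Not at hcon
  have hcon' : ∀ i : ℕ, ∃ X : ℕ, i ≤ X ∧ ∃ f : ℕ → ℂ, BM f ∧
      (∀ t : Fin k → ℤ, ND t → (∀ j, |t j| ≤ (i : ℤ)) →
        AS X (fun n : ℕ => CU k t (fun x => f x.toNat) n) ≤ 1 / ((i : ℝ) + 1)) ∧
      ∃ g G : Fin k → ℕ → ℂ, (∀ j, BM (g j)) ∧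
      (∀ j, QM i (G j)) ∧ ε ≤ AS X (cor a f (fun j n => g j n * G j n)) := by
    intro i
    obtain ⟨X, hX, f, hf, hself, g, G, hg, hG, h⟩ := hcon i i i (1 / ((i : ℝ) + 1)) (by positivity)
    exact ⟨X, hX, f, hf, hself, g, G, hg, hG, h.le⟩
  choose X hX f hf hself g G hg hG hε' using hcon'
  obtain ⟨φ, hφ, c, hc⟩ := subseq_bool (fun i p => decide (1 / 2 ≤ ‖f i p‖))
  have hφt : Tendsto φ atTop atTop := hφ.tendsto_atTop
  have hXt : Tendsto (fun i => X (φ i)) atTop atTop :=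
    (tendsto_atTop_mono hX tendsto_id).comp hφt
  have hG1 : ∀ i j n, ‖G i j n‖ ≤ 1 := fun i j => (hG i j).1
  have hG2 := fun i j => (hG i j).2
  choose H d hH hd hrel using hG2
  by_cases hV : ∀ V : ℝ, ∃ s : Finset ℕ, (∀ p ∈ s, p.Prime ∧ c p = false) ∧
    V ≤ ∑ p ∈ s, 1 / (p : ℝ)
  · refine triv_seq (fun i => X (φ i)) hXt (fun i => f (φ i)) (fun i => hf _) (fun V => ?_) (a 0) ε
      hε (fun i => (hε' (φ i)).trans (AS_le_EX a _ _ _ fun j n => ?_))
    · obtain ⟨s, hs, hsV⟩ := hV V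
      refine ⟨s, fun p hp => (hs p hp).1, ?_, hsV⟩
      rw [Finset.eventually_all]
      intro p hp
      filter_upwards [hc p] with i hi
      rw [(hs p hp).2] at hi
      have := of_decide_eq_false hi
      exact not_le.1 this
    · rw [norm_mul]
      exact mul_le_one₀ ((hg _ j).1 n) (norm_nonneg _) (hG1 _ j n)
  push Not at hV
  obtain ⟨V, hV⟩ := hV
  obtain ⟨V', hV'⟩ := Pool.Agent.Q148.EA.t_BAD (fun p => if c p = true then 1 else 0) V (by
    intro s hs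
    refine (hV s fun p hp => ⟨(hs p hp).1, ?_⟩).le
    have h1 := (hs p hp).2
    by_contra h2
    rw [Bool.not_eq_false] at h2
    rw [if_pos h2] at h1
    norm_num at h1)
  obtain ⟨w, hw, hwi, hwP⟩ := slow (fun i p => decide (1 / 2 ≤ ‖f (φ i) p‖) = c p) hc
  refine seqB Pool.Agent.Q285.EA.t_UNIF k hk (fun i => X (φ i)) hXt w hw (fun i => f (φ i))
    (fun i => (hf _).1) (fun i => f (φ i)) (fun p => c p = true) V' (fun S hS => hV' S (by
      intro j hj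
      obtain ⟨h1, h2⟩ := hS j hj
      refine ⟨?_, h2⟩
      convert h1 using 5
      split_ifs with h3
      · simp [h3]
        norm_num
      · simp [h3]))
    (fun i p hp hg' hpw => ⟨?_, fun m hm hpm => (hf _).2.2 p m
      ((Nat.Prime.coprime_iff_not_dvd hp).2 hpm)⟩)
    (fun j i => g (φ i) j) (fun j i => hg (φ i) j) (fun j i => G (φ i) j) (fun j i => H (φ i) j)
    (fun j i => d (φ i) j) (fun j i => hG1 (φ i) j) (fun j i => hH (φ i) j)
    (fun j i => hd (φ i) j)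
    (fun j i p hp hpw m hm hpm => hrel (φ i) j p m hp ?_ hm hpm) a ha
    (fun t ht => ?_) ε hε (fun i => hε' (φ i))
  · have h1 := hwP i p hp.one_le hpw
    rw [hg'] at h1
    exact of_decide_eq_true h1
  · exact hpw.trans ((hwi i).trans (hφ.id_le i))
  · have h1 : Tendsto (fun i : ℕ => 1 / ((φ i : ℝ) + 1)) atTop (nhds 0) :=
      (tendsto_one_div_add_atTop_nhds_zero_nat (𝕜 := ℝ)).comp hφt
    refine squeeze_zero' (Eventually.of_forall fun i => AS_nonneg _ _) ?_ h1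
    obtain ⟨B, hB⟩ : ∃ B : ℕ, ∀ j, |t j| ≤ (B : ℤ) := by
      refine ⟨∑ j, (t j).natAbs, fun j => ?_⟩
      rw [Int.abs_eq_natAbs]
      exact_mod_cast Finset.single_le_sum (f := fun j => (t j).natAbs) (fun _ _ => Nat.zero_le _)
        (mem_univ j)
    filter_upwards [eventually_ge_atTop B] with i hi
    refine hself (φ i) t ht fun j => (hB j).trans ?_
    exact_mod_cast hi.trans (hφ.id_le i)

end Pool.Agent.K9h46
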